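import Pool.Agent.LAP.Defs

/-! LAP/BHa.  The inequality of Hooley and the factorisation over blocks. -/

set_option autoImplicit false

namespace Pool.Agent.LAP

open Finset

private theorem bha_two (P : ℕ → Prop) [DecidablePred P] (S : Finset ℕ) (F : Finset ℕ → ℝ) :
    ∑ T ∈ S.powerset, F T =
      ∑ A ∈ (S.filter P).powerset, ∑ B ∈ (S.filter fun p => ¬ P p).powerset, F (A ∪ B) := by
  rw [← Finset.sum_product']
  symm
  refine Finset.sum_nbij' (fun x : Finset ℕ × Finset ℕ => x.1 ∪ x.2)
    (fun T => (T.filter P, T.filter fun p => ¬ P p)) ?_ ?_ ?_ ?_ ?_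
  · intro x hx
    rw [Finset.mem_product, mem_powerset, mem_powerset] at hx
    rw [mem_powerset]
    exact Finset.union_subset (hx.1.trans (filter_subset _ _)) (hx.2.trans (filter_subset _ _))
  · intro T hT
    rw [mem_powerset] at hT
    rw [mem_product, mem_powerset, mem_powerset]
    exact ⟨Finset.filter_subset_filter _ hT, Finset.filter_subset_filter _ hT⟩
  · rintro ⟨A, B⟩ hx
    rw [mem_product, mem_powerset, mem_powerset] at hx
    refine Prod.ext ?_ ?_
    · ext p
      simp only [mem_filter, mem_union]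
      constructor
      · rintro ⟨h | h, hp⟩
        · exact h
        · exact absurd hp (mem_filter.1 (hx.2 h)).2
      · intro h
        exact ⟨Or.inl h, (mem_filter.1 (hx.1 h)).2⟩
    · ext p
      simp only [mem_filter, mem_union]
      constructor
      · rintro ⟨h | h, hp⟩
        · exact absurd (mem_filter.1 (hx.1 h)).2 hp
        · exact h
      · intro h
        exact ⟨Or.inr h, (mem_filter.1 (hx.2 h)).2⟩
  · intro T _
    ext p
    simp only [mem_filter, mem_union]
    tauto
  · intro x _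
    rfl

theorem fac (β : ℕ → ℕ) (t : ℕ) (f : ℕ → Finset ℕ → ℝ) (S : Finset ℕ) (hS : ∀ p ∈ S, β p < t) :
    ∑ T ∈ S.powerset, ∏ j ∈ range t, f j (bset β j T) =
      ∏ j ∈ range t, ∑ T ∈ (bset β j S).powerset, f j T := by
  induction t generalizing S with
  | zero =>
    have h0 : S = ∅ := by
      rw [Finset.eq_empty_iff_forall_notMem]
      intro p hp
      exact absurd (hS p hp) (Nat.not_lt_zero _)
    subst h0
    simp
  | succ t ih =>
    rw [bha_two (fun p => β p = t) S, Finset.prod_range_succ]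
    have h1 : ∀ A ∈ (S.filter fun p => β p = t).powerset, ∀ B ∈ (S.filter fun p => ¬ β p = t).powerset,
        ∏ j ∈ range (t + 1), f j (bset β j (A ∪ B)) = f t A * ∏ j ∈ range t, f j (bset β j B) := by
      intro A hA B hB
      rw [mem_powerset] at hA hB
      have e1 : bset β t (A ∪ B) = A := by
        unfold bset
        ext p
        rw [mem_filter, mem_union]
        constructor
        · rintro ⟨h | h, hp⟩
          · exact h
          · exact absurd hp (mem_filter.1 (hB h)).2
        · intro h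
          exact ⟨Or.inl h, (mem_filter.1 (hA h)).2⟩
      have e2 : ∀ j ∈ range t, bset β j (A ∪ B) = bset β j B := by
        intro j hj
        unfold bset
        ext p
        rw [mem_filter, mem_filter, mem_union]
        constructor
        · rintro ⟨h | h, hp⟩
          · have h3 := (mem_filter.1 (hA h)).2
            have h4 := mem_range.1 hj
            omega
          · exact ⟨h, hp⟩
        · rintro ⟨h, hp⟩
          exact ⟨Or.inr h, hp⟩
      rw [Finset.prod_range_succ, e1, Finset.prod_congr rfl fun j hj => by rw [e2 j hj], mul_comm]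
    rw [Finset.sum_congr rfl fun A hA => Finset.sum_congr rfl fun B hB => h1 A hA B hB]
    have h2 : ∀ B ∈ S.filter fun p => ¬ β p = t, β B < t := by
      intro p hp
      have h3 := hS p (mem_filter.1 hp).1
      have h4 := (mem_filter.1 hp).2
      omega
    rw [← Finset.sum_mul_sum, ih _ h2, mul_comm]
    congr 1
    refine Finset.prod_congr rfl fun j hj => ?_
    have e3 : bset β j (S.filter fun p => ¬ β p = t) = bset β j S := by
      unfold bset
      ext p
      rw [mem_filter, mem_filter, mem_filter]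
      have h4 := mem_range.1 hj
      constructor
      · rintro ⟨⟨h, _⟩, hp⟩
        exact ⟨h, hp⟩
      · rintro ⟨h, hp⟩
        exact ⟨⟨h, by omega⟩, hp⟩
    rw [e3]

private theorem bha_tsg_sum (k : ℕ) (hk : Even k) (U : Finset ℕ) :
    ∑ T ∈ U.powerset, tsg k T = if U = ∅ then 1 else (((U.card - 1).choose k : ℕ) : ℝ) := by
  have h1 := Finset.sum_powerset_apply_card (fun j => if j ≤ k then ((-1 : ℝ)) ^ j else 0) (x := U)
  have h0 : ∑ T ∈ U.powerset, tsg k T = ∑ T ∈ U.powerset, (if T.card ≤ k then ((-1 : ℝ)) ^ T.card else 0) := rfl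
  rw [h0, h1]
  have h2 : ∑ m ∈ range (U.card + 1), U.card.choose m • (if m ≤ k then ((-1 : ℝ)) ^ m else 0) =
      ∑ m ∈ range (k + 1), ((-1 : ℝ)) ^ m * U.card.choose m := by
    have e1 : ∑ m ∈ range (U.card + 1), U.card.choose m • (if m ≤ k then ((-1 : ℝ)) ^ m else 0) =
        ∑ m ∈ range (max (U.card + 1) (k + 1)), (if m ≤ k then ((-1 : ℝ)) ^ m * U.card.choose m else 0) := by
      symm
      rw [← Finset.sum_subset (Finset.range_subset_range.2 (le_max_left (U.card + 1) (k + 1)))]
      · refine Finset.sum_congr rfl fun m _ => ?_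
        rw [nsmul_eq_mul]
        split_ifs
        · ring
        · ring
      · intro m _ hm
        rw [mem_range, not_lt] at hm
        rw [Nat.choose_eq_zero_of_lt (by omega)]
        simp
    have e2 : ∑ m ∈ range (max (U.card + 1) (k + 1)), (if m ≤ k then ((-1 : ℝ)) ^ m * U.card.choose m else 0) =
        ∑ m ∈ range (k + 1), ((-1 : ℝ)) ^ m * U.card.choose m := by
      rw [← Finset.sum_filter]
      congr 1
      ext m
      rw [mem_filter, mem_range, mem_range]
      constructor
      · exact fun h => Nat.lt_succ_of_le h.2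
      · exact fun h => ⟨lt_of_lt_of_le h (le_max_right _ _), Nat.le_of_lt_succ h⟩
    rw [e1, e2]
  rw [h2]
  by_cases hU : U = ∅
  · rw [if_pos hU, hU, Finset.card_empty, Finset.sum_range_succ']
    have e : ∑ m ∈ range k, ((-1 : ℝ)) ^ (m + 1) * ((Nat.choose 0 (m + 1) : ℕ) : ℝ) = 0 := by
      refine Finset.sum_eq_zero fun m _ => ?_
      rw [Nat.choose_zero_succ]
      simp
    rw [e]
    simp
  · rw [if_neg hU]
    obtain ⟨n, hn⟩ : ∃ n, U.card = n + 1 :=
      Nat.exists_eq_succ_of_ne_zero (fun h => hU (Finset.card_eq_zero.1 h))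
    rw [hn, Nat.add_sub_cancel]
    have h3 := Int.alternating_sum_range_choose_eq_choose (n := n) (m := k)
    have h5 := congrArg (fun z : ℤ => (z : ℝ)) h3
    push_cast at h5
    rw [h5, hk.neg_one_pow, one_mul]

private theorem bha_tex_sum (k : ℕ) (U : Finset ℕ) :
    ∑ T ∈ U.powerset, tex k T = ((U.card.choose (k + 1) : ℕ) : ℝ) := by
  have h1 : ∑ T ∈ U.powerset, tex k T = (((U.powerset.filter fun T => T.card = k + 1).card : ℕ) : ℝ) := by
    unfold tex
    rw [Finset.sum_boole]
  rw [h1, ← Finset.powersetCard_eq_filter, Finset.card_powersetCard]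

private theorem bha_bounds (k : ℕ) (hk : Even k) (U : Finset ℕ) :
    (if U = ∅ then (1 : ℝ) else 0) ≤ ∑ T ∈ U.powerset, tsg k T ∧
    ∑ T ∈ U.powerset, tsg k T ≤ (if U = ∅ then (1 : ℝ) else 0) + ∑ T ∈ U.powerset, tex k T := by
  rw [bha_tsg_sum k hk, bha_tex_sum]
  by_cases hU : U = ∅
  · rw [if_pos hU, if_pos hU]
    exact ⟨le_rfl, le_add_of_nonneg_right (Nat.cast_nonneg _)⟩
  · rw [if_neg hU, if_neg hU, zero_add]
    refine ⟨Nat.cast_nonneg _, ?_⟩
    obtain ⟨n, hn⟩ : ∃ n, U.card = n + 1 :=
      Nat.exists_eq_succ_of_ne_zero (fun h => hU (Finset.card_eq_zero.1 h))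
    rw [hn, Nat.add_sub_cancel, Nat.choose_succ_succ]
    exact_mod_cast Nat.le_add_right _ _

private theorem bha_hooley (s : Finset ℕ) (x y E : ℕ → ℝ) (hx : ∀ j, 0 ≤ x j) (hxy : ∀ j, x j ≤ y j)
    (hy : ∀ j, y j ≤ x j + E j) :
    ∏ j ∈ s, y j - ∑ l ∈ s, E l * ∏ j ∈ s.erase l, y j ≤ ∏ j ∈ s, x j := by
  induction s using Finset.induction_on with
  | empty => simp
  | insert a s ha ih =>
    have hE : 0 ≤ E a := by linarith [hxy a, hy a]
    have hya : 0 ≤ y a := (hx a).trans (hxy a)
    have hX : 0 ≤ ∏ j ∈ s, x j := Finset.prod_nonneg fun j _ => hx j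
    have hXP : ∏ j ∈ s, x j ≤ ∏ j ∈ s, y j := Finset.prod_le_prod (fun j _ => hx j) fun j _ => hxy j
    have h1 : ∀ l ∈ s, E l * ∏ j ∈ (insert a s).erase l, y j = y a * (E l * ∏ j ∈ s.erase l, y j) := by
      intro l hl
      have hla : a ≠ l := fun h => ha (h ▸ hl)
      rw [Finset.erase_insert_of_ne hla, Finset.prod_insert (fun h => ha (Finset.mem_of_mem_erase h))]
      ring
    rw [Finset.prod_insert ha, Finset.prod_insert ha, Finset.sum_insert ha, Finset.erase_insert ha,
      Finset.sum_congr rfl h1, ← Finset.mul_sum]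
    have h2 := mul_le_mul_of_nonneg_left ih hya
    have h3 := mul_le_mul_of_nonneg_right (hy a) hX
    have h4 := mul_le_mul_of_nonneg_left hXP hE
    nlinarith

theorem hw_le (β : ℕ → ℕ) (t : ℕ) (k : ℕ → ℕ) (hk : ∀ j, Even (k j)) (U : Finset ℕ) (hU : ∀ p ∈ U, β p < t) :
    ∑ T ∈ U.powerset, hw β t k T ≤ if U = ∅ then 1 else 0 := by
  obtain ⟨x, hx⟩ : ∃ x : ℕ → ℝ, ∀ j, x j = if bset β j U = ∅ then 1 else 0 := ⟨_, fun _ => rfl⟩
  obtain ⟨y, hy⟩ : ∃ y : ℕ → ℝ, ∀ j, y j = ∑ T ∈ (bset β j U).powerset, tsg (k j) T := ⟨_, fun _ => rfl⟩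
  obtain ⟨E, hE⟩ : ∃ E : ℕ → ℝ, ∀ j, E j = ∑ T ∈ (bset β j U).powerset, tex (k j) T := ⟨_, fun _ => rfl⟩
  have h1 : ∑ T ∈ U.powerset, ∏ j ∈ range t, tsg (k j) (bset β j T) = ∏ j ∈ range t, y j := by
    rw [fac β t (fun j => tsg (k j)) U hU]
    exact Finset.prod_congr rfl fun j _ => (hy j).symm
  have h2 : ∀ l ∈ range t, ∑ T ∈ U.powerset, tex (k l) (bset β l T) *
      ∏ j ∈ (range t).erase l, tsg (k j) (bset β j T) = E l * ∏ j ∈ (range t).erase l, y j := by
    intro l hl
    have e1 : ∀ T, tex (k l) (bset β l T) * ∏ j ∈ (range t).erase l, tsg (k j) (bset β j T) =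
        ∏ j ∈ range t, (fun j => if j = l then tex (k l) else tsg (k j)) j (bset β j T) := by
      intro T
      rw [← Finset.mul_prod_erase (range t) _ hl]
      congr 1
      · simp only [if_true]
      · refine Finset.prod_congr rfl fun j hj => ?_
        simp only [if_neg (Finset.mem_erase.1 hj).1]
    rw [Finset.sum_congr rfl fun T _ => e1 T, fac β t (fun j => if j = l then tex (k l) else tsg (k j)) U hU,
      ← Finset.mul_prod_erase (range t) _ hl]
    congr 1
    · simp only [if_true]
      exact (hE l).symm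
    · refine Finset.prod_congr rfl fun j hj => ?_
      simp only [if_neg (Finset.mem_erase.1 hj).1]
      exact (hy j).symm
  have h3 : ∑ T ∈ U.powerset, hw β t k T = ∏ j ∈ range t, y j - ∑ l ∈ range t, E l * ∏ j ∈ (range t).erase l, y j := by
    unfold hw
    rw [Finset.sum_sub_distrib, h1, Finset.sum_comm, Finset.sum_congr rfl h2]
  rw [h3]
  refine (bha_hooley (range t) x y E ?_ ?_ ?_).trans ?_
  · intro j
    rw [hx]
    split_ifs <;> norm_num
  · intro j
    rw [hx, hy]
    exact (bha_bounds (k j) (hk j) _).1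
  · intro j
    rw [hx, hy, hE]
    exact (bha_bounds (k j) (hk j) _).2
  · by_cases h0 : U = ∅
    · rw [if_pos h0]
      refine le_of_eq (Finset.prod_eq_one fun j _ => ?_)
      rw [hx, if_pos]
      rw [h0]
      rfl
    · rw [if_neg h0]
      obtain ⟨p, hp⟩ := Finset.nonempty_iff_ne_empty.2 h0
      refine le_of_eq (Finset.prod_eq_zero (Finset.mem_range.2 (hU p hp)) ?_)
      rw [hx, if_neg]
      intro h4
      have h5 : p ∈ bset β (β p) U := Finset.mem_filter.2 ⟨hp, rfl⟩
      rw [h4] at h5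
      exact absurd h5 (Finset.notMem_empty p)

end Pool.Agent.LAP
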