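import Pool.Agent.LAP.Defs

/-! LAP/BHc (0.5h).  Truncated inclusion-exclusion with weights.

PLAN.  `vplus_ge`: for independent events: `∑_{T ⊆ Q} tsg k T ∏_{T} w = ∑_{U ⊆ Q} μ(U) ∑_{T ⊆ U} tsg k T` with
`μ(U) = ∏_{p ∈ U} w p ∏_{p ∈ Q \ U} (1 - w p) ≥ 0` (as `∑_{U ⊇ T} μ(U) = ∏_T w`), and `∑_{T ⊆ U} tsg k T ≥ [U = ∅]` for even `k`
(`Int.alternating_sum_range_choose_eq_choose`, compare `bl_bonf` in Pool/Agent/SWQ/BrunL.lean).
Alternatively induction on `Q` proving for all `k`: `e k := ∑_{T ⊆ Q, |T| ≤ k} (-1)^|T| ∏ w` satisfies `e k ≥ ∏ (1 - w)` for even `k` and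
`e k ≤ ∏ (1 - w)` for odd `k`: `e_{Q + p} k = e_Q k - w p * e_Q (k-1)`.
`tex_le`: `∑_{|T| = k+1} ∏_T w ≤ (∑ w)^(k+1)/(k+1)!` (`Finset.prod_powersetCard`/esymm bound: `Finset.esymm`, or induction; the
multinomial expansion of `(∑ w)^(k+1)` contains every `∏_T w` with coefficient `(k+1)!`).
`one_sub_ge`: `1 - w ≥ exp (-2w)` for `0 ≤ w ≤ 1/2` (see `one_sub_ge_exp` in Pool/Agent/SW/Mert.lean). -/

set_option autoImplicit false

namespace Pool.Agent.LAP

open Finset

private theorem bhc_step (c : ℕ → Finset ℕ → ℝ) (w : ℕ → ℝ) {p : ℕ} {Q : Finset ℕ} (hp : p ∉ Q) (k : ℕ) :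
    ∑ T ∈ (insert p Q).powerset, c k T * ∏ q ∈ T, w q =
      ∑ T ∈ Q.powerset, c k T * ∏ q ∈ T, w q +
        w p * ∑ T ∈ Q.powerset, c k (insert p T) * ∏ q ∈ T, w q := by
  rw [Finset.sum_powerset_insert hp, Finset.mul_sum]
  congr 1
  refine Finset.sum_congr rfl fun T hT => ?_
  have h1 : p ∉ T := fun h => hp (Finset.mem_powerset.1 hT h)
  rw [Finset.prod_insert h1]
  ring

private theorem bhc_both (w : ℕ → ℝ) (Q : Finset ℕ) : (∀ p ∈ Q, 0 ≤ w p) → (∀ p ∈ Q, w p ≤ 1) →
    0 ≤ ∏ p ∈ Q, (1 - w p) ∧ ∀ k : ℕ,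
      (Even k → ∏ p ∈ Q, (1 - w p) ≤ ∑ T ∈ Q.powerset, tsg k T * ∏ p ∈ T, w p) ∧
      (Odd k → ∑ T ∈ Q.powerset, tsg k T * ∏ p ∈ T, w p ≤ ∏ p ∈ Q, (1 - w p)) := by
  classical
  induction Q using Finset.induction_on with
  | empty =>
    intro _ _
    refine ⟨by simp, fun k => ?_⟩
    simp [tsg]
  | insert p Q hp ih =>
    intro h0 h1
    obtain ⟨hP, hk⟩ := ih (fun q hq => h0 q (Finset.mem_insert_of_mem hq))
      (fun q hq => h1 q (Finset.mem_insert_of_mem hq))
    have hw0 := h0 p (Finset.mem_insert_self p Q)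
    have hw1 := h1 p (Finset.mem_insert_self p Q)
    rw [Finset.prod_insert hp]
    refine ⟨mul_nonneg (by linarith) hP, fun k => ?_⟩
    rw [bhc_step tsg w hp k]
    rcases k with _ | k
    · have e1 : ∑ T ∈ Q.powerset, tsg 0 (insert p T) * ∏ q ∈ T, w q = 0 := by
        refine Finset.sum_eq_zero fun T hT => ?_
        have h2 : p ∉ T := fun h => hp (Finset.mem_powerset.1 hT h)
        simp [tsg, Finset.card_insert_of_notMem h2]
      rw [e1]
      have h3 := (hk 0).1 (by simp)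
      refine ⟨fun _ => ?_, fun h => absurd h (by decide)⟩
      nlinarith
    · have e1 : ∑ T ∈ Q.powerset, tsg (k + 1) (insert p T) * ∏ q ∈ T, w q =
          - ∑ T ∈ Q.powerset, tsg k T * ∏ q ∈ T, w q := by
        rw [← Finset.sum_neg_distrib]
        refine Finset.sum_congr rfl fun T hT => ?_
        have h2 : p ∉ T := fun h => hp (Finset.mem_powerset.1 hT h)
        have h3 : tsg (k + 1) (insert p T) = - tsg k T := by
          unfold tsg
          rw [Finset.card_insert_of_notMem h2]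
          by_cases h : T.card ≤ k
          · rw [if_pos (by omega), if_pos h, pow_succ]
            ring
          · rw [if_neg (by omega), if_neg h]
            simp
        rw [h3]
        ring
      rw [e1]
      constructor
      · intro he
        have ho : Odd k := by
          rcases Nat.even_or_odd k with h | h
          · exact absurd he (by simpa [Nat.even_add_one] using h)
          · exact h
        have h2 := (hk (k + 1)).1 he
        have h3 := (hk k).2 ho
        have h4 := mul_le_mul_of_nonneg_left h3 hw0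
        linarith
      · intro ho
        have he : Even k := by
          rcases Nat.even_or_odd k with h | h
          · exact h
          · exact absurd ho (by simpa [Nat.even_add_one] using h)
        have h2 := (hk (k + 1)).2 ho
        have h3 := (hk k).1 he
        have h4 := mul_le_mul_of_nonneg_left h3 hw0
        linarith

theorem vplus_ge (w : ℕ → ℝ) (Q : Finset ℕ) (hw0 : ∀ p ∈ Q, 0 ≤ w p) (hw1 : ∀ p ∈ Q, w p ≤ 1) (k : ℕ) (hk : Even k) :
    ∏ p ∈ Q, (1 - w p) ≤ ∑ T ∈ Q.powerset, tsg k T * ∏ p ∈ T, w p := by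
  exact ((bhc_both w Q hw0 hw1).2 k).1 hk

private theorem bhc_pow (S w : ℝ) (hS : 0 ≤ S) (hw : 0 ≤ w) (n : ℕ) :
    S ^ (n + 1) + (n + 1) * (w * S ^ n) ≤ (S + w) ^ (n + 1) := by
  induction n with
  | zero => simp
  | succ n ih =>
    have h1 : (S + w) ^ (n + 1 + 1) = (S + w) ^ (n + 1) * (S + w) := pow_succ _ _
    have h2 := mul_le_mul_of_nonneg_right ih (add_nonneg hS hw)
    rw [h1]
    refine le_trans ?_ h2
    push_cast
    have h3 : 0 ≤ w * w * S ^ n := by positivity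
    have h4 : (0 : ℝ) ≤ n := by positivity
    have h5 : 0 ≤ (n : ℝ) * (w * w * S ^ n) := mul_nonneg h4 h3
    have e1 : S ^ (n + 1 + 1) = S ^ n * S * S := by ring
    have e2 : S ^ (n + 1) = S ^ n * S := by ring
    rw [e1, e2]
    nlinarith

private theorem bhc_esym (w : ℕ → ℝ) (Q : Finset ℕ) : (∀ p ∈ Q, 0 ≤ w p) → ∀ k : ℕ,
    ∑ T ∈ Q.powerset, (if T.card = k then (1 : ℝ) else 0) * ∏ p ∈ T, w p ≤
      (∑ p ∈ Q, w p) ^ k / k.factorial := by
  classical
  induction Q using Finset.induction_on with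
  | empty =>
    intro _ k
    rcases k with _ | k
    · simp
    · simp
  | insert p Q hp ih =>
    intro h0 k
    have ih' := ih (fun q hq => h0 q (Finset.mem_insert_of_mem hq))
    have hw0 := h0 p (Finset.mem_insert_self p Q)
    have hS : 0 ≤ ∑ q ∈ Q, w q := Finset.sum_nonneg fun q hq => h0 q (Finset.mem_insert_of_mem hq)
    rw [bhc_step (fun k T => if T.card = k then (1 : ℝ) else 0) w hp k, Finset.sum_insert hp]
    rcases k with _ | k
    · have e1 : ∑ T ∈ Q.powerset, (fun (k : ℕ) (T : Finset ℕ) => if T.card = k then (1 : ℝ) else 0) 0 (insert p T) *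
          ∏ q ∈ T, w q = 0 := by
        refine Finset.sum_eq_zero fun T hT => ?_
        have h2 : p ∉ T := fun h => hp (Finset.mem_powerset.1 hT h)
        simp [Finset.card_insert_of_notMem h2]
      rw [e1]
      have h3 := ih' 0
      simp only [pow_zero] at h3 ⊢
      linarith
    · have e1 : ∑ T ∈ Q.powerset, (fun (k : ℕ) (T : Finset ℕ) => if T.card = k then (1 : ℝ) else 0) (k + 1) (insert p T) *
          ∏ q ∈ T, w q = ∑ T ∈ Q.powerset, (if T.card = k then (1 : ℝ) else 0) * ∏ p ∈ T, w p := by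
        refine Finset.sum_congr rfl fun T hT => ?_
        have h2 : p ∉ T := fun h => hp (Finset.mem_powerset.1 hT h)
        simp [Finset.card_insert_of_notMem h2]
      rw [e1]
      have h2 := ih' (k + 1)
      have h3 := mul_le_mul_of_nonneg_left (ih' k) hw0
      have h4 := bhc_pow (∑ q ∈ Q, w q) (w p) hS hw0 k
      have hf : (0 : ℝ) < (k + 1).factorial := by exact_mod_cast Nat.factorial_pos _
      have hf2 : (0 : ℝ) < k.factorial := by exact_mod_cast Nat.factorial_pos _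
      have e2 : (∑ q ∈ Q, w q) ^ (k + 1) / (k + 1).factorial + w p * ((∑ q ∈ Q, w q) ^ k / k.factorial) =
          ((∑ q ∈ Q, w q) ^ (k + 1) + (k + 1) * (w p * (∑ q ∈ Q, w q) ^ k)) / (k + 1).factorial := by
        rw [Nat.factorial_succ]
        push_cast
        field_simp
      have h5 : ((∑ q ∈ Q, w q) ^ (k + 1) + (k + 1) * (w p * (∑ q ∈ Q, w q) ^ k)) / (k + 1).factorial ≤
          (w p + ∑ q ∈ Q, w q) ^ (k + 1) / (k + 1).factorial := by
        rw [add_comm (w p)]
        exact div_le_div_of_nonneg_right h4 hf.le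
      linarith

theorem tex_le (w : ℕ → ℝ) (Q : Finset ℕ) (hw0 : ∀ p ∈ Q, 0 ≤ w p) (k : ℕ) :
    ∑ T ∈ Q.powerset, tex k T * ∏ p ∈ T, w p ≤ (∑ p ∈ Q, w p) ^ (k + 1) / (k + 1).factorial := by
  exact bhc_esym w Q hw0 (k + 1)

private theorem bhc_exp (x : ℝ) (h0 : 0 ≤ x) (h1 : x ≤ 1 / 2) :
    Real.exp (-(2 * x)) ≤ 1 - x := by
  have h2 : (0 : ℝ) < 1 - x := by linarith
  rw [← Real.le_log_iff_exp_le h2]
  have h3 := Real.one_sub_inv_le_log_of_pos h2
  have h4 : -(2 * x) ≤ 1 - (1 - x)⁻¹ := by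
    rw [le_sub_iff_add_le, ← sub_neg_eq_add]
    have h5 : (1 - x)⁻¹ ≤ 1 + 2 * x := by
      rw [inv_le_comm₀ h2 (by linarith), inv_eq_one_div, div_le_iff₀ (by linarith)]
      nlinarith
    linarith
  linarith

theorem one_sub_ge (w : ℕ → ℝ) (Q : Finset ℕ) (hw0 : ∀ p ∈ Q, 0 ≤ w p) (hw1 : ∀ p ∈ Q, w p ≤ 1 / 2) :
    Real.exp (-(2 * ∑ p ∈ Q, w p)) ≤ ∏ p ∈ Q, (1 - w p) := by
  rw [Finset.mul_sum, ← Finset.sum_neg_distrib, Real.exp_sum]
  exact Finset.prod_le_prod (fun p _ => (Real.exp_pos _).le) fun p hp => bhc_exp (w p) (hw0 p hp) (hw1 p hp)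

end Pool.Agent.LAP
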