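import Pool.Agent.LAP.BHa
import Pool.Agent.LAP.BHc
import Pool.Agent.Helper24.ResidueSieve

/-! LAP/BHb (0.8h).  The lower bound sieve of Brun and Hooley for residue classes, general form.

PLAN.  For `m` let `U m = {p ∈ P : m % p ∈ Ω p}`.  By `hw_le` `#{m : U m = ∅} ≥ ∑_m ∑_{T ⊆ U m} hw T = ∑_{T ⊆ P} hw T * N_T`,
`N_T = #{m ∈ Ioc A (A+N) : ∀ p ∈ T, m % p ∈ Ω p}`, `|N_T - N ∏_{T} |Ω p|/p| ≤ ∏_T |Ω p| ≤ ∏_T b`
(`Helper24.abs_card_residues_sub_le`).
Main term, `w p = |Ω p|/p ≤ 1/2`: by `fac` `∑_T hw T ∏_T w = ∏_j V_j - ∑_l E_l ∏_{j ≠ l} V_j`, `V_j = ∑_{T ⊆ P_j} tsg (k j) T ∏ w ≥ W_j := ∏_{P_j} (1 - w) > 0`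
(`vplus_ge`), `E_l ≤ Λ_l^(k_l+1)/(k_l+1)!` (`tex_le`), `W_l ≥ exp (-2 Λ_l)` (`one_sub_ge`).  So `E_l ≤ η_l V_l` with
`η_l = Λ_l^(k_l+1)/(k_l+1)! * exp (2 Λ_l)` and the main term is `≥ ∏ V_j (1 - ∑ η_l) ≥ (1/2) ∏ V_j ≥ (1/2) ∏_P (1 - w)`
(`∏_j ∏_{P_j} = ∏_P`: `Finset.prod_fiberwise_of_maps_to`).
Error: `∑_T |hw T| ∏_T b ≤ ∑_T (∏_j |tsg| + ∑_l |tex_l| ∏_{j≠l} |tsg|) ∏_T b = ∏ R_j + ∑_l R'_l ∏_{j ≠ l} R_j ≤ ∏_j (R_j + R'_j)` (`fac`), where
`R_j + R'_j = ∑_{T ⊆ P_j, |T| ≤ k_j + 1} b^|T| ≤ (1 + b |P_j|)^(k_j+1)` (`∑_{i ≤ n} C(m,i) b^i ≤ (1 + b m)^n`: `C(m,i) ≤ m^i`, and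
`∑_{i ≤ n} (b m)^i ≤ (1 + b m)^n`). -/

set_option autoImplicit false

namespace Pool.Agent.LAP

open Finset

private theorem bhb_prodT (β : ℕ → ℕ) (t : ℕ) (g : ℕ → ℝ) (T : Finset ℕ) (hT : ∀ p ∈ T, β p < t) :
    ∏ p ∈ T, g p = ∏ j ∈ range t, ∏ p ∈ bset β j T, g p := by
  unfold bset
  rw [Finset.prod_fiberwise_of_maps_to (fun p hp => Finset.mem_range.2 (hT p hp))]

private theorem bhb_expand (β : ℕ → ℕ) (t : ℕ) (a e : ℕ → Finset ℕ → ℝ) (g : ℕ → ℝ) (P : Finset ℕ)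
    (hP : ∀ p ∈ P, β p < t) (A E : ℕ → ℝ)
    (hA : ∀ j, A j = ∑ T ∈ (bset β j P).powerset, a j T * ∏ p ∈ T, g p)
    (hE : ∀ j, E j = ∑ T ∈ (bset β j P).powerset, e j T * ∏ p ∈ T, g p) :
    ∑ T ∈ P.powerset, (∏ j ∈ range t, a j (bset β j T) +
      ∑ l ∈ range t, e l (bset β l T) * ∏ j ∈ (range t).erase l, a j (bset β j T)) * ∏ p ∈ T, g p =
    ∏ j ∈ range t, A j + ∑ l ∈ range t, E l * ∏ j ∈ (range t).erase l, A j := by
  have h0 : ∀ T ∈ P.powerset, (∏ j ∈ range t, a j (bset β j T) +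
      ∑ l ∈ range t, e l (bset β l T) * ∏ j ∈ (range t).erase l, a j (bset β j T)) * ∏ p ∈ T, g p =
      ∏ j ∈ range t, (fun j T => a j T * ∏ p ∈ T, g p) j (bset β j T) +
      ∑ l ∈ range t, ∏ j ∈ range t,
        (fun j T => (if j = l then e l T else a j T) * ∏ p ∈ T, g p) j (bset β j T) := by
    intro T hT
    have hT' : ∀ p ∈ T, β p < t := fun p hp => hP p (Finset.mem_powerset.1 hT hp)
    rw [add_mul, Finset.sum_mul, bhb_prodT β t g T hT', ← Finset.prod_mul_distrib]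
    congr 1
    refine Finset.sum_congr rfl fun l hl => ?_
    have h1 : e l (bset β l T) * ∏ j ∈ (range t).erase l, a j (bset β j T) =
        ∏ j ∈ range t, (if j = l then e l (bset β j T) else a j (bset β j T)) := by
      rw [← Finset.mul_prod_erase (range t) _ hl]
      congr 1
      · simp only [if_true]
      · refine Finset.prod_congr rfl fun j hj => ?_
        simp only [if_neg (Finset.mem_erase.1 hj).1]
    rw [h1, ← Finset.prod_mul_distrib]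
  rw [Finset.sum_congr rfl h0, Finset.sum_add_distrib, Finset.sum_comm,
    fac β t (fun j T => a j T * ∏ p ∈ T, g p) P hP]
  congr 1
  · exact Finset.prod_congr rfl fun j _ => (hA j).symm
  · refine Finset.sum_congr rfl fun l hl => ?_
    rw [fac β t (fun j T => (if j = l then e l T else a j T) * ∏ p ∈ T, g p) P hP,
      ← Finset.mul_prod_erase (range t) _ hl]
    congr 1
    · simp only [if_true]
      exact (hE l).symm
    · refine Finset.prod_congr rfl fun j hj => ?_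
      simp only [if_neg (Finset.mem_erase.1 hj).1]
      exact (hA j).symm

private theorem bhb_prod_add (s : Finset ℕ) (A E : ℕ → ℝ) (hA : ∀ j, 0 ≤ A j) (hE : ∀ j, 0 ≤ E j) :
    ∏ j ∈ s, A j + ∑ l ∈ s, E l * ∏ j ∈ s.erase l, A j ≤ ∏ j ∈ s, (A j + E j) := by
  induction s using Finset.induction_on with
  | empty => simp
  | insert a s ha ih =>
    have h1 : ∀ l ∈ s, E l * ∏ j ∈ (insert a s).erase l, A j = A a * (E l * ∏ j ∈ s.erase l, A j) := by
      intro l hl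
      have hla : a ≠ l := fun h => ha (h ▸ hl)
      rw [Finset.erase_insert_of_ne hla, Finset.prod_insert (fun h => ha (Finset.mem_of_mem_erase h))]
      ring
    rw [Finset.prod_insert ha, Finset.prod_insert ha, Finset.sum_insert ha, Finset.erase_insert ha,
      Finset.sum_congr rfl h1, ← Finset.mul_sum]
    have h2 := mul_le_mul_of_nonneg_left ih (add_nonneg (hA a) (hE a))
    have h3 : 0 ≤ ∑ l ∈ s, E l * ∏ j ∈ s.erase l, A j :=
      Finset.sum_nonneg fun l _ => mul_nonneg (hE l) (Finset.prod_nonneg fun j _ => hA j)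
    have h4 := mul_nonneg (hE a) h3
    nlinarith

private theorem bhb_block (b k : ℕ) (Q : Finset ℕ) :
    ∑ T ∈ Q.powerset, |tsg k T| * ∏ _p ∈ T, (b : ℝ) + ∑ T ∈ Q.powerset, tex k T * ∏ _p ∈ T, (b : ℝ) ≤
      (1 + (b : ℝ) * Q.card) ^ (k + 1) := by
  rw [← Finset.sum_add_distrib]
  have h1 : ∀ T ∈ Q.powerset, |tsg k T| * ∏ _p ∈ T, (b : ℝ) + tex k T * ∏ _p ∈ T, (b : ℝ) =
      (fun i : ℕ => if i ≤ k + 1 then (b : ℝ) ^ i else 0) T.card := by
    intro T _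
    unfold tsg tex
    rw [Finset.prod_const]
    by_cases h : T.card ≤ k
    · have h2 : ¬ T.card = k + 1 := by omega
      have h3 : T.card ≤ k + 1 := by omega
      simp only [if_pos h, if_neg h2, if_pos h3, abs_pow, abs_neg, abs_one, one_pow, one_mul, zero_mul, add_zero]
    · by_cases h2 : T.card = k + 1
      · simp only [h2, if_true, le_refl, if_neg (show ¬ k + 1 ≤ k by omega), abs_zero, zero_mul, one_mul, zero_add]
      · have h3 : ¬ T.card ≤ k + 1 := by omega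
        simp only [if_neg h, if_neg h2, if_neg h3, abs_zero, zero_mul, add_zero]
  rw [Finset.sum_congr rfl h1, Finset.sum_powerset_apply_card (fun i : ℕ => if i ≤ k + 1 then (b : ℝ) ^ i else 0)]
  have hb : (0 : ℝ) ≤ b := Nat.cast_nonneg _
  have hx : (0 : ℝ) ≤ (b : ℝ) * Q.card := by positivity
  have h2 : ∑ m ∈ range (Q.card + 1), Q.card.choose m • (if m ≤ k + 1 then (b : ℝ) ^ m else 0) ≤
      ∑ m ∈ range (k + 1 + 1), ((b : ℝ) * Q.card) ^ m := by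
    have e1 : ∑ m ∈ range (Q.card + 1), Q.card.choose m • (if m ≤ k + 1 then (b : ℝ) ^ m else 0) ≤
        ∑ m ∈ range (Q.card + 1), (if m ≤ k + 1 then ((b : ℝ) * Q.card) ^ m else 0) := by
      refine Finset.sum_le_sum fun m _ => ?_
      rw [nsmul_eq_mul]
      split_ifs
      · rw [mul_pow, mul_comm]
        refine mul_le_mul_of_nonneg_left ?_ (pow_nonneg hb m)
        exact_mod_cast Nat.choose_le_pow _ _
      · simp
    refine e1.trans ?_
    rw [← Finset.sum_filter]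
    refine Finset.sum_le_sum_of_subset_of_nonneg ?_ fun i _ _ => pow_nonneg hx i
    intro i hi
    rw [Finset.mem_filter] at hi
    rw [Finset.mem_range]
    omega
  refine h2.trans ?_
  rw [add_comm (1 : ℝ), add_pow]
  refine Finset.sum_le_sum fun i hi => ?_
  rw [one_pow, mul_one]
  have h3 : (1 : ℝ) ≤ ((k + 1).choose i : ℕ) := by
    have h4 : 0 < (k + 1).choose i := Nat.choose_pos (by rw [Finset.mem_range] at hi; omega)
    exact_mod_cast h4
  exact le_mul_of_one_le_right (pow_nonneg hx i) h3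

private theorem bhb_hw_abs (β : ℕ → ℕ) (t : ℕ) (k : ℕ → ℕ) (T : Finset ℕ) :
    |hw β t k T| ≤ ∏ j ∈ range t, |tsg (k j) (bset β j T)| +
      ∑ l ∈ range t, tex (k l) (bset β l T) * ∏ j ∈ (range t).erase l, |tsg (k j) (bset β j T)| := by
  unfold hw
  refine (abs_sub _ _).trans ?_
  refine add_le_add (le_of_eq (Finset.abs_prod _ _)) ?_
  refine (Finset.abs_sum_le_sum_abs _ _).trans (le_of_eq ?_)
  refine Finset.sum_congr rfl fun l _ => ?_
  rw [abs_mul, Finset.abs_prod]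
  congr 1
  refine abs_of_nonneg ?_
  unfold tex
  split_ifs <;> norm_num

private theorem bhb_err (b : ℕ) (P : Finset ℕ) (β : ℕ → ℕ) (t : ℕ) (hβ : ∀ p ∈ P, β p < t) (k : ℕ → ℕ) :
    ∑ T ∈ P.powerset, |hw β t k T| * ∏ _p ∈ T, (b : ℝ) ≤
      ∏ j ∈ range t, (1 + (b : ℝ) * (bset β j P).card) ^ (k j + 1) := by
  obtain ⟨A, hA⟩ : ∃ A : ℕ → ℝ, ∀ j, A j = ∑ T ∈ (bset β j P).powerset, |tsg (k j) T| * ∏ _p ∈ T, (b : ℝ) :=
    ⟨_, fun _ => rfl⟩
  obtain ⟨E, hE⟩ : ∃ E : ℕ → ℝ, ∀ j, E j = ∑ T ∈ (bset β j P).powerset, tex (k j) T * ∏ _p ∈ T, (b : ℝ) :=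
    ⟨_, fun _ => rfl⟩
  have hb : ∀ T : Finset ℕ, (0 : ℝ) ≤ ∏ _p ∈ T, (b : ℝ) := fun T => Finset.prod_nonneg fun _ _ => Nat.cast_nonneg _
  have hA0 : ∀ j, 0 ≤ A j := fun j => by
    rw [hA]
    exact Finset.sum_nonneg fun T _ => mul_nonneg (abs_nonneg _) (hb T)
  have hE0 : ∀ j, 0 ≤ E j := fun j => by
    rw [hE]
    refine Finset.sum_nonneg fun T _ => mul_nonneg ?_ (hb T)
    unfold tex
    split_ifs <;> norm_num
  have h1 : ∑ T ∈ P.powerset, |hw β t k T| * ∏ _p ∈ T, (b : ℝ) ≤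
      ∑ T ∈ P.powerset, (∏ j ∈ range t, (fun j T => |tsg (k j) T|) j (bset β j T) +
      ∑ l ∈ range t, (fun j T => tex (k j) T) l (bset β l T) *
        ∏ j ∈ (range t).erase l, (fun j T => |tsg (k j) T|) j (bset β j T)) * ∏ _p ∈ T, (b : ℝ) :=
    Finset.sum_le_sum fun T _ => mul_le_mul_of_nonneg_right (bhb_hw_abs β t k T) (hb T)
  refine h1.trans ?_
  rw [bhb_expand β t (fun j T => |tsg (k j) T|) (fun j T => tex (k j) T) (fun _ => (b : ℝ)) P hβ A E hA hE]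
  refine (bhb_prod_add (range t) A E hA0 hE0).trans ?_
  refine Finset.prod_le_prod (fun j _ => add_nonneg (hA0 j) (hE0 j)) fun j _ => ?_
  rw [hA, hE]
  exact bhb_block b (k j) _

private theorem bhb_mainterm (s : Finset ℕ) (V W E η : ℕ → ℝ) (hW : ∀ j ∈ s, 0 < W j) (hVW : ∀ j ∈ s, W j ≤ V j)
    (hE : ∀ j ∈ s, E j ≤ η j * V j) (hη : ∑ j ∈ s, η j ≤ 1 / 2) :
    1 / 2 * ∏ j ∈ s, W j ≤ ∏ j ∈ s, V j + ∑ l ∈ s, (-E l) * ∏ j ∈ s.erase l, V j := by
  have hV : ∀ j ∈ s, 0 < V j := fun j hj => (hW j hj).trans_le (hVW j hj)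
  have h1 : ∑ l ∈ s, (-(η l)) * ∏ j ∈ s, V j ≤ ∑ l ∈ s, (-E l) * ∏ j ∈ s.erase l, V j := by
    refine Finset.sum_le_sum fun l hl => ?_
    rw [← Finset.mul_prod_erase s _ hl, ← mul_assoc]
    refine mul_le_mul_of_nonneg_right ?_ (Finset.prod_nonneg fun j hj => (hV j (Finset.mem_of_mem_erase hj)).le)
    have h2 := hE l hl
    linarith
  have h3 : ∏ j ∈ s, W j ≤ ∏ j ∈ s, V j := Finset.prod_le_prod (fun j hj => (hW j hj).le) hVW
  have h4 : 0 ≤ ∏ j ∈ s, V j := Finset.prod_nonneg fun j hj => (hV j hj).le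
  rw [← Finset.sum_mul, Finset.sum_neg_distrib] at h1
  nlinarith

private theorem bhb_count (P : Finset ℕ) (β : ℕ → ℕ) (t : ℕ) (hβ : ∀ p ∈ P, β p < t)
    (k : ℕ → ℕ) (hk : ∀ j, Even (k j)) (Ω : ℕ → Finset ℕ) (A N : ℕ) :
    ∑ T ∈ P.powerset, hw β t k T * (((Ioc A (A + N)).filter (fun m => ∀ p ∈ T, m % p ∈ Ω p)).card : ℝ) ≤
      (((Ioc A (A + N)).filter (fun m => ∀ p ∈ P, m % p ∉ Ω p)).card : ℝ) := by
  have h1 : (((Ioc A (A + N)).filter (fun m => ∀ p ∈ P, m % p ∉ Ω p)).card : ℝ) =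
      ∑ m ∈ Ioc A (A + N), (if (P.filter fun p => m % p ∈ Ω p) = ∅ then (1 : ℝ) else 0) := by
    rw [Finset.sum_boole]
    congr 2
    ext m
    rw [Finset.mem_filter, Finset.mem_filter, Finset.filter_eq_empty_iff]
  have h2 : ∀ T ∈ P.powerset, hw β t k T *
      (((Ioc A (A + N)).filter (fun m => ∀ p ∈ T, m % p ∈ Ω p)).card : ℝ) =
      ∑ m ∈ Ioc A (A + N), (if T ⊆ P.filter (fun p => m % p ∈ Ω p) then hw β t k T else 0) := by
    intro T hT
    rw [← Finset.sum_filter, Finset.sum_const, nsmul_eq_mul, mul_comm]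
    congr 3
    ext m
    rw [Finset.mem_filter, Finset.mem_filter]
    refine and_congr_right fun _ => ?_
    constructor
    · intro h p hp
      exact Finset.mem_filter.2 ⟨Finset.mem_powerset.1 hT hp, h p hp⟩
    · intro h p hp
      exact (Finset.mem_filter.1 (h hp)).2
  rw [Finset.sum_congr rfl h2, Finset.sum_comm, h1]
  refine Finset.sum_le_sum fun m _ => ?_
  rw [← Finset.sum_filter]
  have h3 : P.powerset.filter (fun T => T ⊆ P.filter fun p => m % p ∈ Ω p) =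
      (P.filter fun p => m % p ∈ Ω p).powerset := by
    ext T
    rw [Finset.mem_filter, Finset.mem_powerset, Finset.mem_powerset]
    exact ⟨fun h => h.2, fun h => ⟨h.trans (Finset.filter_subset _ _), h⟩⟩
  rw [h3]
  exact hw_le β t k hk _ fun p hp => hβ p (Finset.mem_filter.1 hp).1

theorem hooley_main (b : ℕ) (P : Finset ℕ) (hP : ∀ p ∈ P, p.Prime) (β : ℕ → ℕ) (t : ℕ) (hβ : ∀ p ∈ P, β p < t)
    (k : ℕ → ℕ) (hk : ∀ j, Even (k j)) (Ω : ℕ → Finset ℕ)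
    (hΩ : ∀ p ∈ P, (Ω p).card ≤ b ∧ 2 * b ≤ p ∧ ∀ r ∈ Ω p, r < p) (Λ : ℕ → ℝ)
    (hΛ : ∀ j < t, ∑ p ∈ bset β j P, (b : ℝ) / p ≤ Λ j)
    (hη : ∑ l ∈ range t, Λ l ^ (k l + 1) / ((k l + 1).factorial : ℝ) * Real.exp (2 * Λ l) ≤ 1 / 2) (A N : ℕ) :
    (N : ℝ) / 2 * ∏ p ∈ P, (1 - ((Ω p).card : ℝ) / p) -
        ∏ j ∈ range t, (1 + (b : ℝ) * (bset β j P).card) ^ (k j + 1) ≤
      (((Ioc A (A + N)).filter (fun m => ∀ p ∈ P, m % p ∉ Ω p)).card : ℝ) := by
  refine le_trans ?_ (bhb_count P β t hβ k hk Ω A N)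
  obtain ⟨w, hw'⟩ : ∃ w : ℕ → ℝ, ∀ p, w p = ((Ω p).card : ℝ) / p := ⟨_, fun _ => rfl⟩
  have hsub : ∀ j, ∀ p ∈ bset β j P, p ∈ P := fun j p hp => (Finset.mem_filter.1 hp).1
  have hw0 : ∀ p, 0 ≤ w p := fun p => by
    rw [hw']
    positivity
  have hwb : ∀ p ∈ P, w p ≤ (b : ℝ) / p := fun p hp => by
    rw [hw']
    exact div_le_div_of_nonneg_right (by exact_mod_cast (hΩ p hp).1) (Nat.cast_nonneg _)
  have hwh : ∀ p ∈ P, w p ≤ 1 / 2 := fun p hp => by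
    refine (hwb p hp).trans ?_
    have h1 : (0 : ℝ) < p := by exact_mod_cast (hP p hp).pos
    rw [div_le_iff₀ h1]
    have h2 : (2 : ℝ) * b ≤ p := by exact_mod_cast (hΩ p hp).2.1
    linarith
  -- the main term
  obtain ⟨V, hV⟩ : ∃ V : ℕ → ℝ, ∀ j, V j = ∑ T ∈ (bset β j P).powerset, tsg (k j) T * ∏ p ∈ T, w p :=
    ⟨_, fun _ => rfl⟩
  obtain ⟨E, hE⟩ : ∃ E : ℕ → ℝ, ∀ j, E j = ∑ T ∈ (bset β j P).powerset, tex (k j) T * ∏ p ∈ T, w p :=
    ⟨_, fun _ => rfl⟩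
  have hmain : 1 / 2 * ∏ p ∈ P, (1 - w p) ≤ ∑ T ∈ P.powerset, hw β t k T * ∏ p ∈ T, w p := by
    have e1 : ∑ T ∈ P.powerset, hw β t k T * ∏ p ∈ T, w p =
        ∑ T ∈ P.powerset, (∏ j ∈ range t, (fun j T => tsg (k j) T) j (bset β j T) +
        ∑ l ∈ range t, (fun j T => -tex (k j) T) l (bset β l T) *
        ∏ j ∈ (range t).erase l, (fun j T => tsg (k j) T) j (bset β j T)) * ∏ p ∈ T, w p := by
      refine Finset.sum_congr rfl fun T _ => ?_
      congr 1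
      unfold hw
      rw [sub_eq_add_neg, ← Finset.sum_neg_distrib]
      congr 1
      refine Finset.sum_congr rfl fun l _ => ?_
      rw [neg_mul]
    rw [e1, bhb_expand β t (fun j T => tsg (k j) T) (fun j T => -tex (k j) T) w P hβ V (fun j => -E j) hV
      (fun j => by
        rw [hE, ← Finset.sum_neg_distrib]
        exact Finset.sum_congr rfl fun T _ => by rw [neg_mul])]
    rw [bhb_prodT β t (fun p => 1 - w p) P hβ]
    refine bhb_mainterm (range t) V _ E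
      (fun l => Λ l ^ (k l + 1) / ((k l + 1).factorial : ℝ) * Real.exp (2 * Λ l)) ?_ ?_ ?_ hη
    · intro j _
      refine Finset.prod_pos fun p hp => ?_
      have h1 := hwh p (hsub j p hp)
      linarith
    · intro j _
      rw [hV]
      refine vplus_ge w _ (fun p _ => hw0 p) (fun p hp => ?_) (k j) (hk j)
      have h1 := hwh p (hsub j p hp)
      linarith
    · intro j hj
      have h1 : ∑ p ∈ bset β j P, w p ≤ Λ j :=
        (Finset.sum_le_sum fun p hp => hwb p (hsub j p hp)).trans (hΛ j (Finset.mem_range.1 hj))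
      have h2 : 0 ≤ ∑ p ∈ bset β j P, w p := Finset.sum_nonneg fun p _ => hw0 p
      have h3 : E j ≤ Λ j ^ (k j + 1) / ((k j + 1).factorial : ℝ) := by
        rw [hE]
        refine (tex_le w _ (fun p _ => hw0 p) (k j)).trans ?_
        exact div_le_div_of_nonneg_right (pow_le_pow_left₀ h2 h1 _) (Nat.cast_nonneg _)
      have h4 : Real.exp (-(2 * Λ j)) ≤ V j := by
        refine (Real.exp_le_exp.2 (by linarith)).trans ((one_sub_ge w (bset β j P) (fun p _ => hw0 p)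
          (fun p hp => hwh p (hsub j p hp))).trans ?_)
        rw [hV]
        refine vplus_ge w _ (fun p _ => hw0 p) (fun p hp => ?_) (k j) (hk j)
        have h1 := hwh p (hsub j p hp)
        linarith
      have h5 : 1 ≤ Real.exp (2 * Λ j) * V j := by
        have h6 := mul_le_mul_of_nonneg_left h4 (Real.exp_pos (2 * Λ j)).le
        rwa [← Real.exp_add, add_neg_cancel, Real.exp_zero] at h6
      have h7 : 0 ≤ Λ j ^ (k j + 1) / ((k j + 1).factorial : ℝ) := by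
        have h8 : 0 ≤ Λ j := h2.trans h1
        positivity
      have h9 := mul_le_mul_of_nonneg_left h5 h7
      rw [mul_one, ← mul_assoc] at h9
      exact h3.trans h9
  -- the error term
  have herr := bhb_err b P β t hβ k
  have hstep : ∀ T ∈ P.powerset, (N : ℝ) * (hw β t k T * ∏ p ∈ T, w p) - |hw β t k T| * ∏ _p ∈ T, (b : ℝ) ≤
      hw β t k T * (((Ioc A (A + N)).filter (fun m => ∀ p ∈ T, m % p ∈ Ω p)).card : ℝ) := by
    intro T hT
    have hTP := Finset.mem_powerset.1 hT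
    have h1 := Pool.Agent.Helper24.abs_card_residues_sub_le A N T (fun p hp => hP p (hTP hp)) Ω
      (fun p hp => (hΩ p (hTP hp)).2.2)
    have h2 : ∏ p ∈ T, ((Ω p).card : ℝ) ≤ ∏ _p ∈ T, (b : ℝ) :=
      Finset.prod_le_prod (fun p _ => Nat.cast_nonneg _) fun p hp => by exact_mod_cast (hΩ p (hTP hp)).1
    have h3 : ∏ p ∈ T, w p = ∏ p ∈ T, ((Ω p).card : ℝ) / p := Finset.prod_congr rfl fun p _ => hw' p
    rw [← h3] at h1
    have h4 := h1.trans h2
    have h5 := mul_le_mul_of_nonneg_left h4 (abs_nonneg (hw β t k T))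
    rw [← abs_mul] at h5
    have h6 := (abs_le.1 h5).1
    rw [mul_sub] at h6
    have e : (N : ℝ) * (hw β t k T * ∏ p ∈ T, w p) = hw β t k T * ((N : ℝ) * ∏ p ∈ T, w p) := by ring
    rw [e]
    linarith
  have hsum := Finset.sum_le_sum hstep
  rw [Finset.sum_sub_distrib, ← Finset.mul_sum] at hsum
  refine le_trans ?_ hsum
  have h10 : ∏ p ∈ P, (1 - ((Ω p).card : ℝ) / p) = ∏ p ∈ P, (1 - w p) :=
    Finset.prod_congr rfl fun p _ => by rw [hw']
  rw [h10]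
  have h11 := mul_le_mul_of_nonneg_left hmain (Nat.cast_nonneg (α := ℝ) N)
  have e : (N : ℝ) / 2 * ∏ p ∈ P, (1 - w p) = (N : ℝ) * (1 / 2 * ∏ p ∈ P, (1 - w p)) := by ring
  rw [e]
  linarith

end Pool.Agent.LAP
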