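import Pool.Agent.LAP.Defs

/-! LAP/BHd (0.5h).  The blocks `(zs z (j+1), zs z j]`.

PLAN.  `zs z 0 = z`, `zs z (j+1) = sqrt (zs z j)` (`Function.iterate_succ_apply'`) `= zs (sqrt z) j` (`Function.iterate_succ_apply`); `zs z` is antitone in `j`, and for `w ≥ 1`
the set of `j` with `w < zs z j` is `{0, ..., t-1}` with `t = zt w z ≤ z` (as `sqrt n < n` for `n ≥ 2`, `zs z z ≤ 1`).
`zb_lt`: for `w < p ≤ z`: `p ≤ zs z j ↔ j ≤ zb z p` for `j ≤ z` (antitone; `1 ≤ w < p` so `p > 1` and the set is finite, inside `[1, z]`),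
so `w < p ≤ zs z (zb z p)` and `zb z p < zt w z`.
`zb_mem`: `zs z (j+1) < p ≤ zs z j` for `j = zb z p`.
`zs_prod`: `∏_{j<t} (zs z j)^(k+2j) ≤ z^(2k+4)`, induction on `t` generalising `z, k`: with `s = sqrt z`, `s^2 ≤ z`:
`z^k * ∏_{j<t} (zs s j)^((k+2)+2j) ≤ z^k * s^(2(k+2)+4) = z^k * (s^2)^(k+4) ≤ z^(2k+4)`. -/

set_option autoImplicit false

namespace Pool.Agent.LAP

open Finset

private theorem bhd_range {Q : ℕ → Prop} [DecidablePred Q] (hQ : ∀ i j, i ≤ j → Q j → Q i)
    (n : ℕ) : ∀ j < n, (Q j ↔ j < ((range n).filter Q).card) := by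
  induction n with
  | zero => intro j hj; omega
  | succ n ih =>
    intro j hj
    by_cases hn : Q n
    · have h1 : (range (n + 1)).filter Q = range (n + 1) := by
        apply filter_true_of_mem
        intro i hi
        exact hQ i n (by have := mem_range.1 hi; omega) hn
      rw [h1, card_range]
      exact ⟨fun _ => hj, fun _ => hQ j n (by omega) hn⟩
    · have h1 : (range (n + 1)).filter Q = (range n).filter Q := by
        rw [range_add_one, filter_insert, if_neg hn]
      rw [h1]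
      have h2 : ((range n).filter Q).card ≤ n := (card_filter_le _ _).trans (card_range n).le
      rcases Nat.lt_succ_iff_lt_or_eq.1 hj with h3 | h3
      · exact ih j h3
      · rw [h3]
        exact ⟨fun h => absurd h hn, fun h => by omega⟩

private theorem bhd_icc {Q : ℕ → Prop} [DecidablePred Q] (hQ : ∀ i j, i ≤ j → Q j → Q i)
    (n : ℕ) : ∀ j, 1 ≤ j → j ≤ n → (Q j ↔ j ≤ ((Icc 1 n).filter Q).card) := by
  induction n with
  | zero => intro j h1 h2; omega
  | succ n ih =>
    intro j h0 hj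
    by_cases hn : Q (n + 1)
    · have h1 : (Icc 1 (n + 1)).filter Q = Icc 1 (n + 1) := by
        apply filter_true_of_mem
        intro i hi
        exact hQ i (n + 1) (mem_Icc.1 hi).2 hn
      rw [h1, Nat.card_Icc, Nat.add_sub_cancel]
      exact ⟨fun _ => hj, fun _ => hQ j (n + 1) hj hn⟩
    · have h1 : (Icc 1 (n + 1)).filter Q = (Icc 1 n).filter Q := by
        ext i
        simp only [mem_filter, mem_Icc]
        constructor
        · rintro ⟨⟨h2, h3⟩, h4⟩
          refine ⟨⟨h2, ?_⟩, h4⟩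
          rcases Nat.lt_or_ge i (n + 1) with h5 | h5
          · omega
          · exact absurd (hQ (n + 1) i h5 h4) hn
        · rintro ⟨⟨h2, h3⟩, h4⟩
          exact ⟨⟨h2, by omega⟩, h4⟩
      rw [h1]
      have h2 : ((Icc 1 n).filter Q).card ≤ n :=
        (card_filter_le _ _).trans (by rw [Nat.card_Icc, Nat.add_sub_cancel])
      rcases Nat.lt_or_ge j (n + 1) with h3 | h3
      · exact ih j h0 (by omega)
      · have h4 : j = n + 1 := le_antisymm hj h3
        rw [h4]
        exact ⟨fun h => absurd h hn, fun h => by omega⟩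

private theorem bhd_succ (z j : ℕ) : zs z (j + 1) = Nat.sqrt (zs z j) :=
  Function.iterate_succ_apply' Nat.sqrt j z

private theorem bhd_step (z j : ℕ) : zs z (j + 1) ≤ zs z j := by
  rw [bhd_succ]
  exact Nat.sqrt_le_self _

private theorem bhd_anti (z : ℕ) {i j : ℕ} (h : i ≤ j) : zs z j ≤ zs z i :=
  antitone_nat_of_succ_le (bhd_step z) h

private theorem bhd_bound (z j : ℕ) : zs z j ≤ max 1 (z - j) := by
  induction j with
  | zero => exact le_max_of_le_right le_rfl
  | succ j ih =>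
    rw [bhd_succ]
    rcases Nat.lt_or_ge (zs z j) 2 with h | h
    · have h1 : Nat.sqrt (zs z j) ≤ zs z j := Nat.sqrt_le_self _
      exact le_max_of_le_left (by omega)
    · have h1 : Nat.sqrt (zs z j) < zs z j := Nat.sqrt_lt_self (by omega)
      have h2 : zs z j ≤ z - j := by
        rcases le_max_iff.1 ih with h3 | h3
        · omega
        · exact h3
      exact le_max_of_le_right (by omega)

private theorem bhd_last (z : ℕ) {j : ℕ} (h : z ≤ j) : zs z j ≤ 1 := by
  have h1 := bhd_bound z j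
  have h2 : z - j = 0 := by omega
  rw [h2] at h1
  simpa using h1

private theorem bhd_zt (w z : ℕ) : ∀ j < z + 1, (w < zs z j ↔ j < zt w z) :=
  bhd_range (Q := fun j => w < zs z j) (fun _ _ h h1 => lt_of_lt_of_le h1 (bhd_anti z h)) (z + 1)

private theorem bhd_zb (z p : ℕ) : ∀ j, 1 ≤ j → j ≤ z → (p ≤ zs z j ↔ j ≤ zb z p) :=
  bhd_icc (Q := fun j => p ≤ zs z j) (fun _ _ h h1 => le_trans h1 (bhd_anti z h)) z

private theorem bhd_zb_le (z p : ℕ) : zb z p ≤ z :=
  (card_filter_le _ _).trans (by rw [Nat.card_Icc, Nat.add_sub_cancel])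

private theorem bhd_mem {z p : ℕ} (hp : 2 ≤ p) (hpz : p ≤ z) :
    zs z (zb z p + 1) < p ∧ p ≤ zs z (zb z p) := by
  constructor
  · rcases Nat.lt_or_ge (zb z p) z with h | h
    · have h1 := bhd_zb z p (zb z p + 1) (by omega) (by omega)
      by_contra h2
      have := h1.1 (not_lt.1 h2)
      omega
    · have h1 := bhd_last z (j := zb z p + 1) (by omega)
      omega
  · rcases Nat.eq_zero_or_pos (zb z p) with h | h
    · rw [h]
      exact hpz
    · exact (bhd_zb z p (zb z p) h (bhd_zb_le z p)).2 le_rfl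

theorem zb_lt {w z p : ℕ} (hw : 1 ≤ w) (hp : w < p) (hpz : p ≤ z) : zb z p < zt w z := by
  have h1 := (bhd_mem (z := z) (p := p) (by omega) hpz).2
  exact (bhd_zt w z (zb z p) (by have := bhd_zb_le z p; omega)).1 (lt_of_lt_of_le hp h1)

theorem zb_mem {z p : ℕ} (hp : 2 ≤ p) (hpz : p ≤ z) : zs z (zb z p + 1) < p ∧ p ≤ zs z (zb z p) :=
  bhd_mem hp hpz

theorem lt_zs {w z j : ℕ} (hw : 1 ≤ w) (hj : j < zt w z) : w < zs z j := by
  have h1 : zt w z ≤ z + 1 := (card_filter_le _ _).trans (card_range _).le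
  have _ := hw
  exact (bhd_zt w z j (by omega)).2 hj

theorem zs_le (z j : ℕ) : zs z j ≤ z := bhd_anti z (Nat.zero_le j)

theorem zs_succ (z j : ℕ) : zs z (j + 1) = Nat.sqrt (zs z j) := bhd_succ z j

theorem zs_prod (z k t : ℕ) (hz : 1 ≤ z) : ∏ j ∈ range t, (zs z j) ^ (k + 2 * j) ≤ z ^ (2 * k + 4) := by
  induction t generalizing z k with
  | zero => simpa using Nat.one_le_pow _ _ hz
  | succ t ih =>
    rw [prod_range_succ']
    have h1 : ∀ j, zs z (j + 1) = zs (Nat.sqrt z) j := fun j =>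
      Function.iterate_succ_apply Nat.sqrt j z
    have h2 : ∏ j ∈ range t, zs z (j + 1) ^ (k + 2 * (j + 1)) =
        ∏ j ∈ range t, zs (Nat.sqrt z) j ^ ((k + 2) + 2 * j) := by
      refine prod_congr rfl fun j _ => ?_
      rw [h1]
      congr 1
      ring
    rw [h2]
    have h3 := ih (Nat.sqrt z) (k + 2) (Nat.sqrt_pos.2 hz)
    have h4 : Nat.sqrt z ^ (2 * (k + 2) + 4) ≤ z ^ (k + 4) := by
      have h5 : 2 * (k + 2) + 4 = 2 * (k + 4) := by ring
      rw [h5, pow_mul]
      exact Nat.pow_le_pow_left (Nat.sqrt_le' z) _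
    have h6 : zs z 0 ^ (k + 2 * 0) = z ^ k := rfl
    rw [h6]
    calc (∏ j ∈ range t, zs (Nat.sqrt z) j ^ ((k + 2) + 2 * j)) * z ^ k
        ≤ z ^ (k + 4) * z ^ k := Nat.mul_le_mul_right _ (h3.trans h4)
      _ = z ^ (2 * k + 4) := by rw [← pow_add]; congr 1; ring

end Pool.Agent.LAP
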