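import Pool.Agent.LAP.Defs
import Pool.Agent.SQ.Mert
import Pool.Agent.MEN.Mer

/-! LAP/BHe.  Mertens.

`block_sum`: the sum of the reciprocals of the primes in `(sqrt n, n]` is bounded (`MEN.mert_sum`).
`prod_low`: the product of `1 - b/p` over the primes in `(w, z]` is at least a constant times
`(log z) ^ (-b)` (`SQ.mert_full`, compared with `(1 - 1/p) ^ b (1 - b² / p²)`). -/

set_option autoImplicit false

namespace Pool.Agent.LAP

open Finset

private theorem bhe_mem {a b q : ℕ} : q ∈ prs a b ↔ a < q ∧ q ≤ b ∧ q.Prime := by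
  unfold prs; rw [mem_filter, mem_Ioc, and_assoc]

private theorem bhe_small (n : ℕ) (hn : n < 16) : ∑ p ∈ prs (Nat.sqrt n) n, 1 / (p : ℝ) ≤ 16 := by
  have h1 : ∑ p ∈ prs (Nat.sqrt n) n, 1 / (p : ℝ) ≤ ∑ _p ∈ prs (Nat.sqrt n) n, (1 : ℝ) := by
    refine sum_le_sum fun p hp => ?_
    have hp1 : (1 : ℝ) ≤ p := by exact_mod_cast (bhe_mem.1 hp).2.2.one_lt.le
    rw [div_le_one (by linarith)]
    exact hp1
  have h2 : (prs (Nat.sqrt n) n).card ≤ n := by
    calc (prs (Nat.sqrt n) n).card ≤ (Ioc (Nat.sqrt n) n).card := card_filter_le _ _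
      _ = n - Nat.sqrt n := by simp
      _ ≤ n := Nat.sub_le _ _
  rw [sum_const, nsmul_eq_mul, mul_one] at h1
  have h3 : ((prs (Nat.sqrt n) n).card : ℝ) ≤ 16 := by exact_mod_cast (h2.trans hn.le)
  linarith

theorem block_sum : ∃ C : ℝ, 0 < C ∧ ∀ n : ℕ, ∑ p ∈ prs (Nat.sqrt n) n, 1 / (p : ℝ) ≤ C := by
  obtain ⟨C, hC, h⟩ := MEN.mert_sum
  refine ⟨C + 16, by linarith, fun n => ?_⟩
  rcases lt_or_ge n 16 with hn | hn
  · have := bhe_small n hn
    linarith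
  · set w := Nat.sqrt n with hw
    have hw4 : 4 ≤ w := by
      rw [hw, Nat.le_sqrt]; omega
    have hwn : w ≤ n := Nat.sqrt_le_self n
    have h1 := h w n (by omega) hwn
    have h2 : ∑ p ∈ prs w n, 1 / (p : ℝ) ≤
        C + (Real.log (Real.log n) - Real.log (Real.log w)) := by
      have := (abs_le.1 h1).2
      have h3 : ∑ p ∈ prs w n, 1 / (p : ℝ) = ∑ p ∈ Helper52.pr w n, 1 / (p : ℝ) := rfl
      linarith
    have h4 : n ≤ w ^ 4 := by
      have h5 : n < (w + 1) * (w + 1) := Nat.lt_succ_sqrt n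
      nlinarith [sq_nonneg (w : ℤ), Nat.mul_le_mul hw4 hw4]
    have hlw : 0 < Real.log w := Real.log_pos (by exact_mod_cast (by omega : 1 < w))
    have hn0 : (0 : ℝ) < n := by exact_mod_cast (by omega : 0 < n)
    have h6 : Real.log n ≤ 4 * Real.log w := by
      calc Real.log n ≤ Real.log ((w : ℝ) ^ 4) := Real.log_le_log hn0 (by exact_mod_cast h4)
        _ = 4 * Real.log w := by rw [Real.log_pow]; norm_num
    have hln : 0 < Real.log n := Real.log_pos (by exact_mod_cast (by omega : 1 < n))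
    have h7 : Real.log (Real.log n) ≤ Real.log 4 + Real.log (Real.log w) := by
      rw [← Real.log_mul (by norm_num) hlw.ne']
      exact Real.log_le_log hln h6
    have h8 : Real.log 4 ≤ 4 - 1 := Real.log_le_sub_one_of_pos (by norm_num)
    linarith

private theorem bhe_factor (b p : ℕ) (hp : 1 ≤ p) (hbp : b ≤ p) :
    (1 - 1 / (p : ℝ)) ^ b * (1 - (b : ℝ) ^ 2 / p ^ 2) ≤ 1 - (b : ℝ) / p := by
  have hp0 : (0 : ℝ) < p := by exact_mod_cast hp
  have hp1 : (1 : ℝ) ≤ p := by exact_mod_cast hp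
  have h1 : (1 - 1 / (p : ℝ)) ^ b ≤ Real.exp (-((b : ℝ) / p)) := by
    have h2 : 1 - 1 / (p : ℝ) ≤ Real.exp (-(1 / (p : ℝ))) := by
      have := Real.add_one_le_exp (-(1 / (p : ℝ)))
      linarith
    have h3 : 0 ≤ 1 - 1 / (p : ℝ) := by
      rw [sub_nonneg, div_le_one hp0]; exact hp1
    calc (1 - 1 / (p : ℝ)) ^ b ≤ Real.exp (-(1 / (p : ℝ))) ^ b := pow_le_pow_left₀ h3 h2 b
      _ = Real.exp (-((b : ℝ) / p)) := by
        rw [← Real.exp_nat_mul]; congr 1; ring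
  have h4 : Real.exp (-((b : ℝ) / p)) * (1 + (b : ℝ) / p) ≤ 1 := by
    have h5 : 1 + (b : ℝ) / p ≤ Real.exp ((b : ℝ) / p) := by
      have := Real.add_one_le_exp ((b : ℝ) / p)
      linarith
    calc Real.exp (-((b : ℝ) / p)) * (1 + (b : ℝ) / p)
        ≤ Real.exp (-((b : ℝ) / p)) * Real.exp ((b : ℝ) / p) :=
          mul_le_mul_of_nonneg_left h5 (Real.exp_pos _).le
      _ = 1 := by rw [← Real.exp_add]; simp
  have hb0 : 0 ≤ (b : ℝ) / p := by positivity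
  have h6 : (1 - 1 / (p : ℝ)) ^ b * (1 + (b : ℝ) / p) ≤ 1 :=
    (mul_le_mul_of_nonneg_right h1 (by linarith)).trans h4
  have h7 : 0 ≤ 1 - (b : ℝ) / p := by
    rw [sub_nonneg, div_le_one hp0]; exact_mod_cast hbp
  have h8 : (1 - (b : ℝ) ^ 2 / p ^ 2) = (1 + (b : ℝ) / p) * (1 - (b : ℝ) / p) := by
    field_simp; ring
  rw [h8, ← mul_assoc]
  calc (1 - 1 / (p : ℝ)) ^ b * (1 + (b : ℝ) / p) * (1 - (b : ℝ) / p)
      ≤ 1 * (1 - (b : ℝ) / p) := mul_le_mul_of_nonneg_right h6 h7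
    _ = 1 - (b : ℝ) / p := one_mul _

private theorem bhe_succ (w z : ℕ) (h : w ≤ z) :
    prs w (z + 1) = if (z + 1).Prime then insert (z + 1) (prs w z) else prs w z := by
  ext q
  split_ifs with hz
  · rw [mem_insert, bhe_mem, bhe_mem]
    constructor
    · rintro ⟨h1, h2, h3⟩
      rcases Nat.lt_or_ge z q with h4 | h4
      · left; omega
      · right; exact ⟨h1, h4, h3⟩
    · rintro (rfl | ⟨h1, h2, h3⟩)
      · exact ⟨by omega, le_rfl, hz⟩
      · exact ⟨h1, by omega, h3⟩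
  · rw [bhe_mem, bhe_mem]
    constructor
    · rintro ⟨h1, h2, h3⟩
      rcases Nat.lt_or_ge z q with h4 | h4
      · exact absurd (by rwa [show z + 1 = q by omega]) hz
      · exact ⟨h1, h4, h3⟩
    · rintro ⟨h1, h2, h3⟩
      exact ⟨h1, by omega, h3⟩

private theorem bhe_tail (b w z : ℕ) (hw : 1 ≤ w) (hbw : b ≤ w) (h : w ≤ z) :
    1 - (b : ℝ) ^ 2 * (1 / w - 1 / z) ≤ ∏ p ∈ prs w z, (1 - (b : ℝ) ^ 2 / (p : ℝ) ^ 2) := by
  induction z, h using Nat.le_induction with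
  | base => simp [prs]
  | succ z hz ih =>
    have hw0 : (0 : ℝ) < w := by exact_mod_cast hw
    have hz0 : (0 : ℝ) < z := by exact_mod_cast (hw.trans hz)
    have hz1 : (0 : ℝ) < (z : ℝ) + 1 := by linarith
    have hstep : 1 / ((z : ℝ) + 1) ^ 2 ≤ 1 / z - 1 / ((z : ℝ) + 1) := by
      have : 1 / (z : ℝ) - 1 / ((z : ℝ) + 1) = 1 / (z * (z + 1)) := by
        field_simp; ring
      rw [this]
      apply one_div_le_one_div_of_le (by positivity)
      nlinarith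
    have hb2 : 0 ≤ (b : ℝ) ^ 2 := by positivity
    have hmono : (b : ℝ) ^ 2 * (1 / ((z : ℝ) + 1) ^ 2) ≤
        (b : ℝ) ^ 2 * (1 / z - 1 / ((z : ℝ) + 1)) := mul_le_mul_of_nonneg_left hstep hb2
    have hpos2 : 0 ≤ (b : ℝ) ^ 2 * (1 / ((z : ℝ) + 1) ^ 2) := by positivity
    rw [bhe_succ w z hz]
    split_ifs with hp
    · rw [prod_insert (by rw [bhe_mem]; omega)]
      push_cast
      set P := ∏ p ∈ prs w z, (1 - (b : ℝ) ^ 2 / (p : ℝ) ^ 2) with hP
      have hf1 : 0 ≤ 1 - (b : ℝ) ^ 2 / ((z : ℝ) + 1) ^ 2 := by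
        rw [sub_nonneg, div_le_one (by positivity)]
        have : (b : ℝ) ≤ z + 1 := by exact_mod_cast (by omega : b ≤ z + 1)
        exact pow_le_pow_left₀ (by positivity) this 2
      have hP1 : P ≤ 1 := by
        refine prod_le_one (fun p hp => ?_) (fun p hp => ?_)
        · have hp' := bhe_mem.1 hp
          rw [sub_nonneg, div_le_one (by have := hp'.2.2.pos; positivity)]
          have : (b : ℝ) ≤ p := by exact_mod_cast (by omega : b ≤ p)
          exact pow_le_pow_left₀ (by positivity) this 2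
        · have : 0 ≤ (b : ℝ) ^ 2 / (p : ℝ) ^ 2 := by positivity
          linarith
      have e1 : (b : ℝ) ^ 2 / ((z : ℝ) + 1) ^ 2 = (b : ℝ) ^ 2 * (1 / ((z : ℝ) + 1) ^ 2) := by ring
      rw [e1]
      nlinarith
    · push_cast
      linarith

private theorem bhe_mert : ∃ C : ℝ, 1 ≤ C ∧ ∀ w z : ℕ, 2 ≤ z →
    1 / (C * Real.log z) ≤ ∏ p ∈ prs w z, (1 - 1 / (p : ℝ)) := by
  obtain ⟨C, hC, h⟩ := SQ.mert_full
  refine ⟨C, hC, fun w z hz => ?_⟩
  have h1 := (h z hz).1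
  have hpos : ∀ p : ℕ, p.Prime → 0 < 1 - 1 / (p : ℝ) := by
    intro p hp
    rw [sub_pos, div_lt_one (by exact_mod_cast hp.pos)]
    exact_mod_cast hp.one_lt
  have h2 : ∏ q ∈ prs w z, (1 - 1 / (q : ℝ))⁻¹ ≤ ∏ q ∈ Helper52.pr 0 z, (1 - 1 / (q : ℝ))⁻¹ := by
    have hsub : prs w z ⊆ Helper52.pr 0 z := by
      intro q hq
      rw [Helper52.mem_pr]
      have := bhe_mem.1 hq
      exact ⟨by omega, this.2.1, this.2.2⟩
    rw [← prod_sdiff hsub]
    refine le_mul_of_one_le_left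
      (prod_nonneg fun q hq => inv_nonneg.2 (hpos q (bhe_mem.1 hq).2.2).le) ?_
    have h0 : ∏ q ∈ Helper52.pr 0 z \ prs w z, (1 : ℝ) ≤
        ∏ q ∈ Helper52.pr 0 z \ prs w z, (1 - 1 / (q : ℝ))⁻¹ := by
      refine prod_le_prod (fun _ _ => zero_le_one) fun q hq => ?_
      have hq' := (Helper52.mem_pr.1 (mem_sdiff.1 hq).1).2.2
      rw [one_le_inv₀ (hpos q hq')]
      have : 0 ≤ 1 / (q : ℝ) := by positivity
      linarith
    rwa [prod_const_one] at h0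
  have h3 : 0 < ∏ q ∈ prs w z, (1 - 1 / (q : ℝ)) :=
    prod_pos fun q hq => hpos q (bhe_mem.1 hq).2.2
  rw [prod_inv_distrib] at h2
  have h4 : (∏ q ∈ prs w z, (1 - 1 / (q : ℝ)))⁻¹ ≤ C * Real.log z := h2.trans h1
  rw [one_div]
  exact inv_le_of_inv_le₀ h3 h4

theorem prod_low (b : ℕ) : ∃ (w1 : ℕ) (c : ℝ), 2 ≤ w1 ∧ 0 < c ∧ ∀ w z : ℕ, w1 ≤ w → w ≤ z →
    c / Real.log z ^ b ≤ ∏ p ∈ prs w z, (1 - (b : ℝ) / p) := by
  obtain ⟨C, hC, h⟩ := bhe_mert
  refine ⟨4 * b ^ 2 + 4, 1 / (2 * C ^ b), by omega, by positivity, fun w z hw hz => ?_⟩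
  have hb : b ≤ w := by nlinarith
  have hw1 : 1 ≤ w := by omega
  have hw0 : (0 : ℝ) < w := by exact_mod_cast hw1
  have hlz : 0 < Real.log z := Real.log_pos (by exact_mod_cast (by omega : 1 < z))
  have h1 := h w z (by omega)
  have h2 := bhe_tail b w z hw1 hb hz
  have h3 : (1 : ℝ) / 2 ≤ ∏ p ∈ prs w z, (1 - (b : ℝ) ^ 2 / (p : ℝ) ^ 2) := by
    refine le_trans ?_ h2
    have hz0 : (0 : ℝ) ≤ 1 / (z : ℝ) := by positivity
    have h4 : (b : ℝ) ^ 2 * (1 / w) ≤ 1 / 2 := by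
      rw [mul_one_div, div_le_iff₀ hw0]
      have : (4 : ℝ) * (b : ℝ) ^ 2 + 4 ≤ w := by exact_mod_cast hw
      nlinarith [sq_nonneg (b : ℝ)]
    have h5 : 0 ≤ (b : ℝ) ^ 2 * (1 / (z : ℝ)) := by positivity
    nlinarith
  have hp1 : ∏ p ∈ prs w z, ((1 - 1 / (p : ℝ)) ^ b * (1 - (b : ℝ) ^ 2 / (p : ℝ) ^ 2)) ≤
      ∏ p ∈ prs w z, (1 - (b : ℝ) / p) := by
    refine prod_le_prod (fun p hp => ?_) (fun p hp => ?_)
    · have hp' := bhe_mem.1 hp
      have hp1 : (1 : ℝ) ≤ p := by exact_mod_cast hp'.2.2.one_lt.le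
      refine mul_nonneg (pow_nonneg ?_ _) ?_
      · rw [sub_nonneg, div_le_one (by linarith)]; exact hp1
      · rw [sub_nonneg, div_le_one (by positivity)]
        have : (b : ℝ) ≤ p := by exact_mod_cast (by omega : b ≤ p)
        exact pow_le_pow_left₀ (by positivity) this 2
    · have hp' := bhe_mem.1 hp
      exact bhe_factor b p hp'.2.2.one_lt.le (by omega)
  rw [prod_mul_distrib, prod_pow] at hp1
  refine le_trans ?_ hp1
  have h6 : (1 / (C * Real.log z)) ^ b ≤ (∏ p ∈ prs w z, (1 - 1 / (p : ℝ))) ^ b :=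
    pow_le_pow_left₀ (by positivity) h1 b
  have h7 : 1 / (2 * C ^ b) / Real.log z ^ b = (1 / (C * Real.log z)) ^ b * (1 / 2) := by
    rw [div_pow, one_pow, mul_pow]; field_simp
  rw [h7]
  exact mul_le_mul h6 h3 (by norm_num) (pow_nonneg (le_trans (by positivity) h1) _)

end Pool.Agent.LAP
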