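import Pool.Agent.LAP.BHb
import Pool.Agent.LAP.BHd
import Pool.Agent.LAP.BHe

/-! LAP/BHf.  The lower bound sieve of dimension `b` with sifting level `z ≤ N^(1/s)`.

`C0` from `block_sum`, `Λ = b * C0`, `k0` even with `∑_{l<t} Λ^(k0+2l+1)/(k0+2l+1)! exp (2Λ) ≤ 1/2` for all `t`,
`k l = k0 + 2 l`, `s = 4 * k0 + 13`, `P = prs w0 z`, `β = zb z`, `t = zt w0 z`, and `hooley_main`. -/

set_option autoImplicit false

namespace Pool.Agent.LAP

open Finset Filter Asymptotics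

private theorem bhf_k0 (L : ℝ) (hL : 0 ≤ L) : ∃ k0 : ℕ, Even k0 ∧ ∀ t : ℕ,
    ∑ l ∈ range t, L ^ (k0 + 2 * l + 1) / ((k0 + 2 * l + 1).factorial : ℝ) * Real.exp (2 * L) ≤ 1 / 2 := by
  have h1 : Tendsto (fun n : ℕ => (2 * L) ^ n / (n.factorial : ℝ)) atTop (nhds 0) :=
    FloorSemiring.tendsto_pow_div_factorial_atTop (2 * L)
  have hE : 0 < Real.exp (-(2 * L)) / 4 := by positivity
  obtain ⟨K, hK⟩ := eventually_atTop.1 (h1.eventually_lt_const hE)
  refine ⟨2 * K, even_two_mul K, fun t => ?_⟩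
  have h2 : ∀ l ∈ range t, L ^ (2 * K + 2 * l + 1) / ((2 * K + 2 * l + 1).factorial : ℝ) *
      Real.exp (2 * L) ≤ 1 / 4 * (1 / (2 : ℝ)) ^ l := by
    intro l _
    set n := 2 * K + 2 * l + 1 with hn
    have h3 := (hK n (by omega)).le
    have h4 : L ^ n / (n.factorial : ℝ) = (2 * L) ^ n / (n.factorial : ℝ) * (1 / 2) ^ n := by
      rw [mul_pow, one_div, inv_pow]
      field_simp
    have h5 : (1 / (2 : ℝ)) ^ n ≤ (1 / (2 : ℝ)) ^ l :=
      pow_le_pow_of_le_one (by norm_num) (by norm_num) (by omega)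
    have h6 : 0 ≤ (2 * L) ^ n / (n.factorial : ℝ) := by positivity
    calc L ^ n / (n.factorial : ℝ) * Real.exp (2 * L)
        = (2 * L) ^ n / (n.factorial : ℝ) * Real.exp (2 * L) * (1 / 2) ^ n := by rw [h4]; ring
      _ ≤ (Real.exp (-(2 * L)) / 4) * Real.exp (2 * L) * (1 / 2) ^ n := by
        refine mul_le_mul_of_nonneg_right (mul_le_mul_of_nonneg_right h3 (Real.exp_pos _).le) (by positivity)
      _ = 1 / 4 * (1 / 2) ^ n := by
        rw [div_mul_eq_mul_div, ← Real.exp_add]; simp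
      _ ≤ 1 / 4 * (1 / (2 : ℝ)) ^ l := mul_le_mul_of_nonneg_left h5 (by norm_num)
  calc _ ≤ ∑ l ∈ range t, 1 / 4 * (1 / (2 : ℝ)) ^ l := sum_le_sum h2
    _ = 1 / 4 * ∑ l ∈ range t, (1 / (2 : ℝ)) ^ l := by rw [mul_sum]
    _ ≤ 1 / 4 * 2 := mul_le_mul_of_nonneg_left (sum_geometric_two_le t) (by norm_num)
    _ = 1 / 2 := by norm_num

private theorem bhf_log (b : ℕ) (c : ℝ) (hc : 0 < c) : ∃ Z : ℕ, ∀ z : ℕ, Z ≤ z →
    4 * Real.log z ^ b ≤ c * z := by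
  have h1 : (fun x : ℝ => Real.log x ^ b) =o[atTop] (fun x : ℝ => x) :=
    Real.isLittleO_pow_log_id_atTop
  have h2 := (h1.def (show 0 < c / 4 by positivity)).natCast_atTop
  obtain ⟨Z, hZ⟩ := eventually_atTop.1 h2
  refine ⟨Z, fun z hz => ?_⟩
  have h3 := hZ z hz
  rw [Real.norm_eq_abs, Real.norm_eq_abs, abs_of_nonneg (Nat.cast_nonneg z : (0 : ℝ) ≤ (z : ℝ))] at h3
  have h4 := (le_abs_self (Real.log (z : ℝ) ^ b)).trans h3
  linarith

private theorem bhf_mem {a b q : ℕ} : q ∈ prs a b ↔ a < q ∧ q ≤ b ∧ q.Prime := by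
  unfold prs; rw [mem_filter, mem_Ioc, and_assoc]

private theorem bhf_sub (w z j : ℕ) (hw : 1 ≤ w) :
    bset (zb z) j (prs w z) ⊆ prs (Nat.sqrt (zs z j)) (zs z j) := by
  intro p hp
  unfold bset at hp
  rw [mem_filter] at hp
  have h1 := bhf_mem.1 hp.1
  have h2 := zb_mem (z := z) (p := p) (by omega) h1.2.1
  rw [hp.2, zs_succ] at h2
  exact bhf_mem.2 ⟨h2.1, h2.2, h1.2.2⟩

theorem lower_sieve (b : ℕ) : ∃ (w0 s : ℕ) (c : ℝ), 2 * b + 2 ≤ w0 ∧ 1 ≤ s ∧ 0 < c ∧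
    ∀ (z N A : ℕ) (Ω : ℕ → Finset ℕ), w0 ≤ z → z ^ s ≤ N →
      (∀ p ∈ prs w0 z, (Ω p).card ≤ b ∧ ∀ r ∈ Ω p, r < p) →
      c * N / Real.log z ^ b ≤ (((Ioc A (A + N)).filter (fun m => ∀ p ∈ prs w0 z, m % p ∉ Ω p)).card : ℝ) := by
  obtain ⟨C0, hC0, hblock⟩ := block_sum
  obtain ⟨w1, c1, hw1, hc1, hlow⟩ := prod_low b
  obtain ⟨Z, hZ⟩ := bhf_log b c1 hc1
  have hL : 0 ≤ (b : ℝ) * C0 := by positivity
  obtain ⟨k0, hk0, hsum⟩ := bhf_k0 ((b : ℝ) * C0) hL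
  refine ⟨max (max w1 (2 * b + 2)) Z, 4 * k0 + 13, c1 / 4,
    (le_max_right _ _).trans (le_max_left _ _), by omega, by positivity, ?_⟩
  set w0 := max (max w1 (2 * b + 2)) Z with hw0
  have hw0a : w1 ≤ w0 := (le_max_left _ _).trans (le_max_left _ _)
  have hw0b : 2 * b + 2 ≤ w0 := (le_max_right _ _).trans (le_max_left _ _)
  have hw0c : Z ≤ w0 := le_max_right _ _
  intro z N A Ω hz hN hΩ
  have hw01 : 1 ≤ w0 := by omega
  have hz1 : 1 < z := by omega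
  have hlz : 0 < Real.log z := Real.log_pos (by exact_mod_cast hz1)
  have hz0 : (0 : ℝ) < z := by exact_mod_cast (by omega : 0 < z)
  have hmain := hooley_main b (prs w0 z) (fun p hp => (bhf_mem.1 hp).2.2) (zb z) (zt w0 z)
    (fun p hp => zb_lt hw01 (bhf_mem.1 hp).1 (bhf_mem.1 hp).2.1)
    (fun l => k0 + 2 * l) (fun j => hk0.add (even_two_mul j)) Ω
    (fun p hp => ⟨(hΩ p hp).1, by have := (bhf_mem.1 hp).1; omega, (hΩ p hp).2⟩)
    (fun _ => (b : ℝ) * C0)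
    (by
      intro j _
      have h1 : ∑ p ∈ bset (zb z) j (prs w0 z), (b : ℝ) / p ≤
          ∑ p ∈ prs (Nat.sqrt (zs z j)) (zs z j), (b : ℝ) / p :=
        sum_le_sum_of_subset_of_nonneg (bhf_sub w0 z j hw01) (fun _ _ _ => by positivity)
      refine h1.trans ?_
      have h2 : ∑ p ∈ prs (Nat.sqrt (zs z j)) (zs z j), (b : ℝ) / p =
          b * ∑ p ∈ prs (Nat.sqrt (zs z j)) (zs z j), 1 / (p : ℝ) := by
        rw [mul_sum]
        refine sum_congr rfl fun p _ => ?_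
        ring
      rw [h2]
      exact mul_le_mul_of_nonneg_left (hblock _) (Nat.cast_nonneg b))
    (hsum (zt w0 z)) A N
  refine le_trans ?_ hmain
  -- the error term
  have herr : ∏ j ∈ range (zt w0 z), (1 + (b : ℝ) * (bset (zb z) j (prs w0 z)).card) ^ (k0 + 2 * j + 1) ≤
      (N : ℝ) / z := by
    have h1 : ∀ j ∈ range (zt w0 z), (1 + (b : ℝ) * (bset (zb z) j (prs w0 z)).card) ^ (k0 + 2 * j + 1) ≤
        (((zs z j : ℕ) : ℝ) ^ (k0 + 1 + 2 * j)) ^ 2 := by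
      intro j hj
      have h2 : w0 < zs z j := lt_zs hw01 (mem_range.1 hj)
      have h3 : (bset (zb z) j (prs w0 z)).card ≤ zs z j := by
        calc (bset (zb z) j (prs w0 z)).card ≤ (prs (Nat.sqrt (zs z j)) (zs z j)).card :=
              card_le_card (bhf_sub w0 z j hw01)
          _ ≤ (Ioc (Nat.sqrt (zs z j)) (zs z j)).card := card_filter_le _ _
          _ ≤ zs z j := by rw [Nat.card_Ioc]; exact Nat.sub_le _ _
      have h4 : 1 + b * (bset (zb z) j (prs w0 z)).card ≤ (zs z j) ^ 2 := by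
        have h5 : b * (bset (zb z) j (prs w0 z)).card ≤ b * zs z j := Nat.mul_le_mul_left _ h3
        have h6 : (b + 1) * zs z j ≤ zs z j * zs z j := Nat.mul_le_mul_right _ (by omega)
        rw [pow_two]
        nlinarith
      have h5 : 1 + (b : ℝ) * (bset (zb z) j (prs w0 z)).card ≤ ((zs z j : ℕ) : ℝ) ^ 2 := by
        exact_mod_cast h4
      calc (1 + (b : ℝ) * (bset (zb z) j (prs w0 z)).card) ^ (k0 + 2 * j + 1)
          ≤ (((zs z j : ℕ) : ℝ) ^ 2) ^ (k0 + 2 * j + 1) := pow_le_pow_left₀ (by positivity) h5 _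
        _ = (((zs z j : ℕ) : ℝ) ^ (k0 + 1 + 2 * j)) ^ 2 := by
          rw [← pow_mul, ← pow_mul]; congr 1; ring
    have h2 := prod_le_prod (fun j _ => by positivity) h1
    refine h2.trans ?_
    rw [prod_pow]
    have h3 := zs_prod z (k0 + 1) (zt w0 z) (by omega)
    have h4 : (∏ j ∈ range (zt w0 z), ((zs z j : ℕ) : ℝ) ^ (k0 + 1 + 2 * j)) ≤
        (z : ℝ) ^ (2 * (k0 + 1) + 4) := by exact_mod_cast h3
    have h5 : (∏ j ∈ range (zt w0 z), ((zs z j : ℕ) : ℝ) ^ (k0 + 1 + 2 * j)) ^ 2 ≤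
        ((z : ℝ) ^ (2 * (k0 + 1) + 4)) ^ 2 := pow_le_pow_left₀ (by positivity) h4 2
    refine h5.trans ?_
    rw [le_div_iff₀ hz0]
    have h6 : ((z : ℝ) ^ (2 * (k0 + 1) + 4)) ^ 2 * z = (z : ℝ) ^ (4 * k0 + 13) := by
      rw [← pow_mul, ← pow_succ]; congr 1; ring
    rw [h6]
    exact_mod_cast hN
  -- the main term
  have hprod : c1 / Real.log z ^ b ≤ ∏ p ∈ prs w0 z, (1 - ((Ω p).card : ℝ) / p) := by
    refine (hlow w0 z hw0a hz).trans ?_
    refine prod_le_prod (fun p hp => ?_) (fun p hp => ?_)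
    · have h1 := bhf_mem.1 hp
      have h2 : (0 : ℝ) < p := by exact_mod_cast h1.2.2.pos
      rw [sub_nonneg, div_le_one h2]
      exact_mod_cast (by omega : b ≤ p)
    · have h1 := bhf_mem.1 hp
      have h2 : (0 : ℝ) < p := by exact_mod_cast h1.2.2.pos
      have h3 : ((Ω p).card : ℝ) ≤ b := by exact_mod_cast (hΩ p hp).1
      have h4 : ((Ω p).card : ℝ) / p ≤ b / p := div_le_div_of_nonneg_right h3 h2.le
      linarith
  have hlb : 0 < Real.log z ^ b := pow_pos hlz b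
  have hz2 : 1 / (z : ℝ) ≤ c1 / (4 * Real.log z ^ b) := by
    rw [div_le_div_iff₀ hz0 (by positivity)]
    have := hZ z (hw0c.trans hz)
    linarith
  have hN0 : (0 : ℝ) ≤ N := Nat.cast_nonneg N
  have e1 : (N : ℝ) / 2 * (c1 / Real.log z ^ b) ≤
      (N : ℝ) / 2 * ∏ p ∈ prs w0 z, (1 - ((Ω p).card : ℝ) / p) :=
    mul_le_mul_of_nonneg_left hprod (by positivity)
  have e2 : (N : ℝ) / z ≤ N * (c1 / (4 * Real.log z ^ b)) := by
    rw [div_eq_mul_one_div]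
    exact mul_le_mul_of_nonneg_left hz2 hN0
  have e3 : c1 / 4 * N / Real.log z ^ b =
      (N : ℝ) / 2 * (c1 / Real.log z ^ b) - N * (c1 / (4 * Real.log z ^ b)) := by
    field_simp
    ring
  rw [e3]
  linarith

end Pool.Agent.LAP
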