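import Mathlib
import Pool.Agent.Helper27.WalkDefs

/-! LAP/Stmt.  Almost primes on `(i, j)`-walks (MP_d44763_nt).

`Rough δ m`: `m ≥ 2` and every prime factor `p` of `m` satisfies `p > m ^ δ`.
`hits δ A x`: the number of indices `n` with `A n ≤ x` and `Rough δ (A n)`.
`expo i j = j / gcd(i, j)`. -/

set_option autoImplicit false

namespace Pool.Agent.LAP

/-- `m ≥ 2` and every prime factor of `m` is larger than `m ^ δ`. -/
def Rough (δ : ℝ) (m : ℤ) : Prop :=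
  2 ≤ m ∧ ∀ p : ℕ, p.Prime → (p : ℤ) ∣ m → (m : ℝ) ^ δ < p

/-- the number of indices `n` for which `A n ≤ x` and `A n` is `δ`-rough -/
noncomputable def hits (δ : ℝ) (A : ℕ → ℤ) (x : ℝ) : ℕ :=
  {n : ℕ | (A n : ℝ) ≤ x ∧ Rough δ (A n)}.ncard

/-- the exponent `j / gcd(i, j)` -/
def expo (i j : ℤ) : ℕ := (j / (Int.gcd i j : ℤ)).toNat

/-- `i = 2 ^ u` with `u ≥ 1` and `j / i` is one of `2, 4, 8, 16, 256` -/
def Listed (i j : ℤ) : Prop :=
  ∃ u : ℕ, 1 ≤ u ∧ i = 2 ^ u ∧ (j = 2 * i ∨ j = 4 * i ∨ j = 8 * i ∨ j = 16 * i ∨ j = 256 * i)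

end Pool.Agent.LAP
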