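import Mathlib
import Pool.Agent.LAP.Stmt

/-! LAP/Defs.  Definitions for the sieve. -/

set_option autoImplicit false

namespace Pool.Agent.LAP

/-! ### The sieve of Brun and Hooley: blocks and weights -/

/-- the elements of `T` in the block `j` (`β` is the block function) -/
def bset (β : ℕ → ℕ) (j : ℕ) (T : Finset ℕ) : Finset ℕ := T.filter (fun p => β p = j)

/-- truncated sign -/
noncomputable def tsg (k : ℕ) (T : Finset ℕ) : ℝ := if T.card ≤ k then (-1) ^ T.card else 0

/-- indicator of `|T| = k + 1` -/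
noncomputable def tex (k : ℕ) (T : Finset ℕ) : ℝ := if T.card = k + 1 then 1 else 0

/-- the lower bound weight of Brun-Hooley: `∏ tsg - ∑_l tex_l ∏_{j ≠ l} tsg` -/
noncomputable def hw (β : ℕ → ℕ) (t : ℕ) (k : ℕ → ℕ) (T : Finset ℕ) : ℝ :=
  ∏ j ∈ Finset.range t, tsg (k j) (bset β j T) -
    ∑ l ∈ Finset.range t, tex (k l) (bset β l T) *
      ∏ j ∈ (Finset.range t).erase l, tsg (k j) (bset β j T)

/-- `zs z j`: the `j`-th iterated integer square root of `z` -/
def zs (z j : ℕ) : ℕ := Nat.sqrt^[j] z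

/-- the block of `p`: the number of `j ∈ [1, z]` with `p ≤ zs z j` -/
def zb (z p : ℕ) : ℕ := ((Finset.Icc 1 z).filter (fun j => p ≤ zs z j)).card

/-- the number of blocks: the number of `j ≤ z` with `w < zs z j` -/
def zt (w z : ℕ) : ℕ := ((Finset.range (z + 1)).filter (fun j => w < zs z j)).card

/-- the primes `p` with `w < p ≤ z` -/
def prs (w z : ℕ) : Finset ℕ := (Finset.Ioc w z).filter Nat.Prime

end Pool.Agent.LAP
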