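import Pool.Agent.LAP.PatL

/-! LAP/Low (0.5h).  Every walk of a listed pair has many rough terms.

PLAN.  `δ, c` from `pat_low u b .. L`.  Let `A` be a walk from `k` with steps `2 ^ u`, `b * 2 ^ u`: `A n = k + 2 ^ u * τ n` with `τ 0 = 0` and steps `1`, `b`
(define `τ n = (A n - k) / 2 ^ u`).  For `t` in the set `S` of `pat_low` `Helper27.crossing b hb L hcut τ _ t _` gives `n` and `h ∈ L` with
`τ n = t + h`, so `A n = k + 2 ^ u (t + h)` is rough and `≤ x`.  Map `t ↦ n`: given `n`, `t = τ n - h` with `h ∈ L`, so at most `b` values of `t`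
go to the same `n` (`Finset.card_le_mul_card_image` or `card_eq_sum_card_fiberwise`).  So `hits δ A x ≥ |S| / b ≥ (c/b) x / log x ^ b`.  The set of
`hits` is finite because `A` is strictly increasing (`k + n * 2 ^ u ≤ A n`). -/

set_option autoImplicit false

namespace Pool.Agent.LAP

open Finset Pool.Agent.Helper27

/-- the positions of a walk with steps `2 ^ u`, `b * 2 ^ u` -/
theorem low_tau (u b : ℕ) (k : ℤ) (A : ℕ → ℤ) (hA : IsWalk (2 ^ u) (b * 2 ^ u) k A) :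
    ∃ τ : ℕ → ℤ, τ 0 = 0 ∧ (∀ n, τ (n + 1) - τ n = 1 ∨ τ (n + 1) - τ n = b) ∧
      ∀ n, A n = k + 2 ^ u * τ n := by
  obtain ⟨h0, hs⟩ := hA
  have hpos : (0 : ℤ) < 2 ^ u := by positivity
  have hdiv : ∀ n, ∃ y : ℤ, A n = k + 2 ^ u * y := by
    intro n
    induction n with
    | zero => exact ⟨0, by rw [h0]; ring⟩
    | succ n ih =>
      obtain ⟨y, hy⟩ := ih
      rcases hs n with h | h
      · exact ⟨y + 1, by linear_combination h + hy⟩
      · exact ⟨y + b, by linear_combination h + hy⟩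
  choose τ hτ using hdiv
  refine ⟨τ, ?_, ?_, hτ⟩
  · have h1 := hτ 0
    rw [h0] at h1
    have h2 : (2 : ℤ) ^ u * τ 0 = 0 := by linear_combination -h1
    rcases mul_eq_zero.1 h2 with h3 | h3
    · exact absurd h3 hpos.ne'
    · exact h3
  · intro n
    have h1 := hτ n
    have h2 := hτ (n + 1)
    rcases hs n with h | h
    · left
      have h3 : (2 : ℤ) ^ u * (τ (n + 1) - τ n) = 2 ^ u * 1 := by linear_combination h - h2 + h1
      exact mul_left_cancel₀ hpos.ne' h3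
    · right
      have h3 : (2 : ℤ) ^ u * (τ (n + 1) - τ n) = 2 ^ u * b := by linear_combination h - h2 + h1
      exact mul_left_cancel₀ hpos.ne' h3

theorem low_tau_ge (b : ℕ) (hb : 1 ≤ b) (τ : ℕ → ℤ) (h0 : τ 0 = 0)
    (hs : ∀ n, τ (n + 1) - τ n = 1 ∨ τ (n + 1) - τ n = b) (n : ℕ) : (n : ℤ) ≤ τ n := by
  induction n with
  | zero => rw [h0]; simp
  | succ n ih =>
    have hb' : (1 : ℤ) ≤ b := by exact_mod_cast hb
    push_cast
    rcases hs n with h | h <;> linarith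

theorem low_finite (u b : ℕ) (hb : 1 ≤ b) (k : ℤ) (δ : ℝ) (A : ℕ → ℤ)
    (hA : IsWalk (2 ^ u) (b * 2 ^ u) k A) (x : ℝ) :
    {n : ℕ | (A n : ℝ) ≤ x ∧ Rough δ (A n)}.Finite := by
  obtain ⟨τ, h0, hs, hτ⟩ := low_tau u b k A hA
  refine (Set.finite_Iic (⌈x - k⌉₊)).subset ?_
  rintro n ⟨hn, -⟩
  rw [Set.mem_Iic]
  have h1 := low_tau_ge b hb τ h0 hs n
  have hpos : (1 : ℤ) ≤ 2 ^ u := one_le_pow₀ (by norm_num)
  have h2 : k + (n : ℤ) ≤ A n := by
    rw [hτ n]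
    nlinarith
  have h3 : (k : ℝ) + (n : ℝ) ≤ (A n : ℝ) := by exact_mod_cast h2
  have h4 : (n : ℝ) ≤ x - k := by linarith
  have h5 : (n : ℝ) ≤ (⌈x - k⌉₊ : ℝ) := h4.trans (Nat.le_ceil _)
  exact_mod_cast h5

theorem low_card (u b : ℕ) (hb : 1 ≤ b) (L : List ℕ) (hcut : IsCut b L) (k : ℤ) (δ : ℝ)
    (A : ℕ → ℤ) (hA : IsWalk (2 ^ u) (b * 2 ^ u) k A) (x : ℝ) :
    ({t : ℕ | 1 ≤ t ∧ ∀ h ∈ L, Rough δ (k + 2 ^ u * ((t + h : ℕ) : ℤ)) ∧
        (((k + 2 ^ u * ((t + h : ℕ) : ℤ) : ℤ)) : ℝ) ≤ x}.ncard) ≤ hits δ A x * b := by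
  classical
  obtain ⟨τ, h0, hs, hτ⟩ := low_tau u b k A hA
  have hfin := low_finite u b hb k δ A hA x
  have hcard : hits δ A x = hfin.toFinset.card := by
    unfold hits
    rw [Set.ncard_eq_toFinset_card _ hfin]
  set T : Finset ℕ := hfin.toFinset.biUnion
    (fun n => L.toFinset.image (fun h : ℕ => (τ n - (h : ℤ)).toNat)) with hT
  have hTc : T.card ≤ hits δ A x * b := by
    rw [hcard]
    refine Finset.card_biUnion_le_card_mul _ _ _ (fun n _ => ?_)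
    refine Finset.card_image_le.trans ?_
    refine (List.toFinset_card_le L).trans ?_
    rw [hcut.1]
  refine le_trans ?_ hTc
  rw [← Set.ncard_coe_finset T]
  refine Set.ncard_le_ncard ?_ (Finset.finite_toSet T)
  rintro t ⟨ht1, ht⟩
  obtain ⟨n, h, hh, hn⟩ := crossing b hb L hcut τ hs (t : ℤ) (by rw [h0]; exact_mod_cast ht1)
  obtain ⟨hr, hx⟩ := ht h hh
  have hAn : A n = k + 2 ^ u * ((t + h : ℕ) : ℤ) := by
    rw [hτ n, hn]
    push_cast
    ring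
  rw [Finset.mem_coe, hT, Finset.mem_biUnion]
  refine ⟨n, ?_, ?_⟩
  · rw [Set.Finite.mem_toFinset]
    exact ⟨by rw [hAn]; exact hx, by rw [hAn]; exact hr⟩
  · rw [Finset.mem_image]
    refine ⟨h, List.mem_toFinset.2 hh, ?_⟩
    rw [hn]
    simp

theorem lower (u b : ℕ) (hu : 1 ≤ u) (hb : 1 ≤ b) (L : List ℕ) (hcut : IsCut b L)
    (hadm : ∀ q : ℕ, q.Prime → q ≠ 2 → ∃ a, Misses L q a) :
    ∃ δ c : ℝ, 0 < δ ∧ δ < 1 ∧ 0 < c ∧ ∀ k : ℤ, Odd k → ∃ x0 : ℝ, ∀ A : ℕ → ℤ, IsWalk (2 ^ u) (b * 2 ^ u) k A →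
      ∀ x : ℝ, x0 ≤ x → c * x / Real.log x ^ b ≤ ((hits δ A x : ℕ) : ℝ) := by
  obtain ⟨δ, c, hδ0, hδ1, hc, H⟩ := pat_low u b hu hb L hcut.1 hadm
  have hb' : (0 : ℝ) < b := by exact_mod_cast hb
  refine ⟨δ, c / b, hδ0, hδ1, by positivity, fun k hk => ?_⟩
  obtain ⟨x0, hx0⟩ := H k hk
  refine ⟨x0, fun A hA x hx => ?_⟩
  have h1 := hx0 x hx
  have h2 := low_card u b hb L hcut k δ A hA x
  have h3 : c * x / Real.log x ^ b ≤ ((hits δ A x : ℕ) : ℝ) * b := by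
    refine h1.trans ?_
    exact_mod_cast h2
  have h4 : c / b * x / Real.log x ^ b = (c * x / Real.log x ^ b) / b := by
    field_simp
  rw [h4, div_le_iff₀ hb']
  exact h3

end Pool.Agent.LAP
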