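import Pool.Agent.LAP.Defs
import Pool.Agent.Helper27.WalkRatio

/-! LAP/Non (0.5h).  Pairs which are not listed: walks all of whose terms have a small prime factor.

PLAN.  `Helper27.ratio` gives `T ∈ {1,2,3}` and for every `K` a prime-free walk `A` from an odd `k ≥ K` with steps of period `T`.  Use `K' = max K (3 j + 2)`.
`M := A T - A 0`, the sum of a period, so `0 < M ≤ 3 j` and `A (n + T) = A n + M` for all `n` (induction from the periodicity of the steps).
For a given `n` put `a = A n`; `A (n + m T) = a + m M`.  If `gcd(a, M) = 1` then by Dirichlet there is a prime `p ≡ a (mod M)`, `p > a`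
(`Nat.forall_exists_prime_gt_and_modEq` or `Nat.infinite_setOf_prime_and_eq_mod`; `a > 0`), so `p = a + m M`, a prime term: contradiction.
So a prime `p` divides `a` and `M`, `p ≤ M ≤ 3 j`. -/

set_option autoImplicit false

namespace Pool.Agent.LAP

open Pool.Agent.Helper27

theorem not_listed (i j : ℤ) (hi : Even i) (hj : Even j) (h0 : 0 < i) (hij : i < j) (hn : ¬ Listed i j) (K : ℤ) :
    ∃ k : ℤ, K ≤ k ∧ Odd k ∧ ∃ A : ℕ → ℤ, IsWalk i j k A ∧
      ∀ n : ℕ, ∃ p : ℕ, p.Prime ∧ (p : ℤ) ≤ 3 * j ∧ (p : ℤ) ∣ A n := by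
  rcases ratio i j hi hj h0 hij with h | ⟨T, hT1, hT3, hT⟩
  · exact absurd h hn
  obtain ⟨k, hk, hko, A, hA, hper, hnp⟩ := hT (max K 1)
  refine ⟨k, le_trans (le_max_left _ _) hk, hko, A, hA, ?_⟩
  have hk1 : 1 ≤ k := le_trans (le_max_right _ _) hk
  have hstep : ∀ n, A n < A (n + 1) ∧ A (n + 1) ≤ A n + j := by
    intro n
    rcases hA.2 n with h | h <;> constructor <;> omega
  have hpos : ∀ n, 1 ≤ A n := by
    intro n
    induction n with
    | zero => rw [hA.1]; exact hk1
    | succ n ih => have := (hstep n).1; omega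
  have hM0 : 0 < A T - A 0 ∧ A T - A 0 ≤ 3 * j := by
    have s0 := hstep 0
    have s1 := hstep 1
    have s2 := hstep 2
    simp only [zero_add] at s0
    norm_num at s1 s2
    have hc : T = 1 ∨ T = 2 ∨ T = 3 := by omega
    rcases hc with rfl | rfl | rfl <;> constructor <;> omega
  have hM : ∀ n, A (n + T) = A n + (A T - A 0) := by
    intro n
    induction n with
    | zero => simp
    | succ n ih =>
      have h1 := hper n
      have h2 : A (n + 1 + T) = A (n + T + 1) := by congr 1; omega
      rw [h2]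
      omega
  intro n
  have hMm : ∀ m : ℕ, A (n + m * T) = A n + m * (A T - A 0) := by
    intro m
    induction m with
    | zero => simp
    | succ m ih =>
      have h2 : n + (m + 1) * T = (n + m * T) + T := by ring
      rw [h2, hM, ih]
      push_cast
      ring
  obtain ⟨a, ha⟩ := Int.eq_ofNat_of_zero_le (le_trans (by norm_num) (hpos n) : (0 : ℤ) ≤ A n)
  obtain ⟨M, hMe⟩ := Int.eq_ofNat_of_zero_le hM0.1.le
  have hMpos : 0 < M := by
    have := hM0.1
    rw [hMe] at this
    exact_mod_cast this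
  by_cases hc : Nat.Coprime a M
  · exfalso
    obtain ⟨p, hpa, hp, hmod⟩ := Nat.forall_exists_prime_gt_and_modEq a hMpos.ne' hc
    have hdvd : M ∣ p - a := (Nat.modEq_iff_dvd' hpa.le).1 hmod.symm
    obtain ⟨m, hm⟩ := hdvd
    refine hnp (n + m * T) ⟨p, hp, ?_⟩
    rw [hMm m, ha, hMe]
    have : p = a + M * m := by omega
    rw [this]
    push_cast
    ring
  · obtain ⟨p, hp, hpa, hpM⟩ := Nat.Prime.not_coprime_iff_dvd.1 hc
    refine ⟨p, hp, ?_, ?_⟩
    · have h1 : p ≤ M := Nat.le_of_dvd hMpos hpM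
      have h2 : (M : ℤ) ≤ 3 * j := by
        have := hM0.2
        rw [hMe] at this
        exact this
      have h3 : (p : ℤ) ≤ (M : ℤ) := by exact_mod_cast h1
      exact le_trans h3 h2
    · rw [ha]
      exact_mod_cast hpa

end Pool.Agent.LAP
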