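import Pool.Agent.LAP.Up
import Pool.Agent.LAP.Low
import Pool.Agent.LAP.Non

/-! LAP/Main (0.4h).  Assembly.

PLAN.  `expo_listed`: `gcd(i, b i) = i` (`Int.gcd_mul_left_right`-type lemma, `i > 0`), `b i / i = b`.
`main`: first part `upper`; second: `Listed` gives `u` and `b ∈ {2,4,8,16,256}`; `lower u b` with `L = list2, ..., list256`, `cut2, ..., cut256`,
`adm2, ..., adm256` (Helper27/WalkCuts; `Misses`), `i = 2 ^ u`, `j = b * 2 ^ u`, `expo_listed`; third: `not_listed`. -/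

set_option autoImplicit false

namespace Pool.Agent.LAP

open Pool.Agent.Helper27

theorem expo_listed (i : ℤ) (b : ℕ) (h0 : 0 < i) : expo i (b * i) = b := by
  have h1 : (Int.gcd i (b * i) : ℤ) = i := by
    rw [Int.gcd_eq_left_iff_dvd h0.le]
    exact Dvd.intro_left _ rfl
  unfold expo
  rw [h1, Int.mul_ediv_cancel _ h0.ne']
  simp

private theorem main_listed (u b : ℕ) (hu : 1 ≤ u) (hb : 1 ≤ b) (L : List ℕ) (hcut : IsCut b L)
    (hadm : ∀ q : ℕ, q.Prime → q ≠ 2 → ∃ a, Misses L q a) (j : ℤ) (hj : j = b * 2 ^ u) :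
    ∃ δ c : ℝ, 0 < δ ∧ δ < 1 ∧ 0 < c ∧ ∀ k : ℤ, Odd k → ∃ x0 : ℝ, ∀ A : ℕ → ℤ,
      IsWalk (2 ^ u) j k A →
      ∀ x : ℝ, x0 ≤ x → c * x / Real.log x ^ expo (2 ^ u) j ≤ (hits δ A x : ℝ) := by
  subst hj
  rw [expo_listed (2 ^ u) b (by positivity)]
  exact lower u b hu hb L hcut hadm

theorem main (i j : ℤ) (hi : Even i) (hj : Even j) (h0 : 0 < i) (hij : i < j) :
    (∀ δ : ℝ, 0 < δ → δ < 1 → ∃ C : ℝ, 0 < C ∧ ∀ k : ℤ, Odd k → ∃ A : ℕ → ℤ, IsWalk i j k A ∧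
      ∀ x : ℝ, 2 ≤ x → (hits δ A x : ℝ) ≤ C * x / Real.log x ^ expo i j) ∧
    (Listed i j → ∃ δ c : ℝ, 0 < δ ∧ δ < 1 ∧ 0 < c ∧ ∀ k : ℤ, Odd k → ∃ x0 : ℝ, ∀ A : ℕ → ℤ, IsWalk i j k A →
      ∀ x : ℝ, x0 ≤ x → c * x / Real.log x ^ expo i j ≤ (hits δ A x : ℝ)) ∧
    (¬ Listed i j → ∀ K : ℤ, ∃ k : ℤ, K ≤ k ∧ Odd k ∧ ∃ A : ℕ → ℤ, IsWalk i j k A ∧
      ∀ n : ℕ, ∃ p : ℕ, p.Prime ∧ (p : ℤ) ≤ 3 * j ∧ (p : ℤ) ∣ A n) := by
  refine ⟨?_, ?_, ?_⟩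
  · intro δ hδ hδ1
    obtain ⟨C, hC, h⟩ := upper i j h0 hij δ hδ hδ1
    exact ⟨C, hC, fun k _ => h k⟩
  · rintro ⟨u, hu, rfl, h⟩
    rcases h with h | h | h | h | h
    · exact main_listed u 2 hu (by norm_num) list2 cut2 adm2 j (by rw [h]; norm_num)
    · exact main_listed u 4 hu (by norm_num) list4 cut4 adm4 j (by rw [h]; norm_num)
    · exact main_listed u 8 hu (by norm_num) list8 cut8 adm8 j (by rw [h]; norm_num)
    · exact main_listed u 16 hu (by norm_num) list16 cut16 adm16 j (by rw [h]; norm_num)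
    · exact main_listed u 256 hu (by norm_num) list256 cut256 adm256 j (by rw [h]; norm_num)
  · intro hn K
    exact not_listed i j hi hj h0 hij hn K

end Pool.Agent.LAP
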