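import Pool.Agent.LAP.BHf
import Pool.Agent.Helper27.WalkCuts

/-! LAP/PatL (0.8h).  Many constellations of rough numbers.

PLAN.  `w0, s, c` from `lower_sieve b`, `Q = ∏ p ∈ (range (w0+1)).filter (fun p => p.Prime ∧ p ≠ 2), p`.  `G = 2 ^ u`.  By `hadm` and CRT
(`G` is invertible modulo the odd primes) there is `ν` (depending on `k`) with `p ∤ k + G (ν + h)` for all odd primes `p ≤ w0` and `h ∈ L`: want
`ν + h ≢ -k/G (mod p)`; `Misses L p a` says no `h ∈ L` is `≡ a`; take `ν ≡ -k/G - a`.  Let `t = ν' + Q m` with `ν' ≡ ν (mod Q)`, `ν' ≥ 1` and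
`k + G ν' ≥ 2` (`ν'` depends on `k`), `m` in `Ioc 0 N`, `N = ⌊x / (2 G Q)⌋₊`; for `x ≥ x0(k)` all values `k + G (t + h)`,
`h ∈ L`, are in `[2, x]`.  `δ = 1/(2 s)`, `z = ⌊x ^ δ⌋₊ + 1`: for large `x` `z ^ s ≤ N`, `w0 ≤ z`.  For a prime `w0 < p ≤ z` let `Ω p` be the set of the
residues `r < p` with `p ∣ k + G (ν' + Q r + h)` for some `h ∈ L`: at most `|L| = b` of them (`G Q` is invertible mod `p`; inject into `L.toFinset`).
For `m` counted by `lower_sieve` no value `k + G (t + h)` has a prime factor `≤ z` (`2`: the value is odd since `k` is odd and `u ≥ 1`; odd `p ≤ w0`: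
choice of `ν`; `w0 < p ≤ z`: `m % p ∉ Ω p`), so all prime factors are `> x ^ δ ≥ value ^ δ`: rough.  The number is
`≥ c N / (log z)^b ≥ c' x / (log x)^b` (`log z ≤ log x`), and `m ↦ t` is injective.  The set on the right is finite (`t ≤ x + |k|`). -/

set_option autoImplicit false

namespace Pool.Agent.LAP

open Finset Pool.Agent.Helper27

private theorem patl_res (u : ℕ) (L : List ℕ) (p : ℕ) (hp : p.Prime) (hp2 : p ≠ 2) (a : ℕ)
    (ha : Misses L p a) (k : ℤ) :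
    ∃ r : ℕ, ∀ t : ℕ, t ≡ r [MOD p] → ∀ h ∈ L, ¬ (p : ℤ) ∣ k + 2 ^ u * ((t + h : ℕ) : ℤ) := by
  have hp0 : (0 : ℤ) < p := by exact_mod_cast hp.pos
  have hcop : IsCoprime ((2 : ℤ) ^ u) (p : ℤ) := by
    apply IsCoprime.pow_left
    rw [Int.isCoprime_iff_gcd_eq_one]
    have h1 : Nat.Coprime 2 p := (Nat.coprime_primes Nat.prime_two hp).2 (Ne.symm hp2)
    exact_mod_cast h1
  obtain ⟨x, y, hxy⟩ := hcop
  refine ⟨((x * (-k) - a) % p).toNat, fun t ht h hh hdvd => ?_⟩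
  have h1 : ((((x * (-k) - a) % p).toNat : ℕ) : ℤ) = (x * (-k) - a) % p :=
    Int.toNat_of_nonneg (Int.emod_nonneg _ hp0.ne')
  have h2 : (t : ℤ) ≡ x * (-k) - a [ZMOD p] := by
    have h3 := (Int.natCast_modEq_iff).2 ht
    rw [h1] at h3
    exact h3.trans (Int.mod_modEq _ _)
  have h4 : k + 2 ^ u * ((t + h : ℕ) : ℤ) ≡ k + 2 ^ u * ((x * (-k) - a) + h) [ZMOD p] := by
    push_cast
    exact Int.ModEq.add_left _ (Int.ModEq.mul_left _ (Int.ModEq.add_right _ h2))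
  have h5 : k + 2 ^ u * ((x * (-k) - a) + h) ≡ 2 ^ u * ((h : ℤ) - a) [ZMOD p] := by
    rw [Int.modEq_iff_dvd]
    refine ⟨-(k * y), ?_⟩
    linear_combination k * hxy
  have h6 : (p : ℤ) ∣ 2 ^ u * ((h : ℤ) - a) := by
    have h7 : (2 ^ u * ((h : ℤ) - a)) ≡ 0 [ZMOD p] :=
      (h4.trans h5).symm.trans ((Int.modEq_zero_iff_dvd).2 hdvd)
    exact (Int.modEq_zero_iff_dvd).1 h7
  have h8 : (p : ℤ) ∣ (h : ℤ) - a := by
    have h9 : IsCoprime (p : ℤ) ((2 : ℤ) ^ u) := ⟨y, x, by linear_combination hxy⟩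
    exact h9.dvd_of_dvd_mul_left h6
  have h10 : (a : ℤ) ≡ h [ZMOD p] := (Int.modEq_iff_dvd).2 h8
  have h11 : a ≡ h [MOD p] := (Int.natCast_modEq_iff).1 h10
  exact ha h hh h11.symm

private theorem patl_nu (u w0 : ℕ) (L : List ℕ) (hadm : ∀ q : ℕ, q.Prime → q ≠ 2 → ∃ a, Misses L q a)
    (k : ℤ) : ∃ ν : ℕ, k.natAbs + 2 ≤ ν ∧ ∀ p : ℕ, p.Prime → p ≠ 2 → p ≤ w0 → ∀ t : ℕ, t ≡ ν [MOD p] →
      ∀ h ∈ L, ¬ (p : ℤ) ∣ k + 2 ^ u * ((t + h : ℕ) : ℤ) := by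
  classical
  have h1 : ∀ p : ℕ, ∃ r : ℕ, p.Prime → p ≠ 2 → ∀ t : ℕ, t ≡ r [MOD p] →
      ∀ h ∈ L, ¬ (p : ℤ) ∣ k + 2 ^ u * ((t + h : ℕ) : ℤ) := by
    intro p
    by_cases hp : p.Prime ∧ p ≠ 2
    · obtain ⟨a, ha⟩ := hadm p hp.1 hp.2
      obtain ⟨r, hr⟩ := patl_res u L p hp.1 hp.2 a ha k
      exact ⟨r, fun _ _ => hr⟩
    · exact ⟨0, fun h2 h3 => absurd ⟨h2, h3⟩ hp⟩
  choose r hr using h1
  set T : Finset ℕ := (Finset.range (w0 + 1)).filter Nat.Prime with hT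
  have hne : ∀ p ∈ T, p ≠ 0 := fun p hp => (Finset.mem_filter.1 hp).2.ne_zero
  have hpw : Set.Pairwise (T : Set ℕ) (Function.onFun Nat.Coprime (fun p => p)) := by
    intro p hp q hq hpq
    exact (Nat.coprime_primes (Finset.mem_filter.1 hp).2 (Finset.mem_filter.1 hq).2).2 hpq
  obtain ⟨ν0, hν0⟩ := Nat.chineseRemainderOfFinset r (fun p => p) T hne hpw
  set Q : ℕ := ∏ p ∈ T, p with hQ
  have hQ0 : 1 ≤ Q := Finset.prod_pos fun p hp => Nat.pos_of_ne_zero (hne p hp)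
  refine ⟨ν0 + Q * (k.natAbs + 2), ?_, ?_⟩
  · have : k.natAbs + 2 ≤ Q * (k.natAbs + 2) := Nat.le_mul_of_pos_left _ hQ0
    omega
  · intro p hp hp2 hpw t ht
    have hpT : p ∈ T := Finset.mem_filter.2 ⟨Finset.mem_range.2 (by omega), hp⟩
    refine hr p hp hp2 t (ht.trans ?_)
    have h2 : p ∣ Q * (k.natAbs + 2) := (Finset.dvd_prod_of_mem (fun p => p) hpT).mul_right _
    have h3 : ν0 + Q * (k.natAbs + 2) ≡ ν0 + 0 [MOD p] :=
      Nat.ModEq.add_left _ ((Nat.modEq_zero_iff_dvd).2 h2)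
    exact h3.trans (hν0 p hpT)

private theorem patl_omega (u Q : ℕ) (L : List ℕ) (k : ℤ) (ν : ℕ) (p : ℕ) (hp : p.Prime) (hp2 : p ≠ 2)
    (hpQ : ¬ p ∣ Q) :
    ((Finset.range p).filter fun r => ∃ h ∈ L, (p : ℤ) ∣ k + 2 ^ u * ((ν + Q * r + h : ℕ) : ℤ)).card ≤ L.length := by
  classical
  have hsub : ((Finset.range p).filter fun r => ∃ h ∈ L, (p : ℤ) ∣ k + 2 ^ u * ((ν + Q * r + h : ℕ) : ℤ)) ⊆
      L.toFinset.biUnion fun h => (Finset.range p).filter fun r =>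
        (p : ℤ) ∣ k + 2 ^ u * ((ν + Q * r + h : ℕ) : ℤ) := by
    intro r hr
    rw [Finset.mem_filter] at hr
    obtain ⟨h1, h, hh, h2⟩ := hr
    rw [Finset.mem_biUnion]
    exact ⟨h, List.mem_toFinset.2 hh, Finset.mem_filter.2 ⟨h1, h2⟩⟩
  refine (Finset.card_le_card hsub).trans ?_
  refine (Finset.card_biUnion_le_card_mul _ _ 1 fun h _ => ?_).trans ?_
  · rw [Finset.card_le_one]
    intro r hr r' hr'
    rw [Finset.mem_filter, Finset.mem_range] at hr hr'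
    have h1 : (p : ℤ) ∣ 2 ^ u * (Q : ℤ) * ((r : ℤ) - r') := by
      have h2 := dvd_sub hr.2 hr'.2
      have h3 : k + 2 ^ u * ((ν + Q * r + h : ℕ) : ℤ) - (k + 2 ^ u * ((ν + Q * r' + h : ℕ) : ℤ)) =
          2 ^ u * (Q : ℤ) * ((r : ℤ) - r') := by
        push_cast
        ring
      rwa [h3] at h2
    have hpi : Prime (p : ℤ) := Nat.prime_iff_prime_int.1 hp
    rcases hpi.dvd_or_dvd h1 with h4 | h4
    · rcases hpi.dvd_or_dvd h4 with h5 | h5
      · exfalso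
        have h6 := hpi.dvd_of_dvd_pow h5
        have h7 : p ∣ 2 := by exact_mod_cast h6
        exact hp2 ((Nat.prime_dvd_prime_iff_eq hp Nat.prime_two).1 h7)
      · exact absurd (by exact_mod_cast h5) hpQ
    · have h5 : (r' : ℤ) ≡ r [ZMOD p] := (Int.modEq_iff_dvd).2 h4
      have h6 : r' ≡ r [MOD p] := (Int.natCast_modEq_iff).1 h5
      exact (Nat.ModEq.eq_of_lt_of_lt h6 hr'.1 hr.1).symm
  · rw [mul_one]
    exact List.toFinset_card_le L

private theorem patl_le_sum (L : List ℕ) : ∀ h ∈ L, h ≤ L.sum := by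
  induction L with
  | nil => intro h hh; exact absurd hh (by simp)
  | cons a l ih =>
    intro h hh
    rw [List.sum_cons]
    rcases List.mem_cons.1 hh with h1 | h1
    · omega
    · have := ih h h1
      omega

private theorem patl_mem (u w0 z Q m ν : ℕ) (hu : 1 ≤ u) (L : List ℕ) (k : ℤ) (hk : Odd k)
    (hQd : ∀ p : ℕ, p.Prime → p ≤ w0 → p ∣ Q) (hν : k.natAbs + 2 ≤ ν)
    (hνp : ∀ p : ℕ, p.Prime → p ≠ 2 → p ≤ w0 → ∀ t : ℕ, t ≡ ν [MOD p] →
      ∀ h ∈ L, ¬ (p : ℤ) ∣ k + 2 ^ u * ((t + h : ℕ) : ℤ))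
    (hm : ∀ p ∈ prs w0 z, m % p ∉ ((Finset.range p).filter fun r => ∃ h ∈ L,
      (p : ℤ) ∣ k + 2 ^ u * ((ν + Q * r + h : ℕ) : ℤ))) (h : ℕ) (hh : h ∈ L) :
    2 ≤ k + 2 ^ u * ((ν + Q * m + h : ℕ) : ℤ) ∧
      ∀ p : ℕ, p.Prime → (p : ℤ) ∣ k + 2 ^ u * ((ν + Q * m + h : ℕ) : ℤ) → z < p := by
  constructor
  · have h1 : ((ν + Q * m + h : ℕ) : ℤ) ≤ 2 ^ u * ((ν + Q * m + h : ℕ) : ℤ) :=
      le_mul_of_one_le_left (Int.natCast_nonneg _) (one_le_pow₀ (by norm_num))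
    have h2 : ((k.natAbs + 2 : ℕ) : ℤ) ≤ ((ν + Q * m + h : ℕ) : ℤ) := by
      apply Int.ofNat_le.2
      have : 0 ≤ Q * m := Nat.zero_le _
      omega
    have h3 : ((k.natAbs + 2 : ℕ) : ℤ) = |k| + 2 := by
      rw [Nat.cast_add, Int.natCast_natAbs]
      rfl
    have h4 : -k ≤ |k| := neg_le_abs k
    linarith
  · intro p hp hdvd
    by_contra hcon
    push Not at hcon
    by_cases hp2 : p = 2
    · subst hp2
      have h1 : (2 : ℤ) ∣ 2 ^ u * ((ν + Q * m + h : ℕ) : ℤ) :=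
        (dvd_pow_self 2 (by omega)).mul_right _
      have h2 : (2 : ℤ) ∣ k := (dvd_add_left h1).1 (by exact_mod_cast hdvd)
      exact (Int.not_even_iff_odd.2 hk) (even_iff_two_dvd.2 h2)
    by_cases hpw : p ≤ w0
    · have h1 : ν + Q * m ≡ ν + 0 [MOD p] :=
        Nat.ModEq.add_left _ ((Nat.modEq_zero_iff_dvd).2 ((hQd p hp hpw).mul_right _))
      exact hνp p hp hp2 hpw (ν + Q * m) h1 h hh hdvd
    · push Not at hpw
      have hpm : p ∈ prs w0 z := Finset.mem_filter.2 ⟨Finset.mem_Ioc.2 ⟨hpw, hcon⟩, hp⟩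
      apply hm p hpm
      rw [Finset.mem_filter, Finset.mem_range]
      refine ⟨Nat.mod_lt _ hp.pos, h, hh, ?_⟩
      have key : ∀ r q : ℕ, (p : ℤ) ∣ k + 2 ^ u * ((ν + Q * (r + p * q) + h : ℕ) : ℤ) →
          (p : ℤ) ∣ k + 2 ^ u * ((ν + Q * r + h : ℕ) : ℤ) := by
        intro r q hd
        have h1 : (p : ℤ) ∣ p * (2 ^ u * Q * q) := Dvd.intro _ rfl
        have h2 := dvd_sub hd h1
        have h3 : k + 2 ^ u * ((ν + Q * (r + p * q) + h : ℕ) : ℤ) - p * (2 ^ u * Q * q) =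
            k + 2 ^ u * ((ν + Q * r + h : ℕ) : ℤ) := by
          push_cast
          ring
        rwa [h3] at h2
      apply key (m % p) (m / p)
      rw [Nat.mod_add_div]
      exact hdvd

theorem pat_low (u b : ℕ) (hu : 1 ≤ u) (hb : 1 ≤ b) (L : List ℕ) (hlen : L.length = b)
    (hadm : ∀ q : ℕ, q.Prime → q ≠ 2 → ∃ a, Misses L q a) :
    ∃ δ c : ℝ, 0 < δ ∧ δ < 1 ∧ 0 < c ∧ ∀ k : ℤ, Odd k → ∃ x0 : ℝ, ∀ x : ℝ, x0 ≤ x →
      c * x / Real.log x ^ b ≤ (({t : ℕ | 1 ≤ t ∧ ∀ h ∈ L, Rough δ (k + 2 ^ u * ((t + h : ℕ) : ℤ)) ∧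
        (((k + 2 ^ u * ((t + h : ℕ) : ℤ) : ℤ)) : ℝ) ≤ x}.ncard : ℕ) : ℝ) := by
  classical
  obtain ⟨w0, s, c0, hw0, hs, hc0, hsieve⟩ := lower_sieve b
  set T : Finset ℕ := (Finset.range (w0 + 1)).filter Nat.Prime with hT
  set Q : ℕ := ∏ p ∈ T, p with hQ
  have hQ0 : 1 ≤ Q := Nat.succ_le_of_lt (Finset.prod_pos fun p hp => (Finset.mem_filter.1 hp).2.pos)
  have hQd : ∀ p : ℕ, p.Prime → p ≤ w0 → p ∣ Q := fun p hp hpw =>
    Finset.dvd_prod_of_mem (fun p => p) (Finset.mem_filter.2 ⟨Finset.mem_range.2 (by omega), hp⟩)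
  have hQn : ∀ p : ℕ, p.Prime → w0 < p → ¬ p ∣ Q := by
    intro p hp hpw hd
    obtain ⟨q, hq, hpq⟩ := (Prime.dvd_finsetProd_iff hp.prime _).1 hd
    rw [hT, Finset.mem_filter, Finset.mem_range] at hq
    have := (Nat.prime_dvd_prime_iff_eq hp hq.2).1 hpq
    omega
  obtain ⟨h0, hh0⟩ : ∃ h, h ∈ L := by
    cases L with
    | nil => simp at hlen; omega
    | cons a l => exact ⟨a, by simp⟩
  set D : ℝ := 2 ^ u * Q with hD
  have hD1 : 1 ≤ D := by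
    have h1 : (1 : ℝ) ≤ 2 ^ u := one_le_pow₀ (by norm_num)
    have h2 : (1 : ℝ) ≤ Q := by exact_mod_cast hQ0
    rw [hD]
    nlinarith
  have hD0 : 0 < D := by linarith
  have hs0 : (0 : ℝ) < s := by exact_mod_cast hs
  have hs1 : (1 : ℝ) ≤ s := by exact_mod_cast hs
  set δ : ℝ := 1 / (2 * s) with hδ
  have hδ0 : 0 < δ := by positivity
  have hδh : δ ≤ 1 / 2 := by
    rw [hδ]
    apply one_div_le_one_div_of_le (by norm_num)
    linarith
  refine ⟨δ, c0 / (4 * D), hδ0, by linarith, by positivity, fun k hk => ?_⟩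
  obtain ⟨ν, hν, hνp⟩ := patl_nu u w0 L hadm k
  set B : ℝ := |(k : ℝ)| + 2 ^ u * (ν + L.sum) with hB
  have e1 := (tendsto_rpow_atTop hδ0).eventually_ge_atTop (w0 : ℝ)
  have e2 := (tendsto_rpow_atTop (show (0 : ℝ) < 1 / 2 by norm_num)).eventually_ge_atTop
    ((2 : ℝ) ^ s * (4 * D))
  have e3 := Filter.eventually_ge_atTop (4 * D + 2 * B + 4)
  rw [← Filter.eventually_atTop]
  filter_upwards [e1, e2, e3] with x h1 h2 h3
  have hB0 : 0 ≤ B := by rw [hB]; positivity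
  have hx4 : 4 ≤ x := by linarith
  have hx0 : 0 < x := by linarith
  have hx1 : 1 ≤ x := by linarith
  set y : ℝ := x ^ (1 / 2 : ℝ) with hy
  have hyy : y * y = x := by
    rw [hy, ← Real.rpow_add hx0]
    norm_num
  have hy0 : 0 < y := Real.rpow_pos_of_pos hx0 _
  have hy2 : 2 ≤ y := by nlinarith
  have hxδ : x ^ δ ≤ y := Real.rpow_le_rpow_of_exponent_le hx1 hδh
  have hxδ1 : 1 ≤ x ^ δ := Real.one_le_rpow hx1 hδ0.le
  set N : ℕ := ⌊x / (2 * D)⌋₊ with hN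
  set z : ℕ := ⌊x ^ δ⌋₊ + 1 with hz
  have hN2 : (N : ℝ) ≤ x / (2 * D) := Nat.floor_le (by positivity)
  have hN1 : x / (4 * D) ≤ N := by
    have h4 : x / (2 * D) < N + 1 := Nat.lt_floor_add_one _
    have h5 : x / (2 * D) = x / (4 * D) + x / (4 * D) := by field_simp; ring
    have h6 : 1 ≤ x / (4 * D) := by
      rw [le_div_iff₀ (by positivity)]
      linarith
    linarith
  have hz0 : w0 ≤ z := by
    have h4 : w0 ≤ ⌊x ^ δ⌋₊ := Nat.le_floor h1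
    omega
  have hz1 : x ^ δ < z := by
    rw [hz]
    push_cast
    exact Nat.lt_floor_add_one _
  have hz2 : (z : ℝ) ≤ 2 * x ^ δ := by
    rw [hz]
    push_cast
    have := Nat.floor_le (show 0 ≤ x ^ δ by linarith)
    linarith
  have hz3 : (z : ℝ) ≤ x := by nlinarith
  have hz4 : (4 : ℝ) ≤ z := by
    have : 4 ≤ z := by omega
    exact_mod_cast this
  have hzs : z ^ s ≤ N := by
    have h4 : ((z : ℝ)) ^ s ≤ N := by
      have h5 : (z : ℝ) ^ s ≤ (2 * x ^ δ) ^ s := pow_le_pow_left₀ (by positivity) hz2 s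
      have h6 : (2 * x ^ δ) ^ s = 2 ^ s * y := by
        rw [mul_pow, ← Real.rpow_natCast (x ^ δ) s, ← Real.rpow_mul hx0.le, hy]
        congr 2
        rw [hδ]
        field_simp
      have h7 : 2 ^ s * y ≤ x / (4 * D) := by
        rw [le_div_iff₀ (by positivity), ← hyy]
        nlinarith
      linarith
    exact_mod_cast h4
  have hΩ : ∀ p ∈ prs w0 z, (((Finset.range p).filter fun r => ∃ h ∈ L,
      (p : ℤ) ∣ k + 2 ^ u * ((ν + Q * r + h : ℕ) : ℤ))).card ≤ b ∧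
      ∀ r ∈ ((Finset.range p).filter fun r => ∃ h ∈ L,
      (p : ℤ) ∣ k + 2 ^ u * ((ν + Q * r + h : ℕ) : ℤ)), r < p := by
    intro p hp
    have h4 := Finset.mem_filter.1 hp
    have h5 := Finset.mem_Ioc.1 h4.1
    constructor
    · rw [← hlen]
      exact patl_omega u Q L k ν p h4.2 (by omega) (hQn p h4.2 h5.1)
    · intro r hr
      exact Finset.mem_range.1 (Finset.mem_filter.1 hr).1
  have hS := hsieve z N 0 (fun p => (Finset.range p).filter fun r => ∃ h ∈ L,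
      (p : ℤ) ∣ k + 2 ^ u * ((ν + Q * r + h : ℕ) : ℤ)) hz0 hzs hΩ
  set S : Finset ℕ := (Finset.Ioc 0 (0 + N)).filter (fun m => ∀ p ∈ prs w0 z,
      m % p ∉ (fun p => (Finset.range p).filter fun r => ∃ h ∈ L,
      (p : ℤ) ∣ k + 2 ^ u * ((ν + Q * r + h : ℕ) : ℤ)) p) with hSdef
  have hmain : ((S.card : ℕ) : ℝ) ≤ ((({t : ℕ | 1 ≤ t ∧ ∀ h ∈ L, Rough δ (k + 2 ^ u * ((t + h : ℕ) : ℤ)) ∧
        (((k + 2 ^ u * ((t + h : ℕ) : ℤ) : ℤ)) : ℝ) ≤ x}.ncard : ℕ)) : ℝ) := by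
    set f : ℕ → ℕ := fun m => ν + Q * m with hf
    have hfi : Function.Injective f := by
      intro m m' hmm
      have h4 : Q * m = Q * m' := Nat.add_left_cancel hmm
      exact Nat.eq_of_mul_eq_mul_left (by omega) h4
    have hfin : Set.Finite {t : ℕ | 1 ≤ t ∧ ∀ h ∈ L, Rough δ (k + 2 ^ u * ((t + h : ℕ) : ℤ)) ∧
        (((k + 2 ^ u * ((t + h : ℕ) : ℤ) : ℤ)) : ℝ) ≤ x} := by
      refine Set.Finite.subset (Set.finite_Iic ⌊x + |(k : ℝ)|⌋₊) ?_
      rintro t ⟨ht1, ht⟩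
      have h4 := (ht h0 hh0).2
      rw [Set.mem_Iic]
      apply Nat.le_floor
      push_cast at h4
      have h5 : (t : ℝ) + h0 ≤ 2 ^ u * (t + h0) :=
        le_mul_of_one_le_left (by positivity) (one_le_pow₀ (by norm_num))
      have h6 := neg_abs_le (k : ℝ)
      have h7 : (0 : ℝ) ≤ h0 := Nat.cast_nonneg _
      linarith
    have hsub : ((S.image f : Finset ℕ) : Set ℕ) ⊆ {t : ℕ | 1 ≤ t ∧ ∀ h ∈ L,
        Rough δ (k + 2 ^ u * ((t + h : ℕ) : ℤ)) ∧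
        (((k + 2 ^ u * ((t + h : ℕ) : ℤ) : ℤ)) : ℝ) ≤ x} := by
      intro t ht
      rw [Finset.coe_image] at ht
      obtain ⟨m, hm, rfl⟩ := ht
      have hm' := Finset.mem_filter.1 (Finset.mem_coe.1 hm)
      have hmN := (Finset.mem_Ioc.1 hm'.1).2
      refine ⟨?_, fun h hh => ?_⟩
      · show 1 ≤ ν + Q * m
        have : 0 ≤ Q * m := Nat.zero_le _
        omega
      obtain ⟨h4, h5⟩ := patl_mem u w0 z Q m ν hu L k hk hQd hν hνp hm'.2 h hh
      have h6 : (((k + 2 ^ u * ((ν + Q * m + h : ℕ) : ℤ) : ℤ)) : ℝ) ≤ x := by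
        push_cast
        have h7 : (m : ℝ) ≤ N := by
          have : m ≤ N := by omega
          exact_mod_cast this
        have h8 : (h : ℝ) ≤ L.sum := by exact_mod_cast patl_le_sum L h hh
        have h9 : D * m ≤ x / 2 := by
          calc D * m ≤ D * (x / (2 * D)) := mul_le_mul_of_nonneg_left (h7.trans hN2) hD0.le
            _ = x / 2 := by field_simp
        have h10 : (k : ℝ) ≤ |(k : ℝ)| := le_abs_self _
        have h11 : (2 : ℝ) ^ u * (ν + Q * m + h) ≤ 2 ^ u * (ν + L.sum) + D * m := by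
          rw [hD]
          have h12 : (0 : ℝ) < 2 ^ u := by positivity
          nlinarith
        have h12 : B ≤ x / 2 := by linarith
        rw [hB] at h12
        linarith
      refine ⟨⟨h4, fun p hp hd => ?_⟩, h6⟩
      have h7 : z < p := h5 p hp hd
      have h8 : (((k + 2 ^ u * ((ν + Q * m + h : ℕ) : ℤ) : ℤ)) : ℝ) ^ δ ≤ x ^ δ := by
        apply Real.rpow_le_rpow _ h6 hδ0.le
        have h9 : (0 : ℤ) ≤ k + 2 ^ u * ((ν + Q * m + h : ℕ) : ℤ) := by linarith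
        exact_mod_cast h9
      have h9 : (z : ℝ) < p := by exact_mod_cast h7
      show (((k + 2 ^ u * ((ν + Q * m + h : ℕ) : ℤ) : ℤ)) : ℝ) ^ δ < p
      linarith
    have hcard : S.card ≤ ({t : ℕ | 1 ≤ t ∧ ∀ h ∈ L, Rough δ (k + 2 ^ u * ((t + h : ℕ) : ℤ)) ∧
        (((k + 2 ^ u * ((t + h : ℕ) : ℤ) : ℤ)) : ℝ) ≤ x}.ncard : ℕ) := by
      rw [← Finset.card_image_of_injective S hfi, ← Set.ncard_coe_finset]
      exact Set.ncard_le_ncard hsub hfin
    exact_mod_cast hcard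
  have hlz : 0 < Real.log z := Real.log_pos (by linarith)
  have hlx : Real.log z ≤ Real.log x := Real.log_le_log (by linarith) hz3
  calc c0 / (4 * D) * x / Real.log x ^ b ≤ c0 * N / Real.log x ^ b := by
        apply div_le_div_of_nonneg_right _ (pow_nonneg (hlz.le.trans hlx) b)
        calc c0 / (4 * D) * x = c0 * (x / (4 * D)) := by ring
          _ ≤ c0 * N := mul_le_mul_of_nonneg_left hN1 hc0.le
    _ ≤ c0 * N / Real.log z ^ b := by
        apply div_le_div_of_nonneg_left (by positivity) (by positivity)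
        exact pow_le_pow_left₀ hlz.le hlx b
    _ ≤ S.card := hS
    _ ≤ _ := hmain

end Pool.Agent.LAP
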