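import Pool.Agent.LAP.Defs
import Pool.Agent.Helper24.ResidueSieve
import Pool.Agent.BDT.FPow

/-! LAP/PatU (0.8h).  Upper bound sieve for constellations of rough numbers.

PLAN.  `b = |H|`, `H ⊆ [0, D]`.  Let `x ≥ X1` be large (for `2 ≤ x ≤ X1` the trivial bound `≤ x + 1` positions is enough:
the numbers `k + g (w + h)`, `h ∈ H` fixed, are distinct elements of `[2, x]`, so there are at most `x` such `w`; and
`x / log x ^ b ≥ x / log X1 ^ b`; for `x` near `2` note `0 < log 2 ≤ log x`; if `log x < 1` use `log x ^ b ≤ max 1 ..`).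
Split the set: (i) the `w` for which some `k + g (w + h) < sqrt x`: at most `b * sqrt x` of them.  (ii) all values are `≥ sqrt x`:
every prime factor of them is `> x ^ (δ/2)`.  Let `Y = ⌊x ^ η⌋` with `η = min (δ/2) (1/12)` (so `Y ^ 6 ≤ sqrt x`), and let `Ω ℓ`, for a prime
`ℓ ≤ Y` with `ℓ > P0 := max of D + 1, g, b`, be the set of the residues `c < ℓ` with `ℓ ∣ k + g (c + h)` for some `h ∈ H`
(exactly `b` residues: `g` invertible, the `h` distinct mod `ℓ`), `Ω ℓ = ∅` for the other `ℓ`.  The `w` of (ii) lie in an interval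
`Ioc A (A + M)` with `M ≤ x / g + 1 ≤ x + 1` (as `2 ≤ k + g (w + h0) ≤ x` for a fixed `h0 ∈ H`).
`Helper24.residue_sieve`: the number is `≤ M / G + Y ^ 6`, `G = ∑_{l ≤ Y squarefree} hterm Ω l`,
`hterm Ω l = ∏_{ℓ ∣ l} b/(ℓ - b)` (`0` if `l` has a prime factor `≤ P0`).  `BDT.fsum_pow` with `y = ⌊Y ^ (1/b)⌋`, `j = b`:
`(log y) ^ b ≤ 2 ^ b * Fsum (y ^ b) (fun p => if p ≤ y then (1 + 1/p) ^ b - 1 else 0)`, and for `p > b`
`(1 + 1/p) ^ b - 1 ≤ b/(p - b)` (because `(1 + 1/p) ^ b ≤ exp (b/p) ≤ 1/(1 - b/p)`).  The finitely many primes `≤ P0` are removed at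
the cost of a constant factor (`Helper24.Fsum_step`, `Helper24.Fsum_add_le` in Helper24/SieveDensity.lean, or directly:
`Fsum Y g ≤ (∏_{p ≤ P0} (1 + g p)) * Fsum Y (g restricted to p > P0)`).  So `G ≥ c (log x) ^ b`, `c > 0` depending on
`b, D, g, δ` only. -/

set_option autoImplicit false

namespace Pool.Agent.LAP

open Finset in
private theorem patu_card (k : ℤ) (g h : ℕ) (hg : 0 < g) (B : ℝ) (hB : 0 ≤ B) (T : Finset ℕ)
    (hT : ∀ w ∈ T, 2 ≤ k + g * ((w + h : ℕ) : ℤ) ∧ (((k + g * ((w + h : ℕ) : ℤ) : ℤ)) : ℝ) ≤ B) :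
    (T.card : ℝ) ≤ B := by
  have h1 : T.card ≤ (Finset.Icc 1 ⌊B⌋₊).card := by
    apply Finset.card_le_card_of_injOn (fun w => (k + g * ((w + h : ℕ) : ℤ)).toNat)
    · intro w hw
      obtain ⟨h2, h3⟩ := hT w hw
      rw [Finset.mem_coe, Finset.mem_Icc]
      show 1 ≤ (k + g * ((w + h : ℕ) : ℤ)).toNat ∧ (k + g * ((w + h : ℕ) : ℤ)).toNat ≤ ⌊B⌋₊
      refine ⟨by omega, ?_⟩
      apply Nat.le_floor
      have h4 : (((k + g * ((w + h : ℕ) : ℤ)).toNat : ℕ) : ℝ) = ((k + g * ((w + h : ℕ) : ℤ) : ℤ) : ℝ) := by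
        have : (((k + g * ((w + h : ℕ) : ℤ)).toNat : ℕ) : ℤ) = k + g * ((w + h : ℕ) : ℤ) := by
          apply Int.toNat_of_nonneg
          omega
        exact_mod_cast this
      rw [h4]
      exact h3
    · intro a ha b hb hab
      obtain ⟨h2, _⟩ := hT a ha
      obtain ⟨h3, _⟩ := hT b hb
      have h4 : k + g * ((a + h : ℕ) : ℤ) = k + g * ((b + h : ℕ) : ℤ) := by
        have e : (k + g * ((a + h : ℕ) : ℤ)).toNat = (k + g * ((b + h : ℕ) : ℤ)).toNat := hab
        omega
      have h5 : (g : ℤ) * ((a + h : ℕ) : ℤ) = g * ((b + h : ℕ) : ℤ) := by linarith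
      have h6 : ((a + h : ℕ) : ℤ) = ((b + h : ℕ) : ℤ) :=
        mul_left_cancel₀ (by exact_mod_cast hg.ne') h5
      omega
  rw [Nat.card_Icc] at h1
  have h2 : (T.card : ℝ) ≤ (⌊B⌋₊ : ℝ) := by
    have : T.card ≤ ⌊B⌋₊ := by omega
    exact_mod_cast this
  exact h2.trans (Nat.floor_le hB)

private theorem patu_bern (b p : ℕ) (hbp : b < p) :
    (1 + 1 / (p : ℝ)) ^ b - 1 ≤ (b : ℝ) / ((p : ℝ) - b) := by
  have hp : (0 : ℝ) < p := by
    have : 0 < p := by omega
    exact_mod_cast this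
  have hbp' : (b : ℝ) < p := by exact_mod_cast hbp
  have hsub : (0 : ℝ) < (p : ℝ) - b := by linarith
  have h1p : 1 / (p : ℝ) ≤ 1 := by
    rw [div_le_one hp]
    have : 1 ≤ p := by omega
    exact_mod_cast this
  have hinv : (0 : ℝ) < 1 / (p : ℝ) := by positivity
  have hB : 1 - (b : ℝ) / p ≤ (1 - 1 / (p : ℝ)) ^ b := by
    have h := one_add_mul_le_pow (a := -(1 / (p : ℝ))) (by linarith) b
    have e1 : 1 + (b : ℝ) * -(1 / (p : ℝ)) = 1 - (b : ℝ) / p := by ring
    have e2 : (1 : ℝ) + -(1 / (p : ℝ)) = 1 - 1 / (p : ℝ) := by ring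
    rw [e1, e2] at h
    exact h
  have hprod : (1 + 1 / (p : ℝ)) ^ b * (1 - 1 / (p : ℝ)) ^ b ≤ 1 := by
    rw [← mul_pow]
    apply pow_le_one₀
    · apply mul_nonneg
      · linarith
      · linarith
    · nlinarith
  have hq : (1 + 1 / (p : ℝ)) ^ b * (1 - (b : ℝ) / p) ≤ 1 := by
    refine le_trans (mul_le_mul_of_nonneg_left hB (by positivity)) hprod
  have hq2 : (1 + 1 / (p : ℝ)) ^ b * ((p : ℝ) - b) ≤ p := by
    have e : (1 + 1 / (p : ℝ)) ^ b * ((p : ℝ) - b) = ((1 + 1 / (p : ℝ)) ^ b * (1 - (b : ℝ) / p)) * p := by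
      field_simp
    rw [e]
    calc ((1 + 1 / (p : ℝ)) ^ b * (1 - (b : ℝ) / p)) * p ≤ 1 * p :=
          mul_le_mul_of_nonneg_right hq hp.le
      _ = p := one_mul _
  rw [le_div_iff₀ hsub]
  nlinarith

/-- the densities and the lower bound for the sieve sum -/
private theorem patu_G (b P0 : ℕ) (hb : b ≤ P0) :
    ∃ C1 : ℝ, 0 < C1 ∧ ∀ (y Y : ℕ), 1 ≤ y → y ^ b ≤ Y →
      (Real.log y) ^ b ≤ C1 * Helper24.Fsum Y (fun p => if P0 < p ∧ p.Prime then (b : ℝ) / ((p : ℝ) - b) else 0) := by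
  classical
  obtain ⟨S, hS⟩ : ∃ S : Finset ℕ, S = (Finset.range (P0 + 1)).filter Nat.Prime := ⟨_, rfl⟩
  have hSp : ∀ p ∈ S, p.Prime := by
    intro p hp
    rw [hS, Finset.mem_filter] at hp
    exact hp.2
  have hu : ∀ p : ℕ, 0 ≤ (1 + 1 / (p : ℝ)) ^ b - 1 := by
    intro p
    have h1 : (1 : ℝ) ≤ (1 + 1 / (p : ℝ)) ^ b := by
      apply one_le_pow₀
      have : (0 : ℝ) ≤ 1 / (p : ℝ) := by positivity
      linarith
    linarith
  have hP : 0 < ∏ p ∈ S, (1 + ((1 + 1 / (p : ℝ)) ^ b - 1)) := by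
    apply Finset.prod_pos
    intro p _
    have := hu p
    linarith
  refine ⟨2 ^ b * ∏ p ∈ S, (1 + ((1 + 1 / (p : ℝ)) ^ b - 1)), by positivity, ?_⟩
  intro y Y hy hyY
  have hg0 : ∀ p, p.Prime → p ≤ Y → (0 : ℝ) ≤
      (fun p : ℕ => if P0 < p ∧ p.Prime then (b : ℝ) / ((p : ℝ) - b) else 0) p := by
    intro p _ _
    show (0 : ℝ) ≤ if P0 < p ∧ p.Prime then (b : ℝ) / ((p : ℝ) - b) else 0
    split_ifs with h
    · have : (b : ℝ) < p := by exact_mod_cast (lt_of_le_of_lt hb h.1)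
      apply div_nonneg (by positivity)
      linarith
    · exact le_refl _
  have hf0 : ∀ p : ℕ, (0 : ℝ) ≤ if p ≤ y then (1 + 1 / (p : ℝ)) ^ b - 1 else 0 := by
    intro p
    split_ifs
    · exact hu p
    · exact le_refl _
  have h1 := BDT.fsum_pow y b hy
  have h2 : Helper24.Fsum (y ^ b) (fun p => if p ≤ y then (1 + 1 / (p : ℝ)) ^ b - 1 else 0) ≤
      Helper24.Fsum Y (fun p => if p ≤ y then (1 + 1 / (p : ℝ)) ^ b - 1 else 0) := by
    unfold Helper24.Fsum
    apply Finset.sum_le_sum_of_subset_of_nonneg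
    · intro l hl
      rw [Helper24.mem_sqf] at hl ⊢
      exact ⟨⟨hl.1.1, hl.1.2.trans hyY⟩, hl.2⟩
    · intro l _ _
      exact Finset.prod_nonneg fun p _ => hf0 p
  have h3 : Helper24.Fsum Y (fun p => if p ≤ y then (1 + 1 / (p : ℝ)) ^ b - 1 else 0) ≤
      Helper24.Fsum Y (fun p => (fun p : ℕ => if P0 < p ∧ p.Prime then (b : ℝ) / ((p : ℝ) - b) else 0) p +
        if p ∈ S then (fun p : ℕ => (1 + 1 / (p : ℝ)) ^ b - 1) p else 0) := by
    apply Helper24.Fsum_mono
    · intro p _ _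
      exact hf0 p
    · intro p hp hpY
      show (if p ≤ y then (1 + 1 / (p : ℝ)) ^ b - 1 else 0) ≤
        (if P0 < p ∧ p.Prime then (b : ℝ) / ((p : ℝ) - b) else 0) +
          if p ∈ S then (1 + 1 / (p : ℝ)) ^ b - 1 else 0
      by_cases hp0 : P0 < p
      · have hpS : p ∉ S := by
          rw [hS, Finset.mem_filter, Finset.mem_range]
          rintro ⟨h, _⟩
          omega
        rw [if_pos (show P0 < p ∧ p.Prime from ⟨hp0, hp⟩), if_neg hpS, add_zero]
        have hbn := patu_bern b p (by omega)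
        split_ifs
        · exact hbn
        · exact (hu p).trans hbn
      · have hpS : p ∈ S := by
          rw [hS, Finset.mem_filter, Finset.mem_range]
          exact ⟨by omega, hp⟩
        rw [if_neg (show ¬ (P0 < p ∧ p.Prime) from fun h => hp0 h.1), if_pos hpS, zero_add]
        split_ifs
        · exact le_refl _
        · exact hu p
  have h4 := Helper24.Fsum_add_le Y hg0 S hSp (fun p : ℕ => (1 + 1 / (p : ℝ)) ^ b - 1) (fun p _ => hu p)
  have h5 : (0 : ℝ) ≤ 2 ^ b := by positivity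
  calc (Real.log y) ^ b ≤ 2 ^ b * Helper24.Fsum (y ^ b) (fun p => if p ≤ y then (1 + 1 / (p : ℝ)) ^ b - 1 else 0) := h1
    _ ≤ 2 ^ b * ((∏ p ∈ S, (1 + ((1 + 1 / (p : ℝ)) ^ b - 1))) *
          Helper24.Fsum Y (fun p => if P0 < p ∧ p.Prime then (b : ℝ) / ((p : ℝ) - b) else 0)) := by
        apply mul_le_mul_of_nonneg_left _ h5
        exact h2.trans (h3.trans h4)
    _ = _ := by ring

theorem pat_count (g : ℕ) (hg : 0 < g) (δ : ℝ) (hδ : 0 < δ) (hδ1 : δ < 1) (H : Finset ℕ) (hH : H.Nonempty) :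
    ∃ C : ℝ, 0 < C ∧ ∀ (k : ℤ) (x : ℝ), 2 ≤ x →
      (({w : ℕ | ∀ h ∈ H, Rough δ (k + g * ((w + h : ℕ) : ℤ)) ∧
        (((k + g * ((w + h : ℕ) : ℤ) : ℤ)) : ℝ) ≤ x}.ncard : ℕ) : ℝ) ≤ C * x / Real.log x ^ H.card := by
  classical
  obtain ⟨h0, hh0⟩ := hH
  obtain ⟨b, hb⟩ : ∃ b, b = H.card := ⟨_, rfl⟩
  have hb1 : 1 ≤ b := by
    rw [hb]
    exact Finset.card_pos.2 ⟨h0, hh0⟩
  have hbr : (1 : ℝ) ≤ b := by exact_mod_cast hb1
  have hb0 : (0 : ℝ) < b := by linarith
  rw [← hb]
  obtain ⟨P0, hP0⟩ : ∃ P0 : ℕ, P0 = b + g + H.sup id := ⟨_, rfl⟩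
  have hHP : ∀ h ∈ H, h ≤ P0 := by
    intro h hh
    have : id h ≤ H.sup id := Finset.le_sup hh
    rw [id] at this
    omega
  obtain ⟨C1, hC1, hG⟩ := patu_G b P0 (by omega)
  obtain ⟨η, hη⟩ : ∃ η : ℝ, η = min (δ / 2) (1 / 12) := ⟨_, rfl⟩
  have hη0 : 0 < η := by
    rw [hη]
    apply lt_min
    · linarith
    · norm_num
  have hηδ : η ≤ δ / 2 := by rw [hη]; exact min_le_left _ _
  have hη12 : η ≤ 1 / 12 := by rw [hη]; exact min_le_right _ _
  -- the threshold
  obtain ⟨X1, hX1⟩ : ∃ X1 : ℝ, X1 = Real.exp (2 * b / η * Real.log 2) := ⟨_, rfl⟩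
  obtain ⟨K, hK⟩ : ∃ K : ℝ, K = C1 / (η / (2 * b)) ^ b := ⟨_, rfl⟩
  have hK0 : 0 < K := by rw [hK]; positivity
  have hlog2 : 0 < Real.log 2 := Real.log_pos (by norm_num)
  have hX1l : Real.log X1 = 2 * b / η * Real.log 2 := by rw [hX1, Real.log_exp]
  have hX1l0 : 0 < Real.log X1 := by rw [hX1l]; positivity
  refine ⟨(Real.log X1) ^ b + (b + 2) * (2 * b) ^ b + K, by positivity, ?_⟩
  intro k x hx
  have hx0 : 0 < x := by linarith
  have hx1 : 1 ≤ x := by linarith
  have hlx : 0 < Real.log x := Real.log_pos (by linarith)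
  have hlxb : 0 < Real.log x ^ b := by positivity
  -- the finite set
  obtain ⟨T, hT⟩ : ∃ T : Finset ℕ, T = (Finset.range (⌈x⌉₊ + k.natAbs + 1)).filter
      (fun w => ∀ h ∈ H, Rough δ (k + g * ((w + h : ℕ) : ℤ)) ∧
        (((k + g * ((w + h : ℕ) : ℤ) : ℤ)) : ℝ) ≤ x) := ⟨_, rfl⟩
  have hset : {w : ℕ | ∀ h ∈ H, Rough δ (k + g * ((w + h : ℕ) : ℤ)) ∧
        (((k + g * ((w + h : ℕ) : ℤ) : ℤ)) : ℝ) ≤ x} = (T : Set ℕ) := by
    ext w
    rw [Set.mem_ofPred_eq, hT, Finset.mem_coe, Finset.mem_filter, Finset.mem_range]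
    constructor
    · intro hw
      refine ⟨?_, hw⟩
      have h1 := (hw h0 hh0).2
      have h2 : (k + g * ((w + h0 : ℕ) : ℤ)) ≤ (⌈x⌉₊ : ℤ) := by
        have h3 : ((k + g * ((w + h0 : ℕ) : ℤ) : ℤ) : ℝ) ≤ ((⌈x⌉₊ : ℕ) : ℝ) := h1.trans (Nat.le_ceil x)
        exact_mod_cast h3
      have h4 : ((w : ℕ) : ℤ) ≤ g * ((w + h0 : ℕ) : ℤ) := by
        have h5 : w ≤ g * (w + h0) := by
          calc w ≤ w + h0 := Nat.le_add_right _ _
            _ = 1 * (w + h0) := (one_mul _).symm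
            _ ≤ g * (w + h0) := Nat.mul_le_mul_right _ hg
        exact_mod_cast h5
      have h6 : -(k.natAbs : ℤ) ≤ k := by omega
      omega
    · intro hw
      exact hw.2
  rw [hset, Set.ncard_coe_finset]
  have hTm : ∀ w ∈ T, ∀ h ∈ H, Rough δ (k + g * ((w + h : ℕ) : ℤ)) ∧
        (((k + g * ((w + h : ℕ) : ℤ) : ℤ)) : ℝ) ≤ x := by
    intro w hw
    rw [hT, Finset.mem_filter] at hw
    exact hw.2
  have htriv : (T.card : ℝ) ≤ x :=
    patu_card k g h0 hg x hx0.le T fun w hw => ⟨(hTm w hw h0 hh0).1.1, (hTm w hw h0 hh0).2⟩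
  have hCpos1 : 0 ≤ (b + 2 : ℝ) * (2 * b) ^ b := by positivity
  have hCpos2 : 0 ≤ (Real.log X1) ^ b := by positivity
  by_cases hxX : x < X1
  · -- small x
    have h1 : Real.log x ≤ Real.log X1 := Real.log_le_log hx0 hxX.le
    have h2 : Real.log x ^ b ≤ Real.log X1 ^ b := pow_le_pow_left₀ hlx.le h1 b
    rw [le_div_iff₀ hlxb]
    calc (T.card : ℝ) * Real.log x ^ b ≤ x * Real.log X1 ^ b :=
          mul_le_mul htriv h2 hlxb.le hx0.le
      _ = Real.log X1 ^ b * x := mul_comm _ _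
      _ ≤ _ := by
          apply mul_le_mul_of_nonneg_right _ hx0.le
          linarith
  · push Not at hxX
    have hlX : Real.log X1 ≤ Real.log x := by
      apply Real.log_le_log _ hxX
      rw [hX1]; exact Real.exp_pos _
    -- square root
    obtain ⟨s, hs⟩ : ∃ s : ℝ, s = Real.sqrt x := ⟨_, rfl⟩
    have hs1 : 1 ≤ s := by
      rw [hs, Real.one_le_sqrt]
      exact hx1
    have hs0 : 0 < s := by linarith
    have hss : s * s = x := by rw [hs]; exact Real.mul_self_sqrt hx0.le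
    have hsrt : s = x ^ (1 / 2 : ℝ) := by rw [hs, Real.sqrt_eq_rpow]
    have hsx : s * Real.log x ^ b ≤ (2 * b) ^ b * x := by
      have h1 : Real.log x ≤ x ^ (1 / (2 * b) : ℝ) / (1 / (2 * b)) :=
        Real.log_le_rpow_div hx0.le (by positivity)
      have h2 : Real.log x ^ b ≤ (x ^ (1 / (2 * b) : ℝ) / (1 / (2 * b))) ^ b := pow_le_pow_left₀ hlx.le h1 b
      have h3 : (x ^ (1 / (2 * b) : ℝ) / (1 / (2 * b))) ^ b = (2 * b) ^ b * s := by
        rw [div_pow, ← Real.rpow_natCast (x ^ (1 / (2 * b) : ℝ)) b, ← Real.rpow_mul hx0.le]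
        have e1 : (1 / (2 * b) * b : ℝ) = 1 / 2 := by field_simp
        rw [e1, ← hsrt]
        rw [one_div, inv_pow, div_inv_eq_mul, mul_comm]
      rw [h3] at h2
      calc s * Real.log x ^ b ≤ s * ((2 * b) ^ b * s) := mul_le_mul_of_nonneg_left h2 hs0.le
        _ = (2 * b) ^ b * (s * s) := by ring
        _ = _ := by rw [hss]
    -- the positions with a small value
    obtain ⟨T1, hT1⟩ : ∃ T1 : Finset ℕ, T1 = T.filter (fun w => ∃ h ∈ H, (((k + g * ((w + h : ℕ) : ℤ) : ℤ)) : ℝ) ≤ s) := ⟨_, rfl⟩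
    obtain ⟨T2, hT2⟩ : ∃ T2 : Finset ℕ, T2 = T.filter (fun w => ¬ ∃ h ∈ H, (((k + g * ((w + h : ℕ) : ℤ) : ℤ)) : ℝ) ≤ s) := ⟨_, rfl⟩
    have hT12 : T.card = T1.card + T2.card := by
      rw [hT1, hT2, Finset.card_filter_add_card_filter_not]
    have hT1c : (T1.card : ℝ) ≤ b * s := by
      have h1 : T1 ⊆ H.biUnion (fun h => T.filter (fun w => (((k + g * ((w + h : ℕ) : ℤ) : ℤ)) : ℝ) ≤ s)) := by
        intro w hw
        rw [hT1, Finset.mem_filter] at hw
        obtain ⟨hw1, h, hh, hw2⟩ := hw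
        rw [Finset.mem_biUnion]
        exact ⟨h, hh, Finset.mem_filter.2 ⟨hw1, hw2⟩⟩
      have h2 : (T1.card : ℝ) ≤ ∑ h ∈ H, ((T.filter (fun w => (((k + g * ((w + h : ℕ) : ℤ) : ℤ)) : ℝ) ≤ s)).card : ℝ) := by
        have h3 := (Finset.card_le_card h1).trans Finset.card_biUnion_le
        exact_mod_cast h3
      refine h2.trans ?_
      have h4 : ∑ h ∈ H, ((T.filter (fun w => (((k + g * ((w + h : ℕ) : ℤ) : ℤ)) : ℝ) ≤ s)).card : ℝ) ≤
          ∑ h ∈ H, s := by
        apply Finset.sum_le_sum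
        intro h hh
        apply patu_card k g h hg s hs0.le
        intro w hw
        rw [Finset.mem_filter] at hw
        exact ⟨(hTm w hw.1 h hh).1.1, hw.2⟩
      refine h4.trans ?_
      rw [Finset.sum_const, nsmul_eq_mul, ← hb]
    -- the sieve
    obtain ⟨Y, hY⟩ : ∃ Y : ℕ, Y = ⌊x ^ η⌋₊ := ⟨_, rfl⟩
    have hxη1 : 1 ≤ x ^ η := Real.one_le_rpow hx1 hη0.le
    have hYle : (Y : ℝ) ≤ x ^ η := by
      rw [hY]
      exact Nat.floor_le (by positivity)
    have hY1 : 1 ≤ Y := by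
      rw [hY]
      apply Nat.le_floor
      rw [Nat.cast_one]
      exact hxη1
    have hY6 : (Y : ℝ) ^ 6 ≤ s := by
      have h1 : (Y : ℝ) ^ 6 ≤ (x ^ η) ^ 6 := pow_le_pow_left₀ (by positivity) hYle 6
      refine h1.trans ?_
      rw [← Real.rpow_natCast (x ^ η) 6, ← Real.rpow_mul hx0.le, hsrt]
      apply Real.rpow_le_rpow_of_exponent_le hx1
      push_cast
      linarith
    have hYδ : (Y : ℝ) ≤ s ^ δ := by
      refine hYle.trans ?_
      rw [hsrt, ← Real.rpow_mul hx0.le]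
      apply Real.rpow_le_rpow_of_exponent_le hx1
      linarith
    obtain ⟨Ω, hΩ⟩ : ∃ Ω : ℕ → Finset ℕ, ∀ p, Ω p = if P0 < p ∧ p.Prime then
        H.image (fun h : ℕ => (-(k : ZMod p) * (g : ZMod p)⁻¹ - (h : ZMod p)).val) else ∅ := ⟨_, fun _ => rfl⟩
    have hΩc : ∀ p, P0 < p ∧ p.Prime → (Ω p).card = b := by
      intro p hp
      have : NeZero p := ⟨hp.2.ne_zero⟩
      rw [hΩ, if_pos hp, Finset.card_image_of_injOn, hb]
      intro a ha a' ha' haa
      have h1 : (-(k : ZMod p) * (g : ZMod p)⁻¹ - (a : ZMod p)) = (-(k : ZMod p) * (g : ZMod p)⁻¹ - (a' : ZMod p)) :=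
        ZMod.val_injective p haa
      have h2 : (a : ZMod p) = (a' : ZMod p) := by
        have := sub_right_injective h1
        exact this
      have h3 : a % p = a' % p := (ZMod.natCast_eq_natCast_iff' a a' p).1 h2
      have h4 := hHP a ha
      have h5 := hHP a' ha'
      rw [Nat.mod_eq_of_lt (by omega), Nat.mod_eq_of_lt (by omega)] at h3
      exact h3
    have hΩe : ∀ p, ¬ (P0 < p ∧ p.Prime) → Ω p = ∅ := by
      intro p hp
      rw [hΩ, if_neg hp]
    have hΩ1 : ∀ p, Nat.Prime p → p ≤ Y → (∀ c ∈ Ω p, c < p) ∧ (Ω p).card < p := by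
      intro p hp _
      by_cases hpp : P0 < p ∧ p.Prime
      · refine ⟨?_, ?_⟩
        · intro c hc
          rw [hΩ, if_pos hpp, Finset.mem_image] at hc
          obtain ⟨h, _, rfl⟩ := hc
          have : NeZero p := ⟨hp.ne_zero⟩
          exact ZMod.val_lt _
        · rw [hΩc p hpp]
          omega
      · rw [hΩe p hpp]
        refine ⟨by simp, ?_⟩
        rw [Finset.card_empty]
        exact hp.pos
    have hsieve : ∀ w ∈ T2, ∀ p, Nat.Prime p → p ≤ Y → w % p ∉ Ω p := by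
      intro w hw p hp hpY hmem
      by_cases hpp : P0 < p ∧ p.Prime
      · have : NeZero p := ⟨hp.ne_zero⟩
        have : Fact p.Prime := ⟨hp⟩
        rw [hΩ, if_pos hpp, Finset.mem_image] at hmem
        obtain ⟨h, hh, hval⟩ := hmem
        have h1 : (-(k : ZMod p) * (g : ZMod p)⁻¹ - (h : ZMod p)) = (w : ZMod p) := by
          have h2 := congrArg (fun n : ℕ => (n : ZMod p)) hval
          simp only [ZMod.natCast_zmod_val] at h2
          rw [h2, ZMod.natCast_mod]
        have hgp : (g : ZMod p) ≠ 0 := by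
          intro h2
          rw [ZMod.natCast_eq_zero_iff] at h2
          have := Nat.le_of_dvd hg h2
          omega
        have h2 : ((k + g * ((w + h : ℕ) : ℤ) : ℤ) : ZMod p) = 0 := by
          push_cast
          rw [← h1]
          have e : (k : ZMod p) + g * (-(k : ZMod p) * (g : ZMod p)⁻¹ - h + h) =
              k - k * ((g : ZMod p) * (g : ZMod p)⁻¹) := by ring
          rw [e, mul_inv_cancel₀ hgp]
          ring
        have h3 : (p : ℤ) ∣ k + g * ((w + h : ℕ) : ℤ) := (ZMod.intCast_zmod_eq_zero_iff_dvd _ p).1 h2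
        rw [hT2, Finset.mem_filter] at hw
        obtain ⟨hwT, hw2⟩ := hw
        push Not at hw2
        have h4 := (hTm w hwT h hh).1.2 p hp h3
        have h5 := hw2 h hh
        have h6 : s ^ δ ≤ ((k + g * ((w + h : ℕ) : ℤ) : ℤ) : ℝ) ^ δ :=
          Real.rpow_le_rpow hs0.le h5.le hδ.le
        have h7 : (p : ℝ) ≤ Y := by exact_mod_cast hpY
        linarith
      · rw [hΩe p hpp] at hmem
        simp at hmem
    -- the sieve sum
    have hsum : (∑ l ∈ (Finset.Icc 1 Y).filter Squarefree, Helper24.hterm Ω l) =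
        Helper24.Fsum Y (fun p => if P0 < p ∧ p.Prime then (b : ℝ) / ((p : ℝ) - b) else 0) := by
      unfold Helper24.Fsum Helper24.sqf Helper24.hterm
      apply Finset.sum_congr rfl
      intro l _
      apply Finset.prod_congr rfl
      intro p _
      show ((Ω p).card : ℝ) / ((p : ℝ) - (Ω p).card) = if P0 < p ∧ p.Prime then (b : ℝ) / ((p : ℝ) - b) else 0
      by_cases hpp : P0 < p ∧ p.Prime
      · rw [hΩc p hpp, if_pos hpp]
      · rw [hΩe p hpp, if_neg hpp, Finset.card_empty, Nat.cast_zero, zero_div]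
    obtain ⟨y, hy⟩ : ∃ y : ℕ, y = ⌊x ^ (η / b)⌋₊ := ⟨_, rfl⟩
    have hxy1 : 1 ≤ x ^ (η / b) := Real.one_le_rpow hx1 (by positivity)
    have hy1 : 1 ≤ y := by
      rw [hy]
      apply Nat.le_floor
      rw [Nat.cast_one]
      exact hxy1
    have hyle : (y : ℝ) ≤ x ^ (η / b) := by
      rw [hy]
      exact Nat.floor_le (by positivity)
    have hyY : y ^ b ≤ Y := by
      rw [hY]
      apply Nat.le_floor
      push_cast
      refine (pow_le_pow_left₀ (by positivity) hyle b).trans ?_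
      rw [← Real.rpow_natCast (x ^ (η / b)) b, ← Real.rpow_mul hx0.le, div_mul_cancel₀ _ hb0.ne']
    have hlogy : η / (2 * b) * Real.log x ≤ Real.log y := by
      have h1 : x ^ (η / b) < y + 1 := by
        rw [hy]
        exact Nat.lt_floor_add_one _
      have h2 : x ^ (η / b) ≤ 2 * y := by
        have : (1 : ℝ) ≤ y := by exact_mod_cast hy1
        linarith
      have h3 : η / b * Real.log x ≤ Real.log 2 + Real.log y := by
        rw [← Real.log_rpow hx0, ← Real.log_mul (by norm_num) (by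
          have : 0 < y := by omega
          exact_mod_cast this.ne')]
        exact Real.log_le_log (by positivity) h2
      have h4 : Real.log 2 ≤ η / (2 * b) * Real.log x := by
        have h5 : Real.log 2 = η / (2 * b) * Real.log X1 := by
          rw [hX1l]
          field_simp
        rw [h5]
        apply mul_le_mul_of_nonneg_left hlX (by positivity)
      have h6 : η / b * Real.log x = 2 * (η / (2 * b) * Real.log x) := by
        field_simp
      linarith
    obtain ⟨Gs, hGs⟩ : ∃ Gs : ℝ, Gs = Helper24.Fsum Y (fun p => if P0 < p ∧ p.Prime then (b : ℝ) / ((p : ℝ) - b) else 0) := ⟨_, rfl⟩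
    have hGl : (η / (2 * b)) ^ b * Real.log x ^ b ≤ C1 * Gs := by
      rw [← mul_pow, hGs]
      refine le_trans ?_ (hG y Y hy1 hyY)
      exact pow_le_pow_left₀ (by positivity) hlogy b
    have hGpos : 0 < Gs := by
      have h1 : 0 < (η / (2 * b)) ^ b * Real.log x ^ b := by positivity
      have h2 : 0 < C1 * Gs := lt_of_lt_of_le h1 hGl
      exact (mul_pos_iff_of_pos_left hC1).1 h2
    have hxG : x / Gs ≤ K * x / Real.log x ^ b := by
      rw [div_le_div_iff₀ hGpos hlxb, hK]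
      have h1 : (0 : ℝ) < (η / (2 * b)) ^ b := by positivity
      have h2 : Real.log x ^ b ≤ C1 / (η / (2 * b)) ^ b * Gs := by
        rw [div_mul_eq_mul_div, le_div_iff₀ h1, mul_comm]
        exact hGl
      calc x * Real.log x ^ b ≤ x * (C1 / (η / (2 * b)) ^ b * Gs) := mul_le_mul_of_nonneg_left h2 hx0.le
        _ = _ := by ring
    have hT2c : (T2.card : ℝ) ≤ 1 + x / Gs + s := by
      obtain ⟨B, hB⟩ : ∃ B : Finset ℕ, B = T2.erase 0 := ⟨_, rfl⟩
      have hBc : T2.card ≤ B.card + 1 := by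
        rw [hB]
        have := Finset.pred_card_le_card_erase (s := T2) (a := 0)
        omega
      have hBc' : (T2.card : ℝ) ≤ B.card + 1 := by exact_mod_cast hBc
      have hxGs : 0 ≤ x / Gs := by positivity
      by_cases hBe : B.Nonempty
      · obtain ⟨w0, hw0, hmin⟩ := Finset.exists_min_image B id hBe
        have hw0' : w0 ≠ 0 ∧ w0 ∈ T2 := by
          rw [hB, Finset.mem_erase] at hw0
          exact hw0
        have hsub : B ⊆ Finset.Ioc (w0 - 1) (w0 - 1 + ⌊x⌋₊) := by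
          intro w hw
          have hw' : w ≠ 0 ∧ w ∈ T2 := by
            rw [hB, Finset.mem_erase] at hw
            exact hw
          have h1 : w0 ≤ w := hmin w hw
          have h0pos : 0 < w0 := Nat.pos_of_ne_zero hw0'.1
          rw [Finset.mem_Ioc]
          refine ⟨by omega, ?_⟩
          have hwT : w ∈ T := by
            have := hw'.2
            rw [hT2, Finset.mem_filter] at this
            exact this.1
          have hw0T : w0 ∈ T := by
            have := hw0'.2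
            rw [hT2, Finset.mem_filter] at this
            exact this.1
          have h2 := (hTm w hwT h0 hh0).2
          have h3 := (hTm w0 hw0T h0 hh0).1.1
          have h4 : ((k + g * ((w + h0 : ℕ) : ℤ)).toNat) ≤ ⌊x⌋₊ := by
            apply Nat.le_floor
            have h5 : 0 ≤ k + g * ((w + h0 : ℕ) : ℤ) := by
              have := (hTm w hwT h0 hh0).1.1
              omega
            have h6 : (((k + g * ((w + h0 : ℕ) : ℤ)).toNat : ℕ) : ℝ) = ((k + g * ((w + h0 : ℕ) : ℤ) : ℤ) : ℝ) := by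
              have : (((k + g * ((w + h0 : ℕ) : ℤ)).toNat : ℕ) : ℤ) = k + g * ((w + h0 : ℕ) : ℤ) :=
                Int.toNat_of_nonneg h5
              exact_mod_cast this
            rw [h6]
            exact h2
          have h7 : k + g * ((w + h0 : ℕ) : ℤ) = (k + g * ((w0 + h0 : ℕ) : ℤ)) + g * ((w - w0 : ℕ) : ℤ) := by
            have : ((w - w0 : ℕ) : ℤ) = (w : ℤ) - w0 := by omega
            rw [this]
            push_cast
            ring
          have h8 : ((w - w0 : ℕ) : ℤ) ≤ g * ((w - w0 : ℕ) : ℤ) := by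
            have : (w - w0) ≤ g * (w - w0) := by
              calc (w - w0) = 1 * (w - w0) := (one_mul _).symm
                _ ≤ g * (w - w0) := Nat.mul_le_mul_right _ hg
            exact_mod_cast this
          omega
        have hres := Helper24.residue_sieve (Y := Y) (Ω := Ω) hY1 hΩ1 B hsub (by
          intro m hm p hp hpY
          have hm' : m ∈ T2 := by
            rw [hB, Finset.mem_erase] at hm
            exact hm.2
          exact hsieve m hm' p hp hpY)
        rw [hsum, ← hGs] at hres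
        have hfl : ((⌊x⌋₊ : ℕ) : ℝ) / Gs ≤ x / Gs := by
          apply div_le_div_of_nonneg_right (Nat.floor_le hx0.le) hGpos.le
        linarith
      · rw [Finset.not_nonempty_iff_eq_empty] at hBe
        rw [hBe, Finset.card_empty] at hBc'
        push_cast at hBc'
        linarith
    -- conclusion
    have htot : (T.card : ℝ) ≤ b * s + (1 + x / Gs + s) := by
      have : (T.card : ℝ) = T1.card + T2.card := by exact_mod_cast hT12
      rw [this]
      exact add_le_add hT1c hT2c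
    have htot2 : (T.card : ℝ) ≤ (b + 2) * s + K * x / Real.log x ^ b := by
      have : b * s + (1 + x / Gs + s) ≤ (b + 2) * s + K * x / Real.log x ^ b := by
        have e : (b + 2 : ℝ) * s = b * s + s + s := by ring
        rw [e]
        linarith
      exact htot.trans this
    rw [le_div_iff₀ hlxb]
    have h1 : ((b + 2) * s + K * x / Real.log x ^ b) * Real.log x ^ b =
        (b + 2) * (s * Real.log x ^ b) + K * x := by
      field_simp
    calc (T.card : ℝ) * Real.log x ^ b ≤ ((b + 2) * s + K * x / Real.log x ^ b) * Real.log x ^ b :=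
          mul_le_mul_of_nonneg_right htot2 hlxb.le
      _ = (b + 2) * (s * Real.log x ^ b) + K * x := h1
      _ ≤ (b + 2) * ((2 * b) ^ b * x) + K * x := by
          have := mul_le_mul_of_nonneg_left hsx (show (0 : ℝ) ≤ b + 2 by positivity)
          linarith
      _ ≤ _ := by
          have h2 : 0 ≤ Real.log X1 ^ b * x := by positivity
          nlinarith

end Pool.Agent.LAP
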