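import Mathlib

/-! LAP/Path (0.7h).  A path with steps `p, q` which visits few bad positions.

PLAN.  `L = q + q * p`.  For every `n` choose (`choose r hr1 hr2 hr3 using fun n => hD (n * D)`) a run
`[r n, r n + L) ⊆ [n D, (n+1) D)` without bad positions.  Call `n` dense if at least `q` bad positions lie in
`[n D, n D + 2 D)`.  For `n` not dense choose a class `c n < q` such that no bad `v ∈ [n D, n D + 2 D)` has `v % q = c n`
(pigeonhole: fewer than `q` bad positions); for `n` dense `c n := 0`.
Strategy `f x := if ∃ n, r n ≤ x ∧ x < r n + L ∧ x % q ≠ c n then p else q`; `X` = the orbit of `0` under `x ↦ x + f x`.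
The runs are disjoint (they lie in disjoint intervals), so for `x` in the run `n` only this `n` matters.
Invariant for a visited `x` with `r n ≤ x < r (n+1)`: there is `e : ℕ` with `(x + e * p) % q = c n` and
(`e = 0` or `x + e * p ≤ r n + q - 1 + (q - 1) * p`).  First visited `x ≥ r n`: its predecessor is `< r n`, so
`x ≤ r n + q - 1`; as `p, q` are coprime there is `e ≤ q - 1`.  (`n = 0`, `r 0 = 0`: `x = 0` is visited at the start.)  Step: if
`x % q = c n` (use `e = 0`) the next is `x + q`, `e = 0` again; if `x % q ≠ c n` then `e > 0`, so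
`x < r n + L`, `x` is in the run, `f x = p`, `e` decreases.
So a visited `x ∈ [r n + L, r (n+1))` satisfies `x % q = c n`; positions of the run are not bad; for `n` not dense no visited
`x ∈ [r n, r (n+1))` is bad (`r (n+1) ≤ n D + 2 D`).  Hence every visited bad `x ≤ y` lies in `[0, r 0)` (less than `D`
positions) or in `[r n, r (n+1)) ⊆ [n D, n D + 2 D)` with `n` dense, `n D ≤ y`: at most `2 D` positions for each such `n`,
and `w = n D` is counted on the right (`n ↦ n D` is injective).  `X` is strictly increasing, so indices and positions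
correspond (`Set.ncard_image_of_injective`).  All sets in question are finite (subsets of `Iic y` or preimages of it under
the strictly increasing `X`). -/

set_option autoImplicit false

namespace Pool.Agent.LAP

/-- a free residue class -/
theorem path_class (q s t : ℕ) (Bad : ℕ → Prop)
    (h : {v : ℕ | s ≤ v ∧ v < t ∧ Bad v}.ncard < q) :
    ∃ c, c < q ∧ ∀ v, s ≤ v → v < t → Bad v → v % q ≠ c := by
  classical
  have hq : 0 < q := by omega
  have hfin : {v : ℕ | s ≤ v ∧ v < t ∧ Bad v}.Finite :=
    (Set.finite_Iio t).subset fun v hv => hv.2.1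
  have h1 : (hfin.toFinset.image fun v => v % q).card < (Finset.range q).card := by
    rw [Finset.card_range]
    refine lt_of_le_of_lt Finset.card_image_le ?_
    rwa [← Set.ncard_eq_toFinset_card _ hfin]
  obtain ⟨c, hc, hc'⟩ := Finset.exists_mem_notMem_of_card_lt_card h1
  refine ⟨c, Finset.mem_range.1 hc, fun v h2 h3 h4 h5 => hc' ?_⟩
  rw [Finset.mem_image]
  exact ⟨v, hfin.mem_toFinset.2 ⟨h2, h3, h4⟩, h5⟩

/-- entering a run -/
theorem path_entry (p q : ℕ) (hq : 0 < q) (hc : Nat.Coprime p q) (x c : ℕ) (hcq : c < q) :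
    ∃ e, e ≤ q - 1 ∧ (x + e * p) % q = c := by
  -- solve e * p = c - x mod q
  obtain ⟨b, hb⟩ : ∃ b : ℕ, (b * p) % q = 1 % q := by
    rcases Nat.lt_or_ge 1 q with h | h
    · obtain ⟨b, -, hb⟩ := Nat.exists_mul_mod_eq_one_of_coprime hc h
      exact ⟨b, by rw [mul_comm, hb, Nat.mod_eq_of_lt h]⟩
    · have h1 : q = 1 := by omega
      exact ⟨0, by rw [h1, Nat.mod_one, Nat.mod_one]⟩
  refine ⟨(b * (c + (q - 1) * x)) % q, ?_, ?_⟩
  · have := Nat.mod_lt (b * (c + (q - 1) * x)) hq
    omega
  · have h1 : (x + (b * (c + (q - 1) * x)) % q * p) ≡ c [MOD q] := by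
      have h2 : (b * (c + (q - 1) * x)) % q * p ≡ (c + (q - 1) * x) [MOD q] := by
        have h3 : (b * (c + (q - 1) * x)) % q * p ≡ (b * (c + (q - 1) * x)) * p [MOD q] :=
          (Nat.mod_modEq _ _).mul_right p
        have h4 : (b * (c + (q - 1) * x)) * p = (b * p) * (c + (q - 1) * x) := by ring
        have h5 : (b * p) * (c + (q - 1) * x) ≡ 1 * (c + (q - 1) * x) [MOD q] :=
          Nat.ModEq.mul_right _ hb
        rw [one_mul] at h5
        rw [h4] at h3
        exact h3.trans h5
      have h6 : x + (b * (c + (q - 1) * x)) % q * p ≡ x + (c + (q - 1) * x) [MOD q] := h2.add_left x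
      have h7 : x + (c + (q - 1) * x) = c + q * x := by
        obtain ⟨k, rfl⟩ : ∃ k, q = k + 1 := ⟨q - 1, by omega⟩
        simp only [Nat.add_sub_cancel]
        ring
      rw [h7] at h6
      refine h6.trans ?_
      have h8 : c + q * x ≡ c + 0 [MOD q] := by
        refine Nat.ModEq.add_left c ?_
        exact (Nat.modEq_zero_iff_dvd.2 ⟨x, rfl⟩)
      simp
    have h9 : (x + (b * (c + (q - 1) * x)) % q * p) % q = c % q := h1
    rw [h9, Nat.mod_eq_of_lt hcq]

theorem good_path (p q : ℕ) (hp : 0 < p) (hpq : p < q) (hc : Nat.Coprime p q) (Bad : ℕ → Prop) (D : ℕ) (hD0 : 0 < D)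
    (hD : ∀ s : ℕ, ∃ r : ℕ, s ≤ r ∧ r + (q + q * p) ≤ s + D ∧ ∀ u : ℕ, u < q + q * p → ¬ Bad (r + u)) :
    ∃ X : ℕ → ℕ, X 0 = 0 ∧ (∀ m, X (m + 1) = X m + p ∨ X (m + 1) = X m + q) ∧
      ∀ y : ℕ, {m : ℕ | X m ≤ y ∧ Bad (X m)}.ncard ≤
        2 * D * (1 + {w : ℕ | w ≤ y ∧ q ≤ {v : ℕ | w ≤ v ∧ v < w + 2 * D ∧ Bad v}.ncard}.ncard) := by
  classical
  have hq : 0 < q := by omega
  set L := q + q * p with hL
  choose r hr1 hr2 hr3 using fun n : ℕ => hD (n * D)
  -- the classes
  have hcl : ∀ n : ℕ, ∃ c, c < q ∧ ({v : ℕ | n * D ≤ v ∧ v < n * D + 2 * D ∧ Bad v}.ncard < q →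
      ∀ v, n * D ≤ v → v < n * D + 2 * D → Bad v → v % q ≠ c) := by
    intro n
    by_cases h : {v : ℕ | n * D ≤ v ∧ v < n * D + 2 * D ∧ Bad v}.ncard < q
    · obtain ⟨c, h1, h2⟩ := path_class q (n * D) (n * D + 2 * D) Bad h
      exact ⟨c, h1, fun _ => h2⟩
    · exact ⟨0, hq, fun h' => absurd h' h⟩
  choose c hc1 hc2 using hcl
  set f : ℕ → ℕ := fun x => if r (x / D) ≤ x ∧ x < r (x / D) + L ∧ x % q ≠ c (x / D) then p else q with hf
  set X : ℕ → ℕ := fun m => Nat.rec 0 (fun _ x => x + f x) m with hX
  have hX0 : X 0 = 0 := rfl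
  have hXs : ∀ m, X (m + 1) = X m + f (X m) := fun m => rfl
  have hfpq : ∀ x, f x = p ∨ f x = q := by
    intro x
    simp only [hf]
    split
    · left; rfl
    · right; rfl
  have hfq : ∀ x, f x ≤ q := by
    intro x
    rcases hfpq x with h | h <;> omega
  have hfp : ∀ x, 0 < f x := by
    intro x
    rcases hfpq x with h | h <;> omega
  have hdiv : ∀ n x : ℕ, n * D ≤ x → x < (n + 1) * D → x / D = n := by
    intro n x h1 h2
    exact Nat.div_eq_of_lt_le h1 h2
  have hrn : ∀ n, r n + L ≤ (n + 1) * D := by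
    intro n
    have h1 := hr2 n
    have h2 : (n + 1) * D = n * D + D := by ring
    omega
  -- the strategy on the window of `n`
  have hfw : ∀ n x, r n ≤ x → x < r (n + 1) → x % q = c n → f x = q := by
    intro n x h1 h2 h3
    simp only [hf]
    rw [if_neg]
    rintro ⟨h4, h5, h6⟩
    by_cases h7 : x < (n + 1) * D
    · have h8 := hdiv n x (le_trans (hr1 n) h1) h7
      rw [h8] at h6
      exact h6 h3
    · have h8 : x < (n + 1 + 1) * D := by
        have := hrn (n + 1)
        omega
      have h9 := hdiv (n + 1) x (by omega) h8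
      rw [h9] at h4
      omega
  have hfr : ∀ n x, r n ≤ x → x < r n + L → x % q ≠ c n → f x = p := by
    intro n x h1 h2 h3
    have h8 := hdiv n x (le_trans (hr1 n) h1) (by have := hrn n; omega)
    simp only [hf]
    rw [h8, if_pos ⟨h1, h2, h3⟩]
  -- the invariant
  have hinv : ∀ m n, r n ≤ X m → X m < r (n + 1) →
      ∃ e, (X m + e * p) % q = c n ∧ (e = 0 ∨ X m + e * p ≤ r n + (q - 1) + (q - 1) * p) := by
    intro m
    have hentry : ∀ n x, x ≤ r n + (q - 1) → ∃ e, (x + e * p) % q = c n ∧
        (e = 0 ∨ x + e * p ≤ r n + (q - 1) + (q - 1) * p) := by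
      intro n x hx
      obtain ⟨e, h1, h2⟩ := path_entry p q hq hc x (c n) (hc1 n)
      refine ⟨e, h2, Or.inr ?_⟩
      have h3 : e * p ≤ (q - 1) * p := Nat.mul_le_mul_right p h1
      omega
    induction m with
    | zero =>
      intro n _ _
      exact hentry n _ (by rw [hX0]; omega)
    | succ m ih =>
      intro n h1 h2
      by_cases h3 : r n ≤ X m
      · have h4 : X m < r (n + 1) := by
          have := hXs m
          omega
        obtain ⟨e, h5, h6⟩ := ih n h3 h4
        by_cases h7 : X m % q = c n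
        · refine ⟨0, ?_, Or.inl rfl⟩
          rw [hXs, hfw n (X m) h3 h4 h7, zero_mul, add_zero, Nat.add_mod_right]
          exact h7
        · have h8 : e ≠ 0 := by
            rintro rfl
            rw [zero_mul, add_zero] at h5
            exact h7 h5
          obtain ⟨k, rfl⟩ := Nat.exists_eq_succ_of_ne_zero h8
          have h9 : X m + (k + 1) * p ≤ r n + (q - 1) + (q - 1) * p := by
            rcases h6 with h6 | h6
            · omega
            · exact h6
          have h10 : (q - 1) * p + p = q * p := by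
            obtain ⟨t, rfl⟩ : ∃ t, q = t + 1 := ⟨q - 1, by omega⟩
            simp only [Nat.add_sub_cancel]
            ring
          have h11 : X m < r n + L := by
            have : 0 ≤ (k + 1) * p := Nat.zero_le _
            omega
          have h12 : X (m + 1) = X m + p := by rw [hXs, hfr n (X m) h3 h11 h7]
          have h13 : X (m + 1) + k * p = X m + (k + 1) * p := by
            rw [h12]
            ring
          exact ⟨k, by rw [h13]; exact h5, Or.inr (by rw [h13]; exact h9)⟩
      · have := hXs m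
        have := hfq (X m)
        exact hentry n _ (by omega)
  -- visited bad positions
  have hbad : ∀ m, Bad (X m) → X m < D ∨
      ∃ n, n * D ≤ X m ∧ X m < n * D + 2 * D ∧ q ≤ {v : ℕ | n * D ≤ v ∧ v < n * D + 2 * D ∧ Bad v}.ncard := by
    intro m hb
    have hwin : X m < r 0 ∨ ∃ n, r n ≤ X m ∧ X m < r (n + 1) := by
      have h1 : X m / D * D ≤ X m := Nat.div_mul_le_self _ _
      have h2 : X m < (X m / D + 1) * D := by
        have := Nat.lt_succ_iff.2 (le_refl (X m / D))
        exact (Nat.div_lt_iff_lt_mul hD0).1 this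
      by_cases h3 : r (X m / D) ≤ X m
      · right
        exact ⟨X m / D, h3, lt_of_lt_of_le h2 (hr1 _)⟩
      · rcases Nat.eq_zero_or_pos (X m / D) with h4 | h4
        · left
          rw [h4] at h3
          omega
        · right
          obtain ⟨k, hk⟩ : ∃ k, X m / D = k + 1 := ⟨X m / D - 1, by omega⟩
          refine ⟨k, ?_, by rw [hk] at h3; omega⟩
          have h5 := hrn k
          rw [hk] at h1
          omega
    rcases hwin with h | ⟨n, h1, h2⟩
    · left
      have h3 := hrn 0
      have h4 : (0 + 1) * D = D := by ring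
      omega
    · right
      have h3 : (n + 1 + 1) * D = n * D + 2 * D := by ring
      have h4 := hrn (n + 1)
      refine ⟨n, le_trans (hr1 n) h1, by omega, ?_⟩
      by_contra h5
      push Not at h5
      have h6 : r n + L ≤ X m := by
        by_contra h7
        push Not at h7
        have h8 := hr3 n (X m - r n) (by omega)
        rw [Nat.add_sub_cancel' h1] at h8
        exact h8 hb
      obtain ⟨e, h9, h10⟩ := hinv m n h1 h2
      have h11 : e = 0 := by
        rcases h10 with h10 | h10
        · exact h10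
        · exfalso
          have h12 : (q - 1) * p ≤ q * p := Nat.mul_le_mul_right p (by omega)
          have : 0 ≤ e * p := Nat.zero_le _
          omega
      rw [h11, zero_mul, add_zero] at h9
      exact hc2 n h5 (X m) (le_trans (hr1 n) h1) (by omega) hb h9
  have hmono : StrictMono X := strictMono_nat_of_lt_succ fun m => by
    rw [hXs]
    have := hfp (X m)
    omega
  refine ⟨X, hX0, fun m => ?_, fun y => ?_⟩
  · rcases hfpq (X m) with h | h
    · left; rw [hXs, h]
    · right; rw [hXs, h]
  · have hWf : {w : ℕ | w ≤ y ∧ q ≤ {v : ℕ | w ≤ v ∧ v < w + 2 * D ∧ Bad v}.ncard}.Finite :=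
      (Set.finite_Iic y).subset fun w hw => hw.1
    rw [Set.ncard_eq_toFinset_card _ hWf]
    set W := hWf.toFinset with hW
    set T : Finset ℕ := Finset.range (2 * D) ∪ W.biUnion fun w => Finset.Ico w (w + 2 * D) with hT
    have h1 : X '' {m : ℕ | X m ≤ y ∧ Bad (X m)} ⊆ (T : Set ℕ) := by
      rintro x ⟨m, ⟨h2, h3⟩, rfl⟩
      rw [hT, Finset.mem_coe, Finset.mem_union]
      rcases hbad m h3 with h4 | ⟨n, h4, h5, h6⟩
      · left
        rw [Finset.mem_range]
        omega
      · right
        rw [Finset.mem_biUnion]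
        refine ⟨n * D, ?_, Finset.mem_Ico.2 ⟨h4, h5⟩⟩
        rw [hW, Set.Finite.mem_toFinset]
        exact ⟨le_trans h4 h2, h6⟩
    have h2 : {m : ℕ | X m ≤ y ∧ Bad (X m)}.ncard ≤ T.card := by
      rw [← Set.ncard_image_of_injective _ hmono.injective, ← Set.ncard_coe_finset T]
      exact Set.ncard_le_ncard h1 T.finite_toSet
    have h3 : T.card ≤ 2 * D + W.card * (2 * D) := by
      refine le_trans (Finset.card_union_le _ _) ?_
      rw [Finset.card_range]
      refine Nat.add_le_add_left ?_ _
      refine Finset.card_biUnion_le_card_mul _ _ _ fun w _ => ?_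
      rw [Nat.card_Ico]
      omega
    calc {m : ℕ | X m ≤ y ∧ Bad (X m)}.ncard ≤ T.card := h2
      _ ≤ 2 * D + W.card * (2 * D) := h3
      _ = 2 * D * (1 + W.card) := by ring

end Pool.Agent.LAP
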