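import Pool.Agent.LAP.Defs

/-! LAP/Run (0.5h).  Runs of consecutive positions `t` for which `k + g t` is not rough, with bounded gaps,
uniformly in `k`.

PLAN.  Take `L` distinct primes `ℓ 0, ..., ℓ (L-1)`, none dividing `g` (for example `> g`; `Nat.exists_infinite_primes`,
`Nat.nth Nat.Prime (g + u)`), `M = ∏ ℓ u`, `B` = an upper bound of all `ℓ u`, and `X0 : ℕ` with
`(B : ℝ) ≤ (X0 : ℝ) ^ δ` (possible as `δ > 0`).  `D := 2 * L + X0 + M + 1`.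
Given `k, s`: let `t0` be the least `t ≥ s` with `2 ≤ k + g t` (`Nat.find`; exists because `g ≥ 1`).
If `s + L ≤ t0` take `r = s`: `k + g (s + u) ≤ 1`, not rough.
Otherwise `t0 < s + L`; for `t ≥ t0 + X0` one has `k + g t ≥ 2 + X0 ≥ X0`.  By CRT (`Nat.chineseRemainderOfFinset` or
`Nat.chineseRemainderOfList`, after inverting `g` modulo `ℓ u`) there is `τ` with `ℓ u ∣ k + g (τ + u)` for all `u < L`; take
`r ∈ [t0 + X0, t0 + X0 + M)` with `r ≡ τ` modulo `M`.  Then `m = k + g (r + u) ≥ X0` is divisible by `ℓ u ≤ B ≤ X0 ^ δ ≤ m ^ δ`,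
so it is not rough. -/

set_option autoImplicit false

namespace Pool.Agent.LAP

/-- the primes used -/
private noncomputable def run_l (g u : ℕ) : ℕ := Nat.nth Nat.Prime (g + u)

private theorem run_prime (g u : ℕ) : (run_l g u).Prime := Nat.prime_nth_prime _

private theorem run_lt (g u : ℕ) : g < run_l g u := by
  have h := Nat.add_two_le_nth_prime (g + u)
  unfold run_l
  omega

private theorem run_inj (g : ℕ) {u v : ℕ} (h : u ≠ v) : Nat.Coprime (run_l g u) (run_l g v) := by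
  refine (Nat.coprime_primes (run_prime g u) (run_prime g v)).2 fun he => h ?_
  have := Nat.nth_injective Nat.infinite_setOfPred_prime he
  omega

/-- one residue class -/
private theorem run_one (g : ℕ) (hg : 0 < g) (k : ℤ) (u : ℕ) :
    ∃ a : ℕ, ∀ x : ℕ, x ≡ a [MOD run_l g u] → ((run_l g u : ℕ) : ℤ) ∣ k + g * ((x + u : ℕ) : ℤ) := by
  have : Fact (run_l g u).Prime := ⟨run_prime g u⟩
  have hg0 : (g : ZMod (run_l g u)) ≠ 0 := by
    intro h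
    have h1 : run_l g u ∣ g := (ZMod.natCast_eq_zero_iff g _).1 h
    exact absurd (Nat.le_of_dvd hg h1) (not_le.2 (run_lt g u))
  refine ⟨(-(k : ZMod (run_l g u)) * (g : ZMod (run_l g u))⁻¹ - u).val, fun x hx => ?_⟩
  have h1 : (x : ZMod (run_l g u)) = -(k : ZMod (run_l g u)) * (g : ZMod (run_l g u))⁻¹ - u := by
    rw [(ZMod.natCast_eq_natCast_iff _ _ _).2 hx, ZMod.natCast_zmod_val]
  rw [← ZMod.intCast_zmod_eq_zero_iff_dvd]
  push_cast
  rw [h1]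
  field_simp
  ring

private theorem run_crt (g : ℕ) (hg : 0 < g) (L : ℕ) (k : ℤ) :
    ∃ τ : ℕ, ∀ u : ℕ, u < L → ∀ x : ℕ, ((∏ v ∈ Finset.range L, run_l g v : ℕ) : ℤ) ∣ (x : ℤ) - τ →
      ((run_l g u : ℕ) : ℤ) ∣ k + g * ((x + u : ℕ) : ℤ) := by
  choose a ha using run_one g hg k
  obtain ⟨τ, hτ⟩ := Nat.chineseRemainderOfFinset a (run_l g) (Finset.range L)
    (fun i _ => (run_prime g i).ne_zero) (fun i _ j _ hij => run_inj g hij)
  refine ⟨τ, fun u hu x hx => ha u x ?_⟩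
  have h1 : x ≡ τ [MOD run_l g u] := by
    rw [Nat.modEq_iff_dvd]
    have h2 : ((run_l g u : ℕ) : ℤ) ∣ ((∏ v ∈ Finset.range L, run_l g v : ℕ) : ℤ) :=
      Int.natCast_dvd_natCast.2 (Finset.dvd_prod_of_mem _ (Finset.mem_range.2 hu))
    have h3 := h2.trans hx
    rw [← dvd_neg] at h3
    rwa [neg_sub] at h3
  exact h1.trans (hτ u (Finset.mem_range.2 hu))

private theorem run_shift (M : ℕ) (hM : 0 < M) (τ b : ℕ) :
    ∃ r : ℕ, b ≤ r ∧ r < b + M ∧ ((M : ℕ) : ℤ) ∣ (r : ℤ) - τ := by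
  have h1 : b ≤ M * b := Nat.le_mul_of_pos_left b hM
  refine ⟨b + (τ + (M * b - b)) % M, Nat.le_add_right _ _, Nat.add_lt_add_left (Nat.mod_lt _ hM) _, ?_⟩
  refine ⟨(b : ℤ) - ((τ + (M * b - b)) / M : ℕ), ?_⟩
  have h2 := Nat.mod_add_div (τ + (M * b - b)) M
  have h3 : (((τ + (M * b - b)) % M : ℕ) : ℤ) + M * ((τ + (M * b - b)) / M : ℕ) = τ + (M * b - b) := by
    have h4 : (((τ + (M * b - b)) % M : ℕ) : ℤ) + M * ((τ + (M * b - b)) / M : ℕ) =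
        ((τ + (M * b - b) : ℕ) : ℤ) := by
      rw [← Nat.cast_mul, ← Nat.cast_add, h2]
    rw [h4, Nat.cast_add, Nat.cast_sub h1, Nat.cast_mul]
  rw [Nat.cast_add]
  linear_combination h3

theorem runs (g : ℕ) (hg : 0 < g) (δ : ℝ) (hδ : 0 < δ) (L : ℕ) : ∃ D : ℕ, 0 < D ∧ ∀ (k : ℤ) (s : ℕ),
    ∃ r : ℕ, s ≤ r ∧ r + L ≤ s + D ∧ ∀ u : ℕ, u < L → ¬ Rough δ (k + g * ((r + u : ℕ) : ℤ)) := by
  set M : ℕ := ∏ v ∈ Finset.range L, run_l g v with hMdef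
  have hM : 0 < M := Finset.prod_pos fun v _ => (run_prime g v).pos
  set B : ℕ := ∑ v ∈ Finset.range L, run_l g v with hBdef
  have hB : ∀ u, u < L → run_l g u ≤ B := fun u hu =>
    Finset.single_le_sum (f := run_l g) (fun _ _ => Nat.zero_le _) (Finset.mem_range.2 hu)
  obtain ⟨X0, hX0⟩ : ∃ X0 : ℕ, (B : ℝ) ≤ (X0 : ℝ) ^ δ := by
    refine ⟨⌈(B : ℝ) ^ (1 / δ)⌉₊, ?_⟩
    have h1 : (B : ℝ) = ((B : ℝ) ^ (1 / δ)) ^ δ := by
      rw [← Real.rpow_mul (Nat.cast_nonneg B), one_div, inv_mul_cancel₀ hδ.ne', Real.rpow_one]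
    calc (B : ℝ) = ((B : ℝ) ^ (1 / δ)) ^ δ := h1
      _ ≤ _ := Real.rpow_le_rpow (Real.rpow_nonneg (Nat.cast_nonneg B) _) (Nat.le_ceil _) hδ.le
  refine ⟨2 * L + X0 + M + 1, by omega, fun k s => ?_⟩
  have hex : ∃ t : ℕ, s ≤ t ∧ (2 : ℤ) ≤ k + g * (t : ℤ) := by
    refine ⟨s + k.natAbs + 2, by omega, ?_⟩
    have h1 : (1 : ℤ) ≤ g := by exact_mod_cast hg
    have h2 : ((s + k.natAbs + 2 : ℕ) : ℤ) ≤ g * ((s + k.natAbs + 2 : ℕ) : ℤ) :=
      le_mul_of_one_le_left (Int.natCast_nonneg _) h1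
    omega
  obtain ⟨ht1, ht2⟩ := Nat.find_spec hex
  set t0 := Nat.find hex with ht0
  have hmin : ∀ t : ℕ, s ≤ t → t < t0 → ¬ (2 : ℤ) ≤ k + g * (t : ℤ) := fun t h1 h2 h3 =>
    Nat.find_min hex h2 ⟨h1, h3⟩
  by_cases hc : s + L ≤ t0
  · refine ⟨s, le_rfl, by omega, fun u hu hr => ?_⟩
    exact hmin (s + u) (by omega) (by omega) hr.1
  · obtain ⟨τ, hτ⟩ := run_crt g hg L k
    obtain ⟨r, hr1, hr2, hr3⟩ := run_shift M hM τ (t0 + X0)
    refine ⟨r, by omega, by omega, fun u hu hr => ?_⟩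
    have hdiv := hτ u hu r hr3
    have hlt := hr.2 (run_l g u) (run_prime g u) hdiv
    have h1 : (1 : ℤ) ≤ g := by exact_mod_cast hg
    have h2 : ((X0 : ℕ) : ℤ) ≤ k + g * ((r + u : ℕ) : ℤ) := by
      have h3 : (((r + u - t0 : ℕ)) : ℤ) ≤ g * (((r + u - t0 : ℕ)) : ℤ) :=
        le_mul_of_one_le_left (Int.natCast_nonneg _) h1
      have h4 : ((r + u : ℕ) : ℤ) = (t0 : ℤ) + ((r + u - t0 : ℕ) : ℤ) := by
        have : t0 ≤ r + u := by omega
        rw [Nat.cast_sub this]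
        ring
      have h5 : (X0 : ℤ) ≤ ((r + u - t0 : ℕ) : ℤ) := by
        have : X0 ≤ r + u - t0 := by omega
        exact_mod_cast this
      rw [h4, mul_add]
      linarith
    have h6 : (X0 : ℝ) ≤ ((k + g * ((r + u : ℕ) : ℤ) : ℤ) : ℝ) := by exact_mod_cast h2
    have h7 : (X0 : ℝ) ^ δ ≤ ((k + g * ((r + u : ℕ) : ℤ) : ℤ) : ℝ) ^ δ :=
      Real.rpow_le_rpow (Nat.cast_nonneg X0) h6 hδ.le
    have h8 : ((run_l g u : ℕ) : ℝ) ≤ B := by exact_mod_cast hB u hu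
    linarith

end Pool.Agent.LAP
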