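import Pool.Agent.LAP.Run
import Pool.Agent.LAP.Path
import Pool.Agent.LAP.PatU

/-! LAP/Up (0.6h).  From every `k` there is a walk with few rough terms.

PLAN.  `g = Int.gcd i j`, `i = g p`, `j = g q`, `p < q` coprime, `q = expo i j`.  `L = q + q * p`, `D` from `runs g δ L`, `Bad t := Rough δ (k + g t)`,
`X` from `good_path`, `A m = k + g * X m`: an `(i, j)`-walk.  For `x ≥ 2`: if `x < k` there are no hits.  Otherwise let
`y = ⌊(x - k)/g⌋₊`: `A m ≤ x ↔ X m ≤ y`, so `hits δ A x ≤ 2 D (1 + #W)`,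
`W = {w ≤ y : at least q bad v ∈ [w, w + 2D)}`.  Map `w ∈ W` to a subset `H ⊆ range (2 D)` with `q` elements with `w + h` bad for all `h ∈ H`:
`W ⊆ ⋃_{H ∈ powersetCard q (range (2D))} {w ≤ y : ∀ h ∈ H, Rough δ (k + g (w + h))}`, and there
`k + g (w + h) ≤ x + 2 g D`, so `pat_count` with `x' = x + 2 g D` gives `#W ≤ (∑_H C_H) x' / log x' ^ q ≤ C' x / log x ^ q`
(`x' ≤ (1 + g D) x`, `log x' ≥ log x`).  The `1` is absorbed: `x / log x ^ q ≥ c > 0` for `x ≥ 2` (for example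
`Real.log x ≤ x`-type bounds: `log x ^ q ≤ q ^ q * x`, from `Real.log_le_sub_one_of_pos` applied to `x ^ (1/q)`, or
`Real.add_one_le_exp`; `1 ≤ q ^ q x / log x ^ q`).  `C` depends on `i, j, δ` only. -/

set_option autoImplicit false

namespace Pool.Agent.LAP

open Pool.Agent.Helper27

/-- absorbing the constant -/
private theorem up_one (q : ℕ) (hq : 0 < q) (x : ℝ) (hx : 2 ≤ x) : 1 ≤ (q : ℝ) ^ q * x / Real.log x ^ q := by
  have hl : 0 < Real.log x := Real.log_pos (by linarith)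
  have hx0 : 0 ≤ x := by linarith
  have hq' : (0 : ℝ) < q := by exact_mod_cast hq
  have h1 : Real.log x ≤ x ^ (1 / (q : ℝ)) / (1 / (q : ℝ)) := Real.log_le_rpow_div hx0 (by positivity)
  have h2 : Real.log x ≤ (q : ℝ) * x ^ (1 / (q : ℝ)) := by
    have : x ^ (1 / (q : ℝ)) / (1 / (q : ℝ)) = (q : ℝ) * x ^ (1 / (q : ℝ)) := by field_simp
    rwa [this] at h1
  have h3 : Real.log x ^ q ≤ (q : ℝ) ^ q * x := by
    calc Real.log x ^ q ≤ ((q : ℝ) * x ^ (1 / (q : ℝ))) ^ q := pow_le_pow_left₀ hl.le h2 q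
      _ = (q : ℝ) ^ q * x := by
        rw [mul_pow, ← Real.rpow_natCast (x ^ (1 / (q : ℝ))) q, ← Real.rpow_mul hx0, one_div,
          inv_mul_cancel₀ hq'.ne', Real.rpow_one]
  rw [le_div_iff₀ (pow_pos hl q), one_mul]
  exact h3

/-- the enlarged bound -/
private theorem up_shift (q : ℕ) (a x : ℝ) (ha : 0 ≤ a) (hx : 2 ≤ x) :
    (x + 2 * a) / Real.log (x + 2 * a) ^ q ≤ (1 + a) * x / Real.log x ^ q := by
  have hl : 0 < Real.log x := Real.log_pos (by linarith)
  have h1 : x + 2 * a ≤ (1 + a) * x := by nlinarith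
  have h2 : Real.log x ≤ Real.log (x + 2 * a) := Real.log_le_log (by linarith) (by linarith)
  apply div_le_div₀ (by positivity) h1 (pow_pos hl q) (pow_le_pow_left₀ hl.le h2 q)

/-- the set of starts of a constellation is finite -/
private theorem up_fin (g : ℕ) (hg : 0 < g) (δ : ℝ) (k : ℤ) (x : ℝ) (H : Finset ℕ) (hH : H.Nonempty) :
    {w : ℕ | ∀ h ∈ H, Rough δ (k + g * ((w + h : ℕ) : ℤ)) ∧
        (((k + g * ((w + h : ℕ) : ℤ) : ℤ)) : ℝ) ≤ x}.Finite := by
  obtain ⟨h, hh⟩ := hH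
  refine (Set.finite_Iic ⌊x - k⌋₊).subset fun w hw => ?_
  have h1 := (hw h hh).2
  have hg1 : (1 : ℝ) ≤ g := by exact_mod_cast hg
  push_cast at h1
  rw [Set.mem_Iic]
  apply Nat.le_floor
  have h2 : (w : ℝ) + h ≤ g * ((w : ℝ) + h) := le_mul_of_one_le_left (by positivity) hg1
  have h3 : (0 : ℝ) ≤ h := Nat.cast_nonneg h
  linarith

/-- a window with `q` bad positions contains a pattern -/
private theorem up_pattern (Bad : ℕ → Prop) (q D w : ℕ)
    (h : q ≤ {v : ℕ | w ≤ v ∧ v < w + 2 * D ∧ Bad v}.ncard) :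
    ∃ H ∈ Finset.powersetCard q (Finset.range (2 * D)), ∀ u ∈ H, Bad (w + u) := by
  classical
  have hfin : {v : ℕ | w ≤ v ∧ v < w + 2 * D ∧ Bad v}.Finite :=
    (Set.finite_Iio (w + 2 * D)).subset fun v hv => hv.2.1
  rw [Set.ncard_eq_toFinset_card _ hfin] at h
  obtain ⟨T, hT, hTc⟩ := Finset.exists_subset_card_eq h
  have hmem : ∀ v ∈ T, w ≤ v ∧ v < w + 2 * D ∧ Bad v := fun v hv => by
    have := hT hv
    rwa [Set.Finite.mem_toFinset] at this
  refine ⟨T.image (fun v => v - w), ?_, ?_⟩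
  · rw [Finset.mem_powersetCard]
    constructor
    · intro u hu
      obtain ⟨v, hv, rfl⟩ := Finset.mem_image.1 hu
      have := hmem v hv
      rw [Finset.mem_range]; omega
    · rw [Finset.card_image_of_injOn, hTc]
      intro a ha b hb hab
      have h1 := hmem a ha
      have h2 := hmem b hb
      simp only at hab
      omega
  · intro u hu
    obtain ⟨v, hv, rfl⟩ := Finset.mem_image.1 hu
    have := hmem v hv
    rw [Nat.add_sub_cancel' this.1]
    exact this.2.2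

/-- counting the dense windows -/
private theorem up_windows (g : ℕ) (hg : 0 < g) (δ : ℝ) (hδ : 0 < δ) (hδ1 : δ < 1) (q D : ℕ) (hq : 0 < q) :
    ∃ C : ℝ, 0 ≤ C ∧ ∀ (k : ℤ) (x : ℝ) (y : ℕ), 2 ≤ x → (k : ℝ) + g * y ≤ x →
      (({w : ℕ | w ≤ y ∧ q ≤ {v : ℕ | w ≤ v ∧ v < w + 2 * D ∧ Rough δ (k + g * (v : ℤ))}.ncard}.ncard : ℕ) : ℝ) ≤
        C * x / Real.log x ^ q := by
  classical
  have hex : ∀ H : Finset ℕ, ∃ C : ℝ, 0 ≤ C ∧ (H.Nonempty → ∀ (k : ℤ) (x : ℝ), 2 ≤ x →
      (({w : ℕ | ∀ h ∈ H, Rough δ (k + g * ((w + h : ℕ) : ℤ)) ∧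
        (((k + g * ((w + h : ℕ) : ℤ) : ℤ)) : ℝ) ≤ x}.ncard : ℕ) : ℝ) ≤ C * x / Real.log x ^ H.card) := by
    intro H
    by_cases hH : H.Nonempty
    · obtain ⟨C, hC, h⟩ := pat_count g hg δ hδ hδ1 H hH
      exact ⟨C, hC.le, fun _ => h⟩
    · exact ⟨0, le_rfl, fun h => absurd h hH⟩
  choose CH hCH0 hCH using hex
  refine ⟨(∑ H ∈ Finset.powersetCard q (Finset.range (2 * D)), CH H) * (1 + g * D), ?_, ?_⟩
  · exact mul_nonneg (Finset.sum_nonneg fun H _ => hCH0 H) (by positivity)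
  intro k x y hx hy
  have hl : 0 < Real.log x := Real.log_pos (by linarith)
  have hx' : 2 ≤ x + 2 * (g * D : ℝ) := by
    have : (0 : ℝ) ≤ g * D := by positivity
    linarith
  set P : Finset ℕ → Set ℕ := fun H => {w : ℕ | ∀ h ∈ H, Rough δ (k + g * ((w + h : ℕ) : ℤ)) ∧
        (((k + g * ((w + h : ℕ) : ℤ) : ℤ)) : ℝ) ≤ x + 2 * (g * D : ℝ)} with hP
  have hne : ∀ H ∈ Finset.powersetCard q (Finset.range (2 * D)), H.Nonempty := by
    intro H hH
    rw [Finset.mem_powersetCard] at hH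
    rw [← Finset.card_pos, hH.2]; exact hq
  have hWfin : {w : ℕ | w ≤ y ∧ q ≤ {v : ℕ | w ≤ v ∧ v < w + 2 * D ∧ Rough δ (k + g * (v : ℤ))}.ncard}.Finite :=
    (Set.finite_Iic y).subset fun w hw => hw.1
  have hunion : ({w : ℕ | w ≤ y ∧ q ≤ {v : ℕ | w ≤ v ∧ v < w + 2 * D ∧ Rough δ (k + g * (v : ℤ))}.ncard}.ncard : ℝ) ≤
      ∑ H ∈ Finset.powersetCard q (Finset.range (2 * D)), ((P H).ncard : ℝ) := by
    have hsub : hWfin.toFinset ⊆ (Finset.powersetCard q (Finset.range (2 * D))).attach.biUnion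
        (fun H => (up_fin g hg δ k (x + 2 * (g * D : ℝ)) H.1 (hne H.1 H.2)).toFinset) := by
      intro w hw
      rw [Set.Finite.mem_toFinset] at hw
      obtain ⟨hwy, hwq⟩ := hw
      obtain ⟨H, hH, hHb⟩ := up_pattern (fun v => Rough δ (k + g * (v : ℤ))) q D w hwq
      rw [Finset.mem_biUnion]
      refine ⟨⟨H, hH⟩, Finset.mem_attach _ _, ?_⟩
      rw [Set.Finite.mem_toFinset]
      intro h hh
      refine ⟨hHb h hh, ?_⟩
      have h2 : h < 2 * D := by
        have := (Finset.mem_powersetCard.1 hH).1 hh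
        simpa using this
      push_cast
      have h3 : (g : ℝ) * ((w : ℝ) + h) ≤ g * ((y : ℝ) + 2 * D) := by
        apply mul_le_mul_of_nonneg_left _ (Nat.cast_nonneg g)
        have e1 : (w : ℝ) ≤ y := by exact_mod_cast hwy
        have e2 : (h : ℝ) ≤ 2 * D := by exact_mod_cast h2.le
        linarith
      nlinarith
    have h1 := (Finset.card_le_card hsub).trans Finset.card_biUnion_le
    rw [Set.ncard_eq_toFinset_card _ hWfin]
    have h2 : ∑ H ∈ (Finset.powersetCard q (Finset.range (2 * D))).attach,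
        (up_fin g hg δ k (x + 2 * (g * D : ℝ)) H.1 (hne H.1 H.2)).toFinset.card =
        ∑ H ∈ Finset.powersetCard q (Finset.range (2 * D)), (P H).ncard := by
      rw [← Finset.sum_attach (Finset.powersetCard q (Finset.range (2 * D)))]
      refine Finset.sum_congr rfl fun H _ => ?_
      rw [Set.ncard_eq_toFinset_card _ (up_fin g hg δ k (x + 2 * (g * D : ℝ)) H.1 (hne H.1 H.2))]
    rw [h2] at h1
    exact_mod_cast h1
  refine hunion.trans ?_
  calc ∑ H ∈ Finset.powersetCard q (Finset.range (2 * D)), ((P H).ncard : ℝ)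
      ≤ ∑ H ∈ Finset.powersetCard q (Finset.range (2 * D)), CH H * ((1 + g * D) * x / Real.log x ^ q) := by
        refine Finset.sum_le_sum fun H hH => ?_
        have h1 := hCH H (hne H hH) k (x + 2 * (g * D : ℝ)) hx'
        rw [(Finset.mem_powersetCard.1 hH).2, mul_div_assoc] at h1
        exact h1.trans (mul_le_mul_of_nonneg_left (up_shift q (g * D) x (by positivity) hx) (hCH0 H))
    _ = (∑ H ∈ Finset.powersetCard q (Finset.range (2 * D)), CH H) * (1 + g * D) * x / Real.log x ^ q := by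
        rw [← Finset.sum_mul]; ring

theorem upper (i j : ℤ) (h0 : 0 < i) (hij : i < j) (δ : ℝ) (hδ : 0 < δ) (hδ1 : δ < 1) :
    ∃ C : ℝ, 0 < C ∧ ∀ k : ℤ, ∃ A : ℕ → ℤ, IsWalk i j k A ∧
      ∀ x : ℝ, 2 ≤ x → ((hits δ A x : ℕ) : ℝ) ≤ C * x / Real.log x ^ expo i j := by
  classical
  set g : ℕ := Int.gcd i j with hgdef
  have hg : 0 < g := Int.gcd_pos_of_ne_zero_left j h0.ne'
  have hgz : (0 : ℤ) < g := by exact_mod_cast hg
  have hdi : (g : ℤ) ∣ i := Int.gcd_dvd_left ..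
  have hdj : (g : ℤ) ∣ j := Int.gcd_dvd_right ..
  set p : ℕ := (i / (g : ℤ)).toNat with hpdef
  set q : ℕ := (j / (g : ℤ)).toNat with hqdef
  have hexpo : expo i j = q := rfl
  have hpz : (p : ℤ) = i / g := Int.toNat_of_nonneg (Int.ediv_nonneg h0.le hgz.le)
  have hqz : (q : ℤ) = j / g := Int.toNat_of_nonneg (Int.ediv_nonneg (h0.trans hij).le hgz.le)
  have hi : i = g * p := by rw [hpz, Int.mul_ediv_cancel' hdi]
  have hj : j = g * q := by rw [hqz, Int.mul_ediv_cancel' hdj]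
  have hp : 0 < p := by
    have : (0 : ℤ) < g * p := by rw [← hi]; exact h0
    have := (pos_iff_pos_of_mul_pos this).1 hgz
    exact_mod_cast this
  have hpq : p < q := by
    have : (g : ℤ) * p < g * q := by rw [← hi, ← hj]; exact hij
    have := lt_of_mul_lt_mul_left this hgz.le
    exact_mod_cast this
  have hq : 0 < q := hp.trans hpq
  have hc : Nat.Coprime p q := by
    have h1 : Int.gcd (i / (g : ℤ)) (j / (g : ℤ)) = 1 := by
      rw [hgdef]
      exact Int.gcd_ediv_gcd_ediv_gcd hg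
    rw [← hpz, ← hqz] at h1
    simpa [Int.gcd_natCast_natCast] using h1
  obtain ⟨D, hD0, hD⟩ := runs g hg δ hδ (q + q * p)
  obtain ⟨C1, hC1, hW⟩ := up_windows g hg δ hδ hδ1 q D hq
  have hqq : (0 : ℝ) < (q : ℝ) ^ q := by positivity
  have hDr : (0 : ℝ) < D := by exact_mod_cast hD0
  refine ⟨2 * D * ((q : ℝ) ^ q + C1), by positivity, fun k => ?_⟩
  obtain ⟨X, hX0, hXs, hXc⟩ := good_path p q hp hpq hc (fun t => Rough δ (k + g * (t : ℤ))) D hD0 (hD k)
  refine ⟨fun m => k + g * (X m : ℤ), ⟨by simp [hX0], fun n => ?_⟩, fun x hx => ?_⟩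
  · rcases hXs n with h | h
    · left
      show (k + g * (X (n + 1) : ℤ)) - (k + g * (X n : ℤ)) = i
      rw [h, hi]; push_cast; ring
    · right
      show (k + g * (X (n + 1) : ℤ)) - (k + g * (X n : ℤ)) = j
      rw [h, hj]; push_cast; ring
  · rw [hexpo]
    have hl : 0 < Real.log x := Real.log_pos (by linarith)
    have hgr : (0 : ℝ) < g := by exact_mod_cast hg
    by_cases hxk : x < k
    · have : hits δ (fun m => k + g * (X m : ℤ)) x = 0 := by
        rw [hits, Set.ncard_eq_zero (Set.Finite.subset Set.finite_empty ?_)]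
        · rw [Set.eq_empty_iff_forall_notMem]
          rintro n ⟨hn, -⟩
          push_cast at hn
          have : (0 : ℝ) ≤ g * (X n : ℝ) := by positivity
          linarith
        · rintro n ⟨hn, -⟩
          push_cast at hn
          have : (0 : ℝ) ≤ g * (X n : ℝ) := by positivity
          exfalso
          linarith
      rw [this]
      push_cast
      positivity
    · push Not at hxk
      have hnn : 0 ≤ (x - k) / g := div_nonneg (by linarith) hgr.le
      have hset : {n : ℕ | (((fun m => k + g * (X m : ℤ)) n : ℤ) : ℝ) ≤ x ∧ Rough δ ((fun m => k + g * (X m : ℤ)) n)} =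
          {m : ℕ | X m ≤ ⌊(x - k) / g⌋₊ ∧ Rough δ (k + g * (X m : ℤ))} := by
        ext n
        simp only [Set.mem_ofPred_eq]
        rw [Nat.le_floor_iff hnn, le_div_iff₀ hgr]
        push_cast
        constructor
        · rintro ⟨h1, h2⟩; exact ⟨by linarith, h2⟩
        · rintro ⟨h1, h2⟩; exact ⟨by linarith, h2⟩
      have hh : hits δ (fun m => k + g * (X m : ℤ)) x =
          {m : ℕ | X m ≤ ⌊(x - k) / g⌋₊ ∧ Rough δ (k + g * (X m : ℤ))}.ncard := by
        rw [hits, hset]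
      rw [hh]
      have hy : (k : ℝ) + g * (⌊(x - k) / g⌋₊ : ℝ) ≤ x := by
        have h1 := Nat.floor_le hnn
        rw [le_div_iff₀ hgr] at h1
        linarith
      have h1 := hXc ⌊(x - k) / g⌋₊
      have h2 := hW k x ⌊(x - k) / g⌋₊ hx hy
      have h3 := up_one q hq x hx
      calc (({m : ℕ | X m ≤ ⌊(x - k) / g⌋₊ ∧ Rough δ (k + g * (X m : ℤ))}.ncard : ℕ) : ℝ)
          ≤ ((2 * D * (1 + {w : ℕ | w ≤ ⌊(x - k) / g⌋₊ ∧
              q ≤ {v : ℕ | w ≤ v ∧ v < w + 2 * D ∧ Rough δ (k + g * (v : ℤ))}.ncard}.ncard) : ℕ) : ℝ) := by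
            exact_mod_cast h1
        _ ≤ 2 * D * ((q : ℝ) ^ q * x / Real.log x ^ q + C1 * x / Real.log x ^ q) := by
            push_cast
            apply mul_le_mul_of_nonneg_left _ (by positivity)
            exact add_le_add h3 h2
        _ = 2 * D * ((q : ℝ) ^ q + C1) * x / Real.log x ^ q := by ring

end Pool.Agent.LAP
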